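import Pool.Agent.Work.MP_8dbde4_lc.Phy.Stmts2

/-!
Translations of FP formulas (item TRA of the block Phy).
-/

set_option autoImplicit false
open Classical

namespace Pool.Agent.Work.MP_8dbde4_lc.Phy

open Pool.Agent.Work.MP_8dbde4_lc.TS Pool.Agent.Work.MP_8dbde4_lc.Tree

namespace XTRA

lemma eval_trA {σ τ : Sig} (a : (R : σ.S) → (Fin (σ.ar R) → ℕ) → FP τ) {A : Type}
    (𝔄' : Str σ A) (𝔄 : Str τ A)
    (ha : ∀ R xs (v : ℕ → A) (β : ℕ → List A → Prop), (a R xs).eval 𝔄 v β ↔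
      𝔄'.rel R (fun i => v (xs i))) :
    ∀ (φ : FP σ) (v : ℕ → A) (β : ℕ → List A → Prop), (trA a φ).eval 𝔄 v β ↔ φ.eval 𝔄' v β
  | .rel R xs, v, β => ha R xs v β
  | .eq x y, v, β => Iff.rfl
  | .app X xs, v, β => Iff.rfl
  | .neg φ, v, β => not_congr (eval_trA a 𝔄' 𝔄 ha φ v β)
  | .and φ ψ, v, β => and_congr (eval_trA a 𝔄' 𝔄 ha φ v β) (eval_trA a 𝔄' 𝔄 ha ψ v β)
  | .ex x φ, v, β => exists_congr fun b => eval_trA a 𝔄' 𝔄 ha φ _ β
  | .ifp X ys φ xs, v, β => by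
    show (∃ n, stage _ n (xs.map v)) ↔ (∃ n, stage _ n (xs.map v))
    have key : (fun (P : List A → Prop) l => ys.Nodup ∧ l.length = ys.length ∧
        (trA a φ).eval 𝔄 (upd v ys l) (Function.update β X P)) =
        (fun (P' : List A → Prop) l => ys.Nodup ∧ l.length = ys.length ∧
        φ.eval 𝔄' (upd v ys l) (Function.update β X P')) := by
      funext P' l
      rw [eval_trA a 𝔄' 𝔄 ha φ]
    exact exists_congr fun n => by rw [key]

/-- the false formula -/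
def ffF {σ : Sig} : FP σ := .and (.eq 0 0) (.neg (.eq 0 0))

lemma eval_ffF {σ : Sig} {A : Type} (𝔄 : Str σ A) (v : ℕ → A) (β : ℕ → List A → Prop) :
    (ffF : FP σ).eval 𝔄 v β ↔ False := by
  show (v 0 = v 0 ∧ ¬ v 0 = v 0) ↔ False
  simp

end XTRA

open XTRA

theorem TRA_pf : S_TRA := fun _ _ a _ 𝔄' 𝔄 ha => eval_trA a 𝔄' 𝔄 ha

theorem TR1_pf : S_TR1 := by
  intro c σ 𝔅 N ⟨Φ, hΦ⟩
  have hin : ∀ R : (sP N).S, (Sum.inr R : (ssum σ (sP N)).S) ∈ insert (nes σ N) (Pgc σ N) := by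
    rintro (k | u)
    · exact Or.inr ⟨k, rfl⟩
    · exact Or.inl rfl
  -- the translation of the atoms
  refine ⟨trA (fun R xs => FP.rel (σ := (ssum σ (sP N)).sub (insert (nes σ N) (Pgc σ N)))
    ⟨Sum.inr R, hin R⟩ xs) Φ, ?_⟩
  intro A _ _ 𝔄 v
  -- the structure for `sP N`
  let 𝔄' : Str (sP N) A := ⟨fun R t => 𝔄.rel ⟨Sum.inr R, hin R⟩ t⟩
  rw [eval_trA _ 𝔄' 𝔄 (fun R xs v β => Iff.rfl), hΦ A 𝔄' v]
  constructor
  · rintro ⟨h, hh⟩
    refine ⟨h, ?_⟩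
    rintro ⟨R, hR⟩ t ht
    rcases R with R | R
    · exfalso
      rcases hR with hR | ⟨k, hR⟩
      · exact absurd hR (by simp [nes])
      · exact absurd hR (by simp)
    · exact hh R t ht
  · rintro ⟨h, hh⟩
    exact ⟨h, fun R t ht => hh ⟨Sum.inr R, hin R⟩ t ht⟩

theorem TR2_pf : S_TR2 := by
  intro c σ 𝔅 N ⟨Φ, hΦ⟩
  let a : (R : (ssum σ (sP N)).S) → (Fin ((ssum σ (sP N)).ar R) → ℕ) → FP σ := fun R =>
    match R with
    | .inl R => fun xs => .rel R xs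
    | .inr _ => fun _ => ffF
  refine ⟨trA a Φ, ?_⟩
  intro A _ _ 𝔄 v
  let 𝔄' : Str (ssum σ (sP N)) A := ⟨fun R =>
    match R with
    | .inl R => fun t => 𝔄.rel R t
    | .inr _ => fun _ => False⟩
  have ha : ∀ R xs (v : ℕ → A) (β : ℕ → List A → Prop), (a R xs).eval 𝔄 v β ↔
      𝔄'.rel R (fun i => v (xs i)) := by
    rintro (R | R) xs v β
    · exact Iff.rfl
    · exact eval_ffF 𝔄 v β
  rw [eval_trA a 𝔄' 𝔄 ha, hΦ A 𝔄' v]
  constructor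
  · rintro ⟨h, hh⟩
    exact ⟨h, fun R t ht => hh (Sum.inl R) t ht⟩
  · rintro ⟨h, hh⟩
    refine ⟨h, ?_⟩
    rintro (R | R) t ht
    · exact hh R t ht
    · exact False.elim ht

end Pool.Agent.Work.MP_8dbde4_lc.Phy
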