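import Pool.Agent.Work.MP_8dbde4_lc.Phy.Stmts
import Pool.Agent.Work.MP_8dbde4_lc.TS.Closure

/-!
Statements of the block Phy of MP_8dbde4_lc, second part: the positive part, FP and FPC,
homogeneity. Every docstring contains the proof.
-/

set_option autoImplicit false
open Classical

namespace Pool.Agent.Work.MP_8dbde4_lc.Phy

open Pool.Agent.Work.MP_8dbde4_lc.TS Pool.Agent.Work.MP_8dbde4_lc.Tree

/-! ### Part P: the positive part -/

/-- Symbols `inl k` of arity `k + 2`, and one binary symbol. -/
def sP (N : ℕ) : Sig where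
  S := Fin N ⊕ Unit
  fin := inferInstance
  ar := Sum.elim (fun k => k.val + 2) (fun _ => 2)

/-- `inl k`: the first split does not separate the first two coordinates; `inr ()`: disequality. -/
def LG (N : ℕ) : Lang (sP N) Bool where
  P
    | .inl k => fun p => p (0 : Fin (k.val + 2)) = p (1 : Fin (k.val + 2))
    | .inr _ => fun _ => True
  strict
    | .inl _ => False
    | .inr _ => True
  const
    | .inl _ => fun _ => rfl
    | .inr _ => fun _ => trivial

/-- The disjoint union of two signatures. -/
def ssum (σ τ : Sig) : Sig where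
  S := σ.S ⊕ τ.S
  fin := inferInstance
  ar := Sum.elim σ.ar τ.ar

/-- Two structures with the same domain together. -/
def both {σ τ : Sig} {A : Type} (𝔄 : Str σ A) (𝔅 : Str τ A) : Str (ssum σ τ) A where
  rel
    | .inl R => fun t => 𝔄.rel R t
    | .inr R => fun t => 𝔅.rel R t

/-- The expansion of `𝔅` by the relations of `LG N`. -/
def Bp {c : ℚ → Bool} {σ : Sig} (𝔅 : Str σ (Word c)) (N : ℕ) : Str (ssum σ (sP N)) (Word c) :=
  both 𝔅 ((LG N).tree c)

/-- The symbols `inl k` of `LG N`. -/
def Pgc (σ : Sig) (N : ℕ) : Set (ssum σ (sP N)).S := {R | ∃ k : Fin N, R = Sum.inr (Sum.inl k)}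

/-- The disequality symbol. -/
def nes (σ : Sig) (N : ℕ) : (ssum σ (sP N)).S := Sum.inr (Sum.inr ())

/-- `LG N` has good steps: all its patterns are closed under `meet false true` (the conditions are
equalities), so `Good (LG N) false true`; `Res` for `W = univ` gives a non-constant step, and its
values are `false` or `true`. -/
def S_GLG : Prop := ∀ N : ℕ, GS (LG N)

/-- First-split languages with letters in `Bool` are preserved by an injective binary operation:
let `ψ₁`, `ψ₂` be increasing maps from `ℚ` to the negative and the positive rationals (for example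
`ψ₁ q = if 0 ≤ q then -1 / (1 + q) else q - 1`, `ψ₂ q = - ψ₁ (-q)`); `g(x, y)` has at the place
`ψ₁ q'` the letter `c (ψ₁ q') ^^ (x q' ^^ c q')`, at `ψ₂ q'` the letter `c (ψ₂ q') ^^ (y q' ^^ c q')`,
and the letter of `c` elsewhere: it differs from `c` in finitely many places. At `ψ₁ q'` the letters
of `g(x, y)`, `g(x', y')` are equal iff those of `x`, `x'` at `q'` are; the same for `ψ₂`, `y`, `y'`. So
`g` is injective, and if the first tuple is not constant its first split at `q'` gives the first
split of the image at `ψ₁ q'`, with the same pattern or its complement (`c (ψ₁ q') ^^ c q'` is added);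
otherwise the same for the second tuple; if both are constant so is the image. -/
def S_LEX : Prop := ∀ c : ℚ → Bool, ∃ g : (Fin 2 → Word c) → Word c, Function.Injective g ∧
  ∀ (σ : Sig) (L : Lang σ Bool), (∀ R p, L.P R p → L.P R (fun j => !p j)) →
  ∀ (R : σ.S) (t : Fin 2 → Fin (σ.ar R) → Word c), (∀ i, (L.tree c).rel R (t i)) →
    (L.tree c).rel R (fun j => g (fun i => t i j))

/-- Horn clauses over first splits are Horn clauses over the relations `inl k` of `LG N`, for `N`
larger than all arities: for a clause with the conclusion `some (i, j, Y)` of a relation of arity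
`n` use the symbol `inl n` with the tuple `i, j, (if l ∈ Y then l else i)_l`: by S_PLC
`((LG N).tree c).rel (inl n)` of it says that `h i = h j` for the first split `h` of
`insert i (insert j Y)`. Premises: list the pairs. The set `cs` is finite. The symbols `inl k`
themselves: the clause without premises; the disequality: the clause `v 0 = v 1 → false`. -/
def S_HDF : Prop := ∀ (c : ℚ → Bool) (σ : Sig) (𝔅 : Str σ (Word c)), (∀ R, HornC (𝔅.rel R)) →
  ∃ N : ℕ, HornDefinable (Bp 𝔅 N) (Pgc σ N)

/-- Translation of FP formulas: replace the atoms `R xs` by formulas `a R xs`. -/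
def trA {σ τ : Sig} (a : (R : σ.S) → (Fin (σ.ar R) → ℕ) → FP τ) : FP σ → FP τ
  | .rel R xs => a R xs
  | .eq x y => .eq x y
  | .app X xs => .app X xs
  | .neg φ => .neg (trA a φ)
  | .and φ ψ => .and (trA a φ) (trA a ψ)
  | .ex x φ => .ex x (trA a φ)
  | .ifp X ys φ xs => .ifp X ys (trA a φ) xs

/-- The meaning of the translation, by induction (as `eval_lift` in TS/Closure.lean). -/
def S_TRA : Prop := ∀ (σ τ : Sig) (a : (R : σ.S) → (Fin (σ.ar R) → ℕ) → FP τ) (A : Type)
  (𝔄' : Str σ A) (𝔄 : Str τ A),
  (∀ R xs (v : ℕ → A) (β : ℕ → List A → Prop), (a R xs).eval 𝔄 v β ↔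
    𝔄'.rel R (fun i => v (xs i))) →
  ∀ (φ : FP σ) (v : ℕ → A) (β : ℕ → List A → Prop), (trA a φ).eval 𝔄 v β ↔ φ.eval 𝔄' v β

/-- Renaming of the symbols: `R ↦ inr R` is a bijection between the symbols of `sP N` and
`insert (nes σ N) (Pgc σ N)`. S_TRA with `a R xs = .rel ⟨inr R, _⟩ xs`. -/
def S_TR1 : Prop := ∀ (c : ℚ → Bool) (σ : Sig) (𝔅 : Str σ (Word c)) (N : ℕ),
  InFP (CSP ((LG N).tree c)) → InFP (CSP ((Bp 𝔅 N).sub (insert (nes σ N) (Pgc σ N))))

/-- Fewer symbols: a structure for `σ` is a structure for the larger signature with the additional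
relations empty. S_TRA with `a (inl R) xs = .rel R xs`, `a (inr R) xs = ` false. -/
def S_TR2 : Prop := ∀ (c : ℚ → Bool) (σ : Sig) (𝔅 : Str σ (Word c)) (N : ℕ),
  InFP (CSP (Bp 𝔅 N)) → InFP (CSP 𝔅)

/-- The positive part. By S_POS and S_GLG the language `LG N` is in FP. `inFP_closure`
(TS/Closure.lean, proved) for `Bp 𝔅 N`, `m = 1`, `P 0 = Pgc σ N`, `ne = nes σ N`: `HasInjOn` from S_LEX,
`Glues` from `glues_one`, `IsNe` directly, S_HDF, S_TR1; then S_TR2. -/
def S_POP : Prop := S_POS → S_GLG → S_LEX → S_HDF → S_TR1 → S_TR2 →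
  ∀ (c : ℚ → Bool) (σ : Sig) (𝔅 : Str σ (Word c)), (∀ R, HornC (𝔅.rel R)) → InFP (CSP 𝔅)

/-- FP is contained in FPC. Translate `ifp X ys φ xs` to
`ifp X (ys.map Sum.inl) φ' (xs.map Sum.inl)`, `app X xs` to `app X (xs.map Sum.inl)`. Invariant:
`β' X (List.replicate l.length false) (l.map Sum.inl) ↔ β X l` for all `X`, `l`; all the relation
variables are only used with element sorts (the arities may differ). -/
def S_F2C : Prop := ∀ (σ : Sig) (𝒦 : Class σ), InFP 𝒦 → InFPC 𝒦

/-! ### Part H: homogeneity and finite boundedness -/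

/-- The structure with the split relation only. -/
def Cst (c : ℚ → Bool) : Str (sg 3) (Word c) where
  rel _ t := Cc (t (0 : Fin 3)) (t (1 : Fin 3)) (t (2 : Fin 3))

/-- `𝔅` together with the split relation. -/
def Bc {c : ℚ → Bool} {σ : Sig} (𝔅 : Str σ (Word c)) : Str (ssum σ (sg 3)) (Word c) :=
  both 𝔅 (Cst c)

/-- Homogeneity: back and forth with S_OPC (also for the inverse) on the countable set `Word c`
(S_CTB), as for `S_HOM` in Tree/I_HOM.lean (proved). The isomorphism preserves `Cc` in both
directions, so it preserves the relations of `𝔅` by invariance. -/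
def S_HMC : Prop := ∀ (c : ℚ → Bool) (σ : Sig) (𝔅 : Str σ (Word c)), (∀ R, Inv (𝔅.rel R)) →
  Homog (Bc 𝔅)

/-- Invariant sets are those which are preserved by all automorphisms of the split relation.
(→) `v` and `g ∘ v` have the same splits. (←) Let `v`, `w` have the same splits; S_HMC for a
signature without symbols gives an automorphism of `Cc` which maps `v x` to `w x`. -/
def S_AUT : Prop := ∀ (c : ℚ → Bool) (X : Type) [Finite X] (S : (X → Word c) → Prop),
  Inv S ↔ ∀ g : Word c ≃ Word c, (∀ x y z, Cc x y z ↔ Cc (g x) (g y) (g z)) →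
    ∀ v, S v → S (fun x => g (v x))

/-- Finite boundedness. Let `n = 5 + ∑ R, ar R` (all symbols of `σ`) and let `F` be the set of the
structures on `Fin m`, `m ≤ n`, which do not embed into `Bc 𝔅` (finitely many). One direction is
clear. Let `𝔄` be a finite structure into which no member of `F` embeds: all the substructures with
at most `n` elements embed. Claim by induction on `|W|`: for all `W ⊆ A` there is `e : A → Word c`,
injective on `W`, with `C(z; x, y)` in `𝔄` iff `Cc (e z) (e x) (e y)` for `x, y, z ∈ W`. For
`|W| ≤ 1` clear (one-element substructures embed). Otherwise fix `x ∈ W` and `y ∈ W \ {x}` such that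
`C(y'; x, y)` holds for no `y' ∈ W \ {x}` (possible: for an embedding `g` it says
`δ(g x, g y') < δ(g x, g y)`, so it is a strict weak order on `W \ {x}` by the embeddings of four
elements). Let `h z = true` iff `z = x` or `C(y; x, z)`. For every embedding `g` of `{x, y, z, w, u}`:
all five words agree below `q* = δ(g x, g y)`, and `h z = true` iff `(g z) q* = (g x) q*`. Take `e_0`,
`e_1` for the two classes of `h` in `W` (smaller), and join them along `h` (S_JOI). For `z, w, u` in
one class the relation is that of `e_0` or `e_1`, otherwise it is read off at the new place and in the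
embedding `g` at `q*`. The relations of `𝔅`: for a tuple `t` of `A` take an embedding `g` of its
entries: `e ∘ t` and `g ∘ t` have the same splits, so invariance. -/
def S_FBC : Prop := ∀ (c : ℚ → Bool) (σ : Sig) (𝔅 : Str σ (Word c)), (∀ R, Inv (𝔅.rel R)) →
  FinBdd (Bc 𝔅)

end Pool.Agent.Work.MP_8dbde4_lc.Phy
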