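import Pool.Agent.Work.MP_8dbde4_lc.Phy.Stmts

/-!
# Phylogeny block, item CPS: positive splits determine everything for injective tuples
-/

set_option autoImplicit false
open Classical

namespace Pool.Agent.Work.MP_8dbde4_lc.Phy

open Pool.Agent.Work.MP_8dbde4_lc.TS Pool.Agent.Work.MP_8dbde4_lc.Tree

namespace XCPS

variable {c : ℚ → Bool}

theorem cc_symm {z x y : Word c} (h : Cc z x y) : Cc z y x := by
  obtain ⟨q, h1, h2, h3, h4⟩ := h
  exact ⟨q, h2, h1, h3.symm, fun h5 => h4 (h5.trans h3.symm)⟩

theorem cc_asymm {z x y : Word c} (h : Cc z x y) : ¬ Cc x z y := by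
  rintro ⟨q', h1', h2', h3', h4'⟩
  obtain ⟨q, h1, h2, h3, h4⟩ := h
  rcases lt_trichotomy q q' with hq | hq | hq
  · exact h4 (h1' q hq).symm
  · subst hq
    exact h4 (h3'.trans h3.symm)
  · exact h4' (h1 q' hq).symm

theorem cc_ne {z x y : Word c} (h : Cc z x y) : z ≠ x := by
  obtain ⟨q, _, _, _, h4⟩ := h
  intro he
  rw [he] at h4
  exact h4 rfl

/-- the first place where two different words differ -/
theorem first_diff {x y : Word c} (h : x ≠ y) : ∃ q, Agr x y q ∧ x.1 q ≠ y.1 q := by
  have hfin : {q : ℚ | x.1 q ≠ y.1 q}.Finite := by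
    refine (x.2.union y.2).subset ?_
    intro q hq
    by_cases hx : x.1 q = c q
    · right
      intro hy
      exact hq (hx.trans (Eq.symm hy))
    · left
      exact hx
  have hne : {q : ℚ | x.1 q ≠ y.1 q}.Nonempty := by
    by_contra hcon
    rw [Set.not_nonempty_iff_eq_empty] at hcon
    apply h
    apply Subtype.ext
    funext q
    by_contra hq
    have : q ∈ {q : ℚ | x.1 q ≠ y.1 q} := hq
    rw [hcon] at this
    exact this
  obtain ⟨q, hq, hmin⟩ := Set.exists_min_image _ (fun q : ℚ => q) hfin hne
  refine ⟨q, ?_, hq⟩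
  intro q' hq'
  by_contra hcon
  exact absurd (hmin q' hcon) (not_le.2 hq')

theorem cc_same {x y : Word c} (h : x ≠ y) : Cc x y y := by
  obtain ⟨q, h1, h2⟩ := first_diff h
  exact ⟨q, h1, h1, rfl, h2⟩

/-- of three different words one splits off first -/
theorem cc_three {x y z : Word c} (h : x ≠ y) (h' : x ≠ z) :
    Cc z x y ∨ Cc x y z ∨ Cc y x z := by
  obtain ⟨q, h1, h2⟩ := first_diff h
  obtain ⟨r, h3, h4⟩ := first_diff h'
  rcases lt_trichotomy q r with hq | hq | hq
  · -- `x` and `z` agree at `q`, `y` differs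
    refine Or.inr (Or.inr ⟨q, fun a ha => (h1 a ha).symm, ?_, h3 q hq, fun e => h2 e.symm⟩)
    intro a ha
    exact (h1 a ha).symm.trans (h3 a (ha.trans hq))
  · subst hq
    refine Or.inr (Or.inl ⟨q, h1, h3, ?_, h2⟩)
    revert h2 h4
    cases x.1 q <;> cases y.1 q <;> cases z.1 q <;> simp
  · refine Or.inl ⟨r, fun a ha => (h3 a ha).symm, ?_, h1 r hq, fun e => h4 e.symm⟩
    intro a ha
    exact (h3 a ha).symm.trans (h1 a (ha.trans hq))

end XCPS

open XCPS in
theorem CPS_pf : S_CPS := by
  intro c X Y v w hinj H
  refine ⟨?_, ?_⟩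
  · intro x hx y hy
    constructor
    · intro e
      rw [hinj hx hy e]
    · intro e
      by_contra hne
      exact cc_ne (H y hy y hy x hx (cc_same hne)) e
  · intro x hx y hy z hz
    constructor
    · exact H x hx y hy z hz
    · intro h
      have hzx : v z ≠ v x := by
        intro e
        have := hinj hz hx e
        subst this
        exact cc_ne h rfl
      have hzy : v z ≠ v y := by
        intro e
        have := hinj hz hy e
        subst this
        exact cc_ne (cc_symm h) rfl
      by_cases hxy : v x = v y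
      · have := hinj hx hy hxy
        subst this
        exact cc_same hzx
      · rcases cc_three (x := v x) (y := v y) (z := v z) hxy (Ne.symm hzx) with h1 | h1 | h1
        · exact h1
        · exfalso
          have h2 := H y hy z hz x hx h1
          exact cc_asymm h (cc_symm h2)
        · exfalso
          have h2 := H x hx z hz y hy h1
          exact cc_asymm (cc_symm h) (cc_symm h2)

end Pool.Agent.Work.MP_8dbde4_lc.Phy
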