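import Pool.Agent.Work.MP_8dbde4_lc.Phy.Stmts

/-!
# Phylogeny block, item FSX: first splits exist and are unique up to complement
-/

set_option autoImplicit false
open Classical

namespace Pool.Agent.Work.MP_8dbde4_lc.Phy

open Pool.Agent.Work.MP_8dbde4_lc.TS Pool.Agent.Work.MP_8dbde4_lc.Tree

theorem FSX_pf (h1 : S_PLC) : S_FSX := by
  intro c X _ Y v
  refine ⟨?_, ?_⟩
  · rintro ⟨x₀, hx₀, y₀, hy₀, hne⟩
    have hfin : {q : ℚ | ∃ x ∈ Y, ∃ y ∈ Y, (v x).1 q ≠ (v y).1 q}.Finite := by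
      refine (Set.finite_iUnion (fun x : X => (v x).2)).subset ?_
      rintro q ⟨x, _, y, _, hxy⟩
      rw [Set.mem_iUnion]
      by_cases hx : (v x).1 q = c q
      · refine ⟨y, fun hy => hxy ?_⟩
        exact hx.trans (Eq.symm hy)
      · exact ⟨x, hx⟩
    have hne' : {q : ℚ | ∃ x ∈ Y, ∃ y ∈ Y, (v x).1 q ≠ (v y).1 q}.Nonempty := by
      by_contra hcon
      rw [Set.not_nonempty_iff_eq_empty] at hcon
      apply hne
      apply Subtype.ext
      funext q
      by_contra hq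
      have : q ∈ {q : ℚ | ∃ x ∈ Y, ∃ y ∈ Y, (v x).1 q ≠ (v y).1 q} :=
        ⟨x₀, hx₀, y₀, hy₀, hq⟩
      rw [hcon] at this
      exact this
    obtain ⟨q, hq, hmin⟩ := Set.exists_min_image _ (fun q : ℚ => q) hfin hne'
    refine ⟨fun x => (v x).1 q, (h1 c X Y v _).2 ⟨hq, q, ?_, ?_⟩⟩
    · intro x hx y hy q' hq'
      by_contra hcon
      exact absurd (hmin q' ⟨x, hx, y, hy, hcon⟩) (not_le.2 hq')
    · intro x _ y _
      exact Iff.rfl
  · intro h h' H H' x hx y hy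
    obtain ⟨⟨a, ha, b, hb, hab⟩, q, hq1, hq2⟩ := (h1 c X Y v h).1 H
    obtain ⟨⟨a', ha', b', hb', hab'⟩, q', hq1', hq2'⟩ := (h1 c X Y v h').1 H'
    have hqq : q = q' := by
      rcases lt_trichotomy q q' with hlt | heq | hgt
      · exact absurd ((hq2 a ha b hb).1 (hq1' a ha b hb q hlt)) hab
      · exact heq
      · exact absurd ((hq2' a' ha' b' hb').1 (hq1 a' ha' b' hb' q' hgt)) hab'
    subst hqq
    exact (hq2 x hx y hy).symm.trans (hq2' x hx y hy)

end Pool.Agent.Work.MP_8dbde4_lc.Phy
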