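import Pool.Agent.Work.MP_8dbde4_lc.Phy.Stmts

/-!
Item PLC: the place of a first split (S_PLC).
-/

set_option autoImplicit false
open Classical

namespace Pool.Agent.Work.MP_8dbde4_lc.Phy

open Pool.Agent.Work.MP_8dbde4_lc.TS Pool.Agent.Work.MP_8dbde4_lc.Tree

namespace XPLC

variable {c : ℚ → Bool}

theorem agr_symm {x y : Word c} {q : ℚ} (h : Agr x y q) : Agr y x q :=
  fun q' hq' => (h q' hq').symm

theorem agr_trans {x y z : Word c} {q : ℚ} (h : Agr x y q) (h' : Agr y z q) : Agr x z q :=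
  fun q' hq' => (h q' hq').trans (h' q' hq')

theorem uniq {x y : Word c} {q q' : ℚ} (h : Agr x y q) (hn : x.1 q ≠ y.1 q) (h' : Agr x y q')
    (hn' : x.1 q' ≠ y.1 q') : q = q' := by
  rcases lt_trichotomy q q' with h1 | h1 | h1
  · exact absurd (h' q h1) hn
  · exact h1
  · exact absurd (h q' h1) hn'

end XPLC

open XPLC in
theorem PLC_pf : S_PLC := by
  intro c X Y v h
  constructor
  · rintro ⟨⟨x₀, hx₀, y₀, hy₀, hne⟩, H⟩
    refine ⟨⟨x₀, hx₀, y₀, hy₀, hne⟩, ?_⟩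
    obtain ⟨q, h1, -, -, h2⟩ := H x₀ hx₀ x₀ hx₀ y₀ hy₀ rfl (fun e => hne e.symm)
    have key1 : ∀ z ∈ Y, h z = h x₀ → Agr (v x₀) (v z) q ∧ (v z).1 q = (v x₀).1 q := by
      intro z hz hzx
      obtain ⟨q', a1, a2, a3, a4⟩ := H x₀ hx₀ z hz y₀ hy₀ hzx.symm (fun e => hne e.symm)
      have : q = q' := uniq h1 h2 a1 a4
      subst this
      exact ⟨agr_trans (agr_symm a1) a2, a3.symm⟩
    have key2 : ∀ z ∈ Y, h z ≠ h x₀ → Agr (v x₀) (v z) q ∧ (v z).1 q = (v y₀).1 q := by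
      intro z hz hzx
      have hzy : h y₀ = h z := by
        cases e1 : h x₀ <;> cases e2 : h y₀ <;> cases e3 : h z <;> simp_all
      obtain ⟨q', a1, a2, a3, a4⟩ := H y₀ hy₀ z hz x₀ hx₀ hzy hne
      have : q = q' := uniq (agr_symm h1) (fun e => h2 e.symm) a1 a4
      subst this
      exact ⟨a2, a3.symm⟩
    have keyA : ∀ z ∈ Y, Agr (v x₀) (v z) q := by
      intro z hz
      by_cases e : h z = h x₀
      · exact (key1 z hz e).1
      · exact (key2 z hz e).1
    refine ⟨q, fun x hx y hy => agr_trans (agr_symm (keyA x hx)) (keyA y hy), ?_⟩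
    intro x hx y hy
    by_cases ex : h x = h x₀ <;> by_cases ey : h y = h x₀
    · rw [(key1 x hx ex).2, (key1 y hy ey).2, ex, ey]
      simp
    · rw [(key1 x hx ex).2, (key2 y hy ey).2, ex]
      exact ⟨fun e => absurd e.symm h2, fun e => absurd e.symm ey⟩
    · rw [(key2 x hx ex).2, (key1 y hy ey).2, ey]
      exact ⟨fun e => absurd e h2, fun e => absurd e ex⟩
    · rw [(key2 x hx ex).2, (key2 y hy ey).2]
      have : h x = h y := by
        cases e1 : h x₀ <;> cases e2 : h x <;> cases e3 : h y <;> simp_all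
      simp [this]
  · rintro ⟨hne, q, h1, h2⟩
    refine ⟨hne, ?_⟩
    intro x hx y hy z hz hxy hzx
    exact ⟨q, h1 z hz x hx, h1 z hz y hy, (h2 x hx y hy).2 hxy,
      fun e => hzx ((h2 z hz x hx).1 e)⟩

end Pool.Agent.Work.MP_8dbde4_lc.Phy
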