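import Pool.Agent.Work.MP_8dbde4_lc.Phy.Stmts2
import Pool.Agent.Work.MP_8dbde4_lc.Phy.I_PLC
import Pool.Agent.Work.MP_8dbde4_lc.Phy.I_FSX

/-!
# Examples: rooted triples; even first splits
-/

set_option autoImplicit false
open Classical

namespace Pool.Agent.Work.MP_8dbde4_lc.Phy

open Pool.Agent.Work.MP_8dbde4_lc.TS Pool.Agent.Work.MP_8dbde4_lc.Tree

variable {c : ℚ → Bool}

/-- The split relation together with one relation `R` of arity 4. -/
def withR (R : (Fin 4 → Word c) → Prop) : Str (ssum (sg 3) (sg 4)) (Word c) :=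
  both (Cst c) ⟨fun _ t => R t⟩

/-- The first split of the four coordinates has an even number of coordinates on both sides (or the
tuple is constant). -/
def Even4 (v : Fin 4 → Word c) : Prop :=
  ∀ h : Fin 4 → Bool, Spl Set.univ v h → xor (xor (h 0) (h 1)) (xor (h 2) (h 3)) = false

theorem cc_same {X : Type} {v w : X → Word c} (H : SameOn Set.univ v w) (x y z : X) :
    Cc (v z) (v x) (v y) ↔ Cc (w z) (w x) (w y) :=
  H.2 x (Set.mem_univ _) y (Set.mem_univ _) z (Set.mem_univ _)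

theorem inv_Cst (R : (sg 3).S) : Inv ((Cst c).rel R) := fun v w H hv =>
  (cc_same H (1 : Fin 3) (2 : Fin 3) (0 : Fin 3)).1 hv

theorem inv_Even4 : Inv (Even4 (c := c)) := fun _ _ H hv h hs => hv h (hs.transfer H.symm)

theorem pp_C3_Cst {σ : Sig} (𝔅 : Str σ (Word c)) (R : σ.S) (h3 : σ.ar R = 3)
    (hR : ∀ t : Fin (σ.ar R) → Word c, 𝔅.rel R t ↔
      Cc (t (Fin.cast h3.symm 0)) (t (Fin.cast h3.symm 1)) (t (Fin.cast h3.symm 2))) :
    PP 𝔅 (C3 (c := c)) := by
  refine ⟨Fin 3, inferInstance, ⟨fun R' d => ∃ h : R' = R, ∀ i, d i = Fin.cast (by rw [h, h3]) i⟩,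
    id, fun v => ⟨fun hv => ⟨v, ?_, fun _ => rfl⟩, ?_⟩⟩
  · rintro R' d ⟨h, hd⟩
    subst h
    rw [hR]
    simp only [hd]
    exact hv
  · rintro ⟨f, hf, hv⟩
    have h1 := hf R (fun i => Fin.cast h3 i) ⟨rfl, fun i => rfl⟩
    rw [hR] at h1
    have hv' : v = f := funext hv
    rw [hv']
    exact h1

theorem plang_withR {R : (Fin 4 → Word c) → Prop} (hR : Inv R) : PLang (withR R) := by
  refine ⟨?_, ?_⟩
  · rintro (R' | R')
    · exact inv_Cst R'
    · exact hR
  · exact pp_C3_Cst (withR R) (Sum.inl ()) rfl (fun t => Iff.rfl)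

theorem plang_Cst : PLang (Cst c) :=
  ⟨inv_Cst, pp_C3_Cst (Cst c) () rfl (fun t => Iff.rfl)⟩

/-- `C(z; x, y)` is the conjunction of the clauses: `x = z → false`, `y = z → false`, and the
first split does not separate `x` and `y`. -/
theorem hornC_C3 : HornC (C3 (c := c)) := by
  have hPLC := PLC_pf
  refine ⟨{⟨{(0, 1)}, none⟩, ⟨{(0, 2)}, none⟩, ⟨∅, some (1, 2, Set.univ)⟩}, fun v => ?_⟩
  have hu : (insert (1 : Fin 3) (insert (2 : Fin 3) (Set.univ : Set (Fin 3)))) = Set.univ := by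
    ext x
    simp
  have key : C3 v ↔ (v 0 ≠ v 1 ∧ v 0 ≠ v 2 ∧ ∀ h : Fin 3 → Bool, Spl Set.univ v h → h 1 = h 2) := by
    constructor
    · rintro ⟨r, h1, h2, h3, h4⟩
      refine ⟨fun h => h4 (by rw [h]), fun h => h4 (by rw [h, ← h3]), fun h hs => ?_⟩
      obtain ⟨-, q, hq1, hq2⟩ := (hPLC c _ _ v h).1 hs
      by_contra hne
      have e12 : ¬ (v 1).1 q = (v 2).1 q := fun h5 =>
        hne ((hq2 1 (Set.mem_univ _) 2 (Set.mem_univ _)).1 h5)
      rcases lt_trichotomy r q with hlt | heq | hgt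
      · exact h4 (hq1 0 (Set.mem_univ _) 1 (Set.mem_univ _) r hlt)
      · subst heq
        exact e12 h3
      · exact e12 ((h1 q hgt).symm.trans (h2 q hgt))
    · rintro ⟨h1, h2, h3⟩
      obtain ⟨h, hs⟩ := (FSX_pf hPLC c (Fin 3) Set.univ v).1
        ⟨0, Set.mem_univ _, 1, Set.mem_univ _, h1⟩
      have h12 := h3 h hs
      obtain ⟨⟨x, -, y, -, hxy⟩, hs2⟩ := hs
      refine hs2 1 (Set.mem_univ _) 2 (Set.mem_univ _) 0 (Set.mem_univ _) h12 (fun h01 => hxy ?_)
      have hall : ∀ z : Fin 3, h z = h 1 := by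
        intro z
        fin_cases z
        · exact h01
        · rfl
        · exact h12.symm
      rw [hall x, hall y]
  rw [key]
  constructor
  · rintro ⟨h1, h2, h3⟩ C hC
    rcases hC with rfl | rfl | rfl
    · intro hp
      exact h1 (hp (0, 1) rfl)
    · intro hp
      exact h2 (hp (0, 2) rfl)
    · intro _ h hs
      rw [hu] at hs
      exact h3 h hs
  · intro H
    refine ⟨fun h => ?_, fun h => ?_, fun h hs => ?_⟩
    · exact H ⟨{(0, 1)}, none⟩ (by simp) (by rintro e rfl; exact h)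
    · exact H ⟨{(0, 2)}, none⟩ (by simp) (by rintro e rfl; exact h)
    · have := H ⟨∅, some (1, 2, Set.univ)⟩ (by simp) (by intro e he; exact absurd he (by simp)) h
      rw [hu] at this
      exact this hs

/-- The word `c` with the letters `a`, `b`, `d` at the places 0, 1, 2. -/
def wd (c : ℚ → Bool) (a b d : Bool) : Word c :=
  ⟨Function.update (Function.update (Function.update c 0 a) 1 b) 2 d,
    (Set.toFinite {(0 : ℚ), 1, 2}).subset (by
    intro q hq
    by_contra h
    simp only [Set.mem_insert_iff, Set.mem_singleton_iff, not_or] at h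
    exact hq (by rw [Function.update_of_ne h.2.2, Function.update_of_ne h.2.1,
      Function.update_of_ne h.1]))⟩

theorem wd_zero (a b d : Bool) : (wd c a b d).1 0 = a := by
  simp [wd]

theorem wd_one (a b d : Bool) : (wd c a b d).1 1 = b := by
  simp [wd]

theorem wd_two (a b d : Bool) : (wd c a b d).1 2 = d := by
  simp [wd]

theorem wd_agr (a b d a' b' d' : Bool) : Agr (wd c a b d) (wd c a' b' d') 0 := by
  intro q hq
  have h0 : q ≠ 0 := hq.ne
  have h1 : q ≠ 1 := (hq.trans one_pos).ne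
  have h2 : q ≠ 2 := (hq.trans two_pos).ne
  simp [wd, h0, h1, h2]

theorem wd_inj {a b d a' b' d' : Bool} (h : wd c a b d = wd c a' b' d') :
    a = a' ∧ b = b' ∧ d = d' := by
  refine ⟨?_, ?_, ?_⟩
  · rw [← wd_zero (c := c) a b d, h, wd_zero]
  · rw [← wd_one (c := c) a b d, h, wd_one]
  · rw [← wd_two (c := c) a b d, h, wd_two]

theorem wd_spl {X : Type} (Y : Set X) (a b d : X → Bool) (hn : ∃ x ∈ Y, ∃ y ∈ Y, a x ≠ a y) :
    Spl Y (fun x => wd c (a x) (b x) (d x)) a := by
  rw [PLC_pf]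
  refine ⟨hn, 0, fun x _ y _ => wd_agr _ _ _ _ _ _, fun x _ y _ => ?_⟩
  rw [wd_zero, wd_zero]

theorem even_iff {v : Fin 4 → Word c} {a : Fin 4 → Bool} (hs' : Spl Set.univ v a) :
    Even4 v ↔ xor (xor (a 0) (a 1)) (xor (a 2) (a 3)) = false := by
  constructor
  · intro h
    exact h a hs'
  · intro ha h hs
    have hu := (FSX_pf PLC_pf c (Fin 4) Set.univ v).2 h a hs hs'
    have e01 := hu 0 (Set.mem_univ _) 1 (Set.mem_univ _)
    have e02 := hu 0 (Set.mem_univ _) 2 (Set.mem_univ _)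
    have e03 := hu 0 (Set.mem_univ _) 3 (Set.mem_univ _)
    revert e01 e02 e03 ha
    generalize a 0 = a0
    generalize a 1 = a1
    generalize a 2 = a2
    generalize a 3 = a3
    generalize h 0 = b0
    generalize h 1 = b1
    generalize h 2 = b2
    generalize h 3 = b3
    revert a0 a1 a2 a3 b0 b1 b2 b3
    decide

/-- The relation `Even4` is not Horn. -/
theorem not_hornC_Even4 : ¬ HornC (Even4 (c := c)) := by
  rintro ⟨cs, hcs⟩
  -- an odd tuple of different words
  let a : Fin 4 → Bool := ![true, false, false, false]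
  let b : Fin 4 → Bool := ![false, true, false, false]
  let d : Fin 4 → Bool := ![false, false, true, false]
  let t : Fin 4 → Word c := fun x => wd c (a x) (b x) (d x)
  have htinj : ∀ i j : Fin 4, t i = t j → i = j := by
    intro i j h
    obtain ⟨h1, h2, h3⟩ := wd_inj h
    clear h
    revert i j
    decide
  have hts : Spl Set.univ t a := wd_spl Set.univ a b d ⟨0, Set.mem_univ _, 1, Set.mem_univ _,
    by decide⟩
  have htn : ¬ Even4 t := by
    rw [even_iff hts]
    decide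
  rw [hcs] at htn
  push Not at htn
  obtain ⟨C, hC, hCt⟩ := htn
  unfold Cl.Holds at hCt
  push Not at hCt
  obtain ⟨hp, hc⟩ := hCt
  have hprem : ∀ v : Fin 4 → Word c, ∀ e ∈ C.prem, v e.1 = v e.2 := by
    intro v e he
    rw [htinj _ _ (hp e he)]
  have hv : ∀ v : Fin 4 → Word c, Even4 v → CHolds v C.concl := by
    intro v hv
    rw [hcs] at hv
    exact hv C hC (hprem v)
  cases hcc : C.concl with
  | none =>
    have h0 := hv (fun _ => wd c false false false) (by
      intro h hs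
      obtain ⟨⟨x, hx, y, hy, hxy⟩, q, hq1, hq2⟩ := (PLC_pf c _ _ _ h).1 hs
      exact absurd ((hq2 x hx y hy).1 rfl) hxy)
    rw [hcc] at h0
    exact h0
  | some z =>
    obtain ⟨i, j, Y⟩ := z
    rw [hcc] at hc
    have hij : i ≠ j := by
      rintro rfl
      exact hc (fun h _ => rfl)
    obtain ⟨a', ha1, ha2⟩ : ∃ a' : Fin 4 → Bool, a' i ≠ a' j ∧
        xor (xor (a' 0) (a' 1)) (xor (a' 2) (a' 3)) = false := by
      clear hc hcc
      revert i j
      decide
    have hnc : ∀ Z : Set (Fin 4), i ∈ Z → j ∈ Z → ∃ x ∈ Z, ∃ y ∈ Z, a' x ≠ a' y :=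
      fun Z h1 h2 => ⟨i, h1, j, h2, ha1⟩
    have h1 := wd_spl (c := c) Set.univ a' a' a' (hnc _ (Set.mem_univ _) (Set.mem_univ _))
    have h2 := hv _ ((even_iff h1).2 ha2)
    rw [hcc] at h2
    exact ha1 (h2 a' (wd_spl _ a' a' a' (hnc _ (by simp) (by simp))))

end Pool.Agent.Work.MP_8dbde4_lc.Phy
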