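import Pool.Agent.Work.MP_8dbde4_lc.Phy.Stmts2

/-!
# Item AUT: invariant sets are those preserved by the automorphisms of the split relation
-/

set_option autoImplicit false
open Classical

namespace Pool.Agent.Work.MP_8dbde4_lc.Phy

open Pool.Agent.Work.MP_8dbde4_lc.TS Pool.Agent.Work.MP_8dbde4_lc.Tree

namespace XAUT

/-- The empty signature. -/
def s0 : Sig where
  S := Empty
  fin := inferInstance
  ar := fun e => e.elim

/-- The structure without relations. -/
def B0 (c : ℚ → Bool) : Str s0 (Word c) where
  rel R _ := R.elim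

end XAUT

open XAUT in
/-- Invariant sets are those which are preserved by all automorphisms of the split relation. -/
theorem AUT_pf (h1 : S_HMC) : S_AUT := by
  intro c X _ S
  constructor
  · intro hS g hg v hv
    refine hS v _ ⟨?_, ?_⟩ hv
    · intro x _ y _
      exact g.injective.eq_iff.symm
    · intro x _ y _ z _
      exact hg _ _ _
  · intro H v w hvw hv
    have hfv : (Set.range v).Finite := Set.finite_range v
    let f : Word c → Word c := fun a => if h : ∃ x, v x = a then w h.choose else a
    have hf : ∀ x, f (v x) = w x := by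
      intro x
      have hx : ∃ y, v y = v x := ⟨x, rfl⟩
      have h2 : f (v x) = w hx.choose := dif_pos hx
      rw [h2]
      exact (hvw.1 _ (Set.mem_univ _) _ (Set.mem_univ _)).1 hx.choose_spec
    have hinj : Set.InjOn f (hfv.toFinset : Set (Word c)) := by
      intro a ha b hb hab
      rw [Set.Finite.coe_toFinset] at ha hb
      obtain ⟨x, rfl⟩ := ha
      obtain ⟨y, rfl⟩ := hb
      rw [hf, hf] at hab
      exact (hvw.1 _ (Set.mem_univ _) _ (Set.mem_univ _)).2 hab
    obtain ⟨g, hg1, hg2⟩ := h1 c s0 (B0 c) (fun R => R.elim) hfv.toFinset f hinj (by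
      intro R t ht
      rcases R with R | R
      · exact R.elim
      · have ht' : ∀ j : Fin 3, ∃ x, v x = t j := by
          intro j
          have := ht j
          rw [Set.Finite.mem_toFinset] at this
          exact this
        obtain ⟨x0, hx0⟩ := ht' 0
        obtain ⟨x1, hx1⟩ := ht' 1
        obtain ⟨x2, hx2⟩ := ht' 2
        change Cc (t (0 : Fin 3)) (t (1 : Fin 3)) (t (2 : Fin 3)) ↔
          Cc (f (t (0 : Fin 3))) (f (t (1 : Fin 3))) (f (t (2 : Fin 3)))
        rw [← hx0, ← hx1, ← hx2, hf, hf, hf]
        exact hvw.2 _ (Set.mem_univ _) _ (Set.mem_univ _) _ (Set.mem_univ _))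
    have hgv : (fun x => g (v x)) = w := by
      funext x
      rw [hg2 (v x) (by rw [Set.Finite.mem_toFinset]; exact ⟨x, rfl⟩), hf]
    rw [← hgv]
    refine H g ?_ v hv
    intro x y z
    exact hg1 (Sum.inr ()) ![x, y, z]

end Pool.Agent.Work.MP_8dbde4_lc.Phy
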