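import Pool.Agent.Work.MP_8dbde4_lc.Phy.Stmts

/-!
# Boolean algebras of patterns (item BAL)
-/

set_option autoImplicit false
open Classical

namespace Pool.Agent.Work.MP_8dbde4_lc.Phy

open Pool.Agent.Work.MP_8dbde4_lc.TS Pool.Agent.Work.MP_8dbde4_lc.Tree

namespace XBAL

variable {c : ℚ → Bool} {σ : Sig}

theorem congr {X : Type} {S : (X → Word c) → Prop} {Y : Set X} {h h' : X → Bool}
    (H : Pat S Y h) (he : ∀ x ∈ Y, h x = h' x) : Pat S Y h' := by
  rcases H with H | ⟨v, hv, hs⟩
  · left
    intro x hx y hy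
    rw [← he x hx, ← he y hy]
    exact H x hx y hy
  · right
    refine ⟨v, hv, hs.congr ?_⟩
    intro x hx y hy
    rw [he x hx, he y hy]

theorem compl {X : Type} {S : (X → Word c) → Prop} {Y : Set X} {h : X → Bool}
    (H : Pat S Y h) : Pat S Y (fun x => !h x) := by
  rcases H with H | ⟨v, hv, hs⟩
  · left
    intro x hx y hy
    simp only [H x hx y hy]
  · right
    exact ⟨v, hv, hs.not⟩

theorem inter {𝔅 : Str σ (Word c)} (hK : KP 𝔅) {X : Type} [Finite X]
    {S : (X → Word c) → Prop} {Y : Set X} (hS : PP 𝔅 S) {h h' : X → Bool}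
    (H : Pat S Y h) (H' : Pat S Y h') : Pat S Y (fun x => h x && h' x) := by
  by_cases hc : ∀ x ∈ Y, ∀ y ∈ Y, (h x && h' x) = (h y && h' y)
  · exact Or.inl hc
  · have hc2 : ∃ x ∈ Y, ∃ y ∈ Y, (h x && h' x) ≠ (h y && h' y) := by
      push Not at hc
      exact hc
    have hT : ∃ x ∈ Y, h x = true ∧ h' x = true := by
      obtain ⟨x, hx, y, hy, hxy⟩ := hc2
      by_cases h1 : (h x && h' x) = true
      · exact ⟨x, hx, by simpa using h1⟩
      · have h2 : (h x && h' x) = false := by simpa using h1
        rw [h2] at hxy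
        have h3 : (h y && h' y) = true := by
          cases h4 : (h y && h' y) with
          | true => rfl
          | false => exact absurd h4.symm hxy
        exact ⟨y, hy, by simpa using h3⟩
    obtain ⟨x₀, hx₀, e1, e2⟩ := hT
    rcases H with H | H
    · refine congr H' ?_
      intro x hx
      have : h x = true := by rw [H x hx x₀ hx₀, e1]
      simp [this]
    · rcases H' with H' | H'
      · refine congr (Or.inr H) ?_
        intro x hx
        have : h' x = true := by rw [H' x hx x₀ hx₀, e2]
        simp [this]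
      · exact Or.inr (hK X S hS Y h h' H H' hc2)

theorem interAll {𝔅 : Str σ (Word c)} (hK : KP 𝔅) {X : Type} [Finite X]
    {S : (X → Word c) → Prop} {Y : Set X} (hS : PP 𝔅 S) (T : Set (X → Bool))
    (hT : ∀ g ∈ T, Pat S Y g) : Pat S Y (fun z => decide (∀ g ∈ T, g z = true)) := by
  have hfin : T.Finite := Set.toFinite T
  revert hT
  refine Set.Finite.induction_on T hfin ?_ ?_
  · intro _
    left
    intro x _ y _
    simp
  · intro g T' _ _ ih hT
    have h1 := ih (fun g' hg' => hT g' (Set.mem_insert_of_mem _ hg'))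
    have h2 := hT g (Set.mem_insert _ _)
    refine congr (inter hK hS h2 h1) ?_
    intro x _
    simp [Set.mem_insert_iff]

theorem unionAll {𝔅 : Str σ (Word c)} (hK : KP 𝔅) {X : Type} [Finite X]
    {S : (X → Word c) → Prop} {Y : Set X} (hS : PP 𝔅 S) (T : Set (X → Bool))
    (hT : ∀ g ∈ T, Pat S Y g) : Pat S Y (fun z => decide (∃ g ∈ T, g z = true)) := by
  have h1 := compl (interAll hK hS {g | (fun x => !g x) ∈ T} (by
    intro g hg
    have h2 := compl (hT _ hg)
    refine congr h2 ?_
    intro x _
    simp))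
  refine congr h1 ?_
  intro x _
  by_cases he : ∃ g ∈ T, g x = true
  · obtain ⟨g, hg, hgx⟩ := he
    have hn : ¬ ∀ g' ∈ {g : X → Bool | (fun x => !g x) ∈ T}, g' x = true := by
      intro h
      have := h (fun x => !g x) (by simpa using hg)
      simp [hgx] at this
    have he : ∃ g ∈ T, g x = true := ⟨g, hg, hgx⟩
    simp only [hn, he, decide_true, decide_false, Bool.not_false]
  · have hn : ∀ g' ∈ {g : X → Bool | (fun x => !g x) ∈ T}, g' x = true := by
      intro g' hg'
      by_contra h
      apply he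
      exact ⟨_, hg', by simpa using h⟩
    simp only [he, decide_false]
    rw [decide_eq_true (p := ∀ g' ∈ {g : X → Bool | (fun x => !g x) ∈ T}, g' x = true) hn]
    rfl

end XBAL

open XBAL in
theorem BAL_pf : S_BAL := by
  intro c σ 𝔅 hK X _ S Y hS
  refine ⟨fun h H => compl H, fun h h' H H' => inter hK hS H H', ?_⟩
  intro h hn
  by_contra hcon
  apply hn
  have hsep : ∀ x ∈ Y, ∀ y ∈ Y, h x ≠ h y → ∃ g, Pat S Y g ∧ g x = true ∧ g y = false := by
    intro x hx y hy hxy
    by_contra h1
    apply hcon
    refine ⟨x, hx, y, hy, hxy, ?_⟩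
    intro g hg
    by_contra h2
    apply h1
    cases hgx : g x with
    | true =>
      refine ⟨g, hg, hgx, ?_⟩
      cases hgy : g y with
      | false => rfl
      | true => exact absurd (hgx.trans hgy.symm) h2
    | false =>
      refine ⟨fun z => !g z, compl hg, by simp [hgx], ?_⟩
      cases hgy : g y with
      | true => simp [hgy]
      | false => exact absurd (hgx.trans hgy.symm) h2
  let G : X → X → Bool := fun x z => decide (∀ g ∈ {g | Pat S Y g ∧ g x = true}, g z = true)
  have hG : ∀ x, Pat S Y (G x) := fun x =>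
    interAll hK hS {g | Pat S Y g ∧ g x = true} (fun g hg => hg.1)
  have hU := unionAll hK hS {g | ∃ x ∈ Y, h x = true ∧ g = G x} (by
    rintro g ⟨x, _, _, rfl⟩
    exact hG x)
  refine congr hU ?_
  intro z hz
  cases hhz : h z with
  | true =>
    have : ∃ g ∈ {g | ∃ x ∈ Y, h x = true ∧ g = G x}, g z = true := by
      refine ⟨G z, ⟨z, hz, hhz, rfl⟩, ?_⟩
      simp only [G, decide_eq_true_eq]
      intro g hg
      exact hg.2
    exact decide_eq_true this
  | false =>
    have : ¬ ∃ g ∈ {g | ∃ x ∈ Y, h x = true ∧ g = G x}, g z = true := by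
      rintro ⟨g, ⟨x, hx, hhx, rfl⟩, hgz⟩
      obtain ⟨g', hg', h1, h2⟩ := hsep x hx z hz (by rw [hhx, hhz]; simp)
      simp only [G, decide_eq_true_eq] at hgz
      have := hgz g' ⟨hg', h1⟩
      rw [h2] at this
      exact absurd this (by simp)
    exact decide_eq_false this

end Pool.Agent.Work.MP_8dbde4_lc.Phy
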