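import Pool.Agent.Work.MP_8dbde4_lc.Phy.Stmts

set_option autoImplicit false

open Classical

namespace Pool.Agent.Work.MP_8dbde4_lc.Phy

open Pool.Agent.Work.MP_8dbde4_lc.TS Pool.Agent.Work.MP_8dbde4_lc.Tree

/-- existence of local tuples -/
theorem EXI_pf (h1 : S_FSX) (h2 : S_JOI) : S_EXI := by
  intro c X _ S A hS
  obtain ⟨w0, hw0⟩ := hS
  induction hn : A.ncard using Nat.strong_induction_on generalizing A with
  | _ n ih =>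
  intro hA
  by_cases htwo : ∃ x ∈ A, ∃ y ∈ A, x ≠ y
  swap
  · refine ⟨w0, fun Y' hY' ⟨x, hx, y, hy, hxy⟩ => ?_⟩
    exact absurd ⟨x, hY' hx, y, hY' hy, hxy⟩ htwo
  obtain ⟨x, hx, y, hy, hxy⟩ := htwo
  obtain ⟨w, hw, hwxy⟩ := hA x hx y hy hxy
  obtain ⟨h, hh⟩ := (h1 c X A w).1 ⟨x, hx, y, hy, hwxy⟩
  obtain ⟨⟨a, ha, b, hb, hab⟩, -⟩ := id hh
  have hfin : A.Finite := Set.toFinite A
  have hlt : ∀ e : Bool, ({x | x ∈ A ∧ h x = e} : Set X).ncard < n := by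
    intro e
    rw [← hn]
    refine Set.ncard_lt_ncard ⟨fun z hz => hz.1, ?_⟩ hfin
    intro hsub
    have h3 := (hsub ha).2
    have h4 := (hsub hb).2
    exact hab (h3.trans h4.symm)
  obtain ⟨u0, hu0⟩ := ih _ (hlt false) {x | x ∈ A ∧ h x = false} rfl
    (fun x hx y hy hxy => hA x hx.1 y hy.1 hxy)
  obtain ⟨u1, hu1⟩ := ih _ (hlt true) {x | x ∈ A ∧ h x = true} rfl
    (fun x hx y hy hxy => hA x hx.1 y hy.1 hxy)
  obtain ⟨u, hu, hs0, hs1⟩ := h2 c X u0 u1 h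
  refine ⟨u, ?_⟩
  intro Y' hY' htwo'
  by_cases hc : ∃ x ∈ Y', ∃ y ∈ Y', h x ≠ h y
  · exact ⟨w, hw, h, ⟨hc, fun x _ y _ z _ h3 h4 => hu x y z h3 h4⟩, hh.mono hY' hc⟩
  · have hc' : ∀ x ∈ Y', ∀ y ∈ Y', h x = h y := by
      intro x hx y hy
      by_contra h3
      exact hc ⟨x, hx, y, hy, h3⟩
    obtain ⟨x1, hx1, y1, hy1, hxy1⟩ := htwo'
    cases hb1 : h x1 with
    | false =>
      have hY0 : Y' ⊆ {x | x ∈ A ∧ h x = false} := fun z hz =>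
        ⟨hY' hz, (hc' z hz x1 hx1).trans hb1⟩
      obtain ⟨w', hw', h', h5, h6⟩ := hu0 Y' hY0 ⟨x1, hx1, y1, hy1, hxy1⟩
      exact ⟨w', hw', h', h5.transfer (hs0.mono (fun z hz => (hY0 hz).2)), h6⟩
    | true =>
      have hY0 : Y' ⊆ {x | x ∈ A ∧ h x = true} := fun z hz =>
        ⟨hY' hz, (hc' z hz x1 hx1).trans hb1⟩
      obtain ⟨w', hw', h', h5, h6⟩ := hu1 Y' hY0 ⟨x1, hx1, y1, hy1, hxy1⟩
      exact ⟨w', hw', h', h5.transfer (hs1.mono (fun z hz => (hY0 hz).2)), h6⟩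

end Pool.Agent.Work.MP_8dbde4_lc.Phy
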