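import Pool.Agent.Work.MP_8dbde4_lc.Phy.Stmts2
import Pool.Agent.Work.MP_8dbde4_lc.Tree.I_FB

/-!
Block Phy of MP_8dbde4_lc, item FBC: finite boundedness of the expansion by the split relation.
-/

set_option autoImplicit false
open Classical

namespace Pool.Agent.Work.MP_8dbde4_lc.Phy

open Pool.Agent.Work.MP_8dbde4_lc.TS Pool.Agent.Work.MP_8dbde4_lc.Tree

namespace XFBC

open Pool.Agent.Work.MP_8dbde4_lc.Tree.XFB

variable {c : ℚ → Bool} {B : Type}

/-- `g` is an embedding on `S` for the splits. -/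
def GE (rC : B → B → B → Prop) (S : Finset B) (g : B → Word c) : Prop :=
  (∀ x ∈ S, ∀ y ∈ S, g x = g y → x = y) ∧
  ∀ x ∈ S, ∀ y ∈ S, ∀ z ∈ S, rC x y z ↔ Cc (g x) (g y) (g z)

/-- If nothing splits off from `x` before `y`, all words agree with `x` below the split. -/
theorem agr_of {rC : B → B → B → Prop} {S : Finset B}
    {g : B → Word c} (hg : GE rC S g) {x y z : B} (hx : x ∈ S) (hy : y ∈ S) (hz : z ∈ S)
    (hmin : z ≠ x → ¬ rC z x y) {q : ℚ} (hq : Agr (g x) (g y) q) : Agr (g x) (g z) q := by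
  by_cases hzx : z = x
  · subst hzx
    exact fun _ _ => rfl
  · have h1 := hmin hzx
    rw [hg.2 z hz x hx y hy] at h1
    obtain ⟨s, hs, hs'⟩ := exists_split (u := g z) (v := g x) (fun h => hzx (hg.1 z hz x hx h))
    intro q' hq'
    by_contra hne
    have hlt : s ≤ q' := by
      by_contra hc
      exact hne ((hs q' (not_le.1 hc)).symm)
    exact h1 ⟨s, hs, fun r hr => (hs r hr).trans (hq r ((hr.trans_le hlt).trans hq')),
      hq s (hlt.trans_lt hq'), hs'⟩

/-- The letter of a third word at the split. -/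
theorem letter_iff {u v w : Word c} {p : ℚ} (h1 : Agr u v p) (h2 : u.1 p ≠ v.1 p)
    (h3 : Agr u w p) : Cc v u w ↔ u.1 p = w.1 p := by
  have h4 : Agr v w p := fun q hq => ((h1 q hq).symm).trans (h3 q hq)
  rw [cc_at (agr_symm h1) h4 (fun h => h2 h.1.symm)]
  exact and_iff_left (fun h => h2 h.symm)

theorem bool_eq_of {a b z w : Bool} (hab : a ≠ b) :
    z = w ↔ ((a = z) ↔ (a = w)) := by
  cases a <;> cases b <;> cases z <;> cases w <;> simp_all

theorem main (c : ℚ → Bool) (rC : B → B → B → Prop)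
    (H : ∀ S : Finset B, S.card ≤ 5 → ∃ g : B → Word c, GE rC S g) :
    ∀ (n : ℕ) (W : Finset B), W.card = n → ∀ q₀ : ℚ, ∃ e : B → Word c, GE rC W e ∧
      ∀ x ∈ W, ∀ q < q₀, (e x).1 q = c q := by
  intro n
  induction n using Nat.strong_induction_on with
  | _ n ih =>
  intro W hWn q₀
  by_cases hW : ∃ x ∈ W, ∃ y ∈ W, x ≠ y
  · obtain ⟨x, hx, y₀, hy₀, hxy₀⟩ := hW
    -- the choice of `y`
    obtain ⟨y, hy, hyx, hmin⟩ : ∃ y ∈ W, y ≠ x ∧ ∀ z ∈ W, z ≠ x → ¬ rC z x y := by
      let V := {v : B // v ∈ W ∧ v ≠ x}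
      let r : V → V → Prop := fun v' v => rC v'.1 x v.1
      have : Finite V := Finite.of_injective (fun v : V => (⟨v.1, v.2.1⟩ : {v // v ∈ W}))
        (fun a b h => Subtype.ext (congrArg (fun t : {v // v ∈ W} => t.1) h))
      have : Std.Irrefl r := ⟨fun v hv => by
        obtain ⟨g, hg⟩ := H {x, v.1} ((Finset.card_le_two).trans (by norm_num))
        have h1 := (hg.2 v.1 (by simp) x (by simp) v.1 (by simp)).1 hv
        exact not_cc_self _ _ h1⟩
      have : IsTrans V r := ⟨fun a b d hab hbd => by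
        obtain ⟨g, hg⟩ := H {x, a.1, b.1, d.1} ((Finset.card_le_four).trans (by norm_num))
        have h1 := (hg.2 a.1 (by simp) x (by simp) b.1 (by simp)).1 hab
        have h2 := (hg.2 b.1 (by simp) x (by simp) d.1 (by simp)).1 hbd
        exact (hg.2 a.1 (by simp) x (by simp) d.1 (by simp)).2 (cc_trans h1 h2)⟩
      have hwf : WellFounded r := Finite.wellFounded_of_trans_of_irrefl r
      obtain ⟨m, -, hm⟩ := hwf.has_min Set.univ ⟨⟨y₀, hy₀, fun h => hxy₀ h.symm⟩, trivial⟩
      exact ⟨m.1, m.2.1, m.2.2, fun z hz hzx h => hm ⟨z, hz, hzx⟩ trivial h⟩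
    -- the letters
    let h : B → Bool := fun z => decide (rC y x z)
    have hh : ∀ z ∈ W, ∀ (S : Finset B) (g : B → Word c), GE rC S g → x ∈ S →
        y ∈ S → z ∈ S → ∀ q, Agr (g x) (g y) q → (g x).1 q ≠ (g y).1 q →
        (h z = true ↔ (g x).1 q = (g z).1 q) := by
      intro z hz S g hg hxS hyS hzS q hq hq'
      have h1 := letter_iff hq hq' (agr_of hg hxS hyS hzS (hmin z hz) hq)
      rw [← h1, ← hg.2 y hyS x hxS z hzS]
      exact decide_eq_true_iff
    have hhw : ∀ z ∈ W, ∀ w ∈ W, ∀ (S : Finset B) (g : B → Word c), GE rC S g → x ∈ S →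
        y ∈ S → z ∈ S → w ∈ S → ∀ q, Agr (g x) (g y) q → (g x).1 q ≠ (g y).1 q →
        ((g z).1 q = (g w).1 q ↔ h z = h w) := by
      intro z hz w hw S g hg hxS hyS hzS hwS q hq hq'
      rw [bool_eq_of hq', ← hh z hz S g hg hxS hyS hzS q hq hq',
        ← hh w hw S g hg hxS hyS hwS q hq hq']
      exact Bool.eq_iff_iff.symm
    have hhxy : h x ≠ h y := by
      obtain ⟨g, hg⟩ := H {x, y} ((Finset.card_le_two).trans (by norm_num))
      obtain ⟨p, hp, hp'⟩ := exists_split (u := g x) (v := g y)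
        (fun h => hyx (hg.1 x (by simp) y (by simp) h).symm)
      intro h1
      exact hp' ((hhw x hx y hy {x, y} g hg (by simp) (by simp) (by simp) (by simp) p hp hp').2 h1)
    have hlt : ∀ a : Bool, (W.filter (fun z => h z = a)).card < n := by
      intro a
      rw [← hWn]
      refine Finset.card_lt_card (Finset.filter_ssubset.2 ?_)
      by_cases hxa : h x = a
      · exact ⟨y, hy, fun hya => hhxy (hxa.trans hya.symm)⟩
      · exact ⟨x, hx, hxa⟩
    choose ea hea hea0 using fun a : Bool => ih _ (hlt a) (W.filter (fun z => h z = a)) rfl (q₀ + 1)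
    have hmem : ∀ z ∈ W, z ∈ W.filter (fun z' => h z' = h z) := fun z hz =>
      Finset.mem_filter.2 ⟨hz, rfl⟩
    let e : B → Word c := fun z => up (ea (h z) z) q₀ (h z)
    have he0 : ∀ z, (e z).1 q₀ = h z := fun z => up_same _ _ _
    have hec : ∀ z ∈ W, ∀ q < q₀, (e z).1 q = c q := by
      intro z hz q hq
      show (up (ea (h z) z) q₀ (h z)).1 q = c q
      rw [up_ne _ _ hq.ne]
      exact hea0 (h z) z (hmem z hz) q (hq.trans (lt_add_one q₀))
    have hea1 : ∀ (a : Bool), ∀ z ∈ W.filter (fun z' => h z' = a), (ea a z).1 q₀ = c q₀ :=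
      fun a z hz => hea0 a z hz q₀ (lt_add_one q₀)
    have hagr : ∀ z ∈ W, ∀ w ∈ W, Agr (e z) (e w) q₀ := fun z hz w hw q hq =>
      (hec z hz q hq).trans (hec w hw q hq).symm
    -- the embedding of five elements
    have hfive : ∀ z ∈ W, ∀ w ∈ W, ∀ u ∈ W, ∃ (S : Finset B) (g : B → Word c) (p : ℚ),
        GE rC S g ∧ z ∈ S ∧ w ∈ S ∧ u ∈ S ∧ Agr (g z) (g w) p ∧ Agr (g z) (g u) p ∧
        ((g z).1 p = (g w).1 p ↔ h z = h w) ∧ ((g z).1 p = (g u).1 p ↔ h z = h u) ∧
        ((g w).1 p = (g u).1 p ↔ h w = h u) := by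
      intro z hz w hw u hu
      obtain ⟨g, hg⟩ := H {x, y, z, w, u} Finset.card_le_five
      obtain ⟨p, hp, hp'⟩ := exists_split (u := g x) (v := g y)
        (fun h => hyx (hg.1 x (by simp) y (by simp) h).symm)
      have az := agr_of hg (x := x) (y := y) (z := z) (by simp) (by simp) (by simp) (hmin z hz) hp
      have aw := agr_of hg (x := x) (y := y) (z := w) (by simp) (by simp) (by simp) (hmin w hw) hp
      have au := agr_of hg (x := x) (y := y) (z := u) (by simp) (by simp) (by simp) (hmin u hu) hp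
      exact ⟨{x, y, z, w, u}, g, p, hg, by simp, by simp, by simp,
        fun q hq => ((az q hq).symm).trans (aw q hq), fun q hq => ((az q hq).symm).trans (au q hq),
        hhw z hz w hw _ g hg (by simp) (by simp) (by simp) (by simp) p hp hp',
        hhw z hz u hu _ g hg (by simp) (by simp) (by simp) (by simp) p hp hp',
        hhw w hw u hu _ g hg (by simp) (by simp) (by simp) (by simp) p hp hp'⟩
    refine ⟨e, ⟨?_, ?_⟩, hec⟩
    · intro z hz w hw hzw
      have h1 : h z = h w := by rw [← he0 z, ← he0 w, hzw]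
      have h2 : ea (h z) z = ea (h z) w := by
        refine Subtype.ext (funext fun q => ?_)
        by_cases hq : q = q₀
        · rw [hq, hea1 _ z (hmem z hz), hea1 _ w (Finset.mem_filter.2 ⟨hw, h1.symm⟩)]
        · have h3 : (e z).1 q = (e w).1 q := by rw [hzw]
          have h4 : (e z).1 q = (ea (h z) z).1 q := up_ne _ _ hq
          have h5 : (e w).1 q = (ea (h w) w).1 q := up_ne _ _ hq
          rw [h4, h5, ← h1] at h3
          exact h3
      exact (hea (h z)).1 z (hmem z hz) w (Finset.mem_filter.2 ⟨hw, h1.symm⟩) h2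
    · intro z hz w hw u hu
      by_cases h1 : h z = h w ∧ h z = h u
      · have hw' : w ∈ W.filter (fun z' => h z' = h z) := Finset.mem_filter.2 ⟨hw, h1.1.symm⟩
        have hu' : u ∈ W.filter (fun z' => h z' = h z) := Finset.mem_filter.2 ⟨hu, h1.2.symm⟩
        rw [(hea (h z)).2 z (hmem z hz) w hw' u hu']
        have h2 : e w = up (ea (h z) w) q₀ (h z) := by
          show up (ea (h w) w) q₀ (h w) = _
          rw [h1.1]
        have h3 : e u = up (ea (h z) u) q₀ (h z) := by
          show up (ea (h u) u) q₀ (h u) = _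
          rw [h1.2]
        rw [h2, h3]
        exact (cc_up (by rw [hea1 _ z (hmem z hz), hea1 _ w hw'])
          (by rw [hea1 _ z (hmem z hz), hea1 _ u hu']) _).symm
      · obtain ⟨S, g, p, hg, zS, wS, uS, a1, a2, l1, l2, l3⟩ := hfive z hz w hw u hu
        rw [hg.2 z zS w wS u uS, cc_at a1 a2 (by rw [l1, l2]; exact h1),
          cc_at (hagr z hz w hw) (hagr z hz u hu) (by rw [he0, he0, he0]; exact h1),
          he0, he0, he0, Ne, l1, l3]
  · push Not at hW
    refine ⟨fun _ => ⟨c, by simp⟩, ⟨fun x hx y hy _ => hW x hx y hy, ?_⟩, fun _ _ _ _ => rfl⟩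
    intro z hz w hw u hu
    have h1 := hW z hz w hw
    have h2 := hW z hz u hu
    subst h1
    subst h2
    obtain ⟨g, hg⟩ := H {z} (by simp)
    rw [hg.2 z (by simp) z (by simp) z (by simp)]
    exact iff_of_false (not_cc_self _ _) (not_cc_self _ _)

end XFBC

open XFBC

theorem FBC_pf : S_FBC := by
  intro c σ 𝔅 hI
  let τ := ssum σ (sg 3)
  let 𝔄 : Str τ (Word c) := Bc 𝔅
  let n : ℕ := 5 + ∑ R : σ.S, σ.ar R
  refine ⟨{X | X.1 ≤ n ∧ ¬ ∃ e, Emb X.2 𝔄 e}, XFB.finite_set τ n _, ?_⟩
  intro B _ 𝔇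
  constructor
  · rintro ⟨e, he⟩ X ⟨_, hX⟩ ⟨f, hf⟩
    exact hX ⟨fun x => e (f x), he.1.comp hf.1, fun R t => (hf.2 R t).trans (he.2 R _)⟩
  · intro hX
    -- local embeddings
    have hloc : ∀ S : Finset B, S.card ≤ n → ∃ g : B → Word c,
        (∀ x ∈ S, ∀ y ∈ S, g x = g y → x = y) ∧
        ∀ (R : τ.S) (t : Fin (τ.ar R) → B), (∀ j, t j ∈ S) →
          (𝔇.rel R t ↔ 𝔄.rel R (fun j => g (t j))) := by
      intro S hS
      let X : Σ m : ℕ, Str τ (Fin m) := ⟨S.card, ⟨fun R t => 𝔇.rel R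
        (fun j => ((S.equivFin.symm (t j) : S) : B))⟩⟩
      have h1 : ∃ e, Emb X.2 𝔄 e := by
        by_contra hcon
        refine hX X ⟨hS, hcon⟩ ⟨fun i => ((S.equivFin.symm i : S) : B), ?_, fun R t => Iff.rfl⟩
        intro i j hij
        exact S.equivFin.symm.injective (Subtype.ext hij)
      obtain ⟨e, he⟩ := h1
      refine ⟨fun b => if hb : b ∈ S then e (S.equivFin ⟨b, hb⟩) else ⟨c, by simp⟩, ?_, ?_⟩
      · intro x hx y hy hxy
        simp only [dif_pos hx, dif_pos hy] at hxy
        have h2 := S.equivFin.injective (he.1 hxy)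
        exact congrArg Subtype.val h2
      · intro R t ht
        have h2 := he.2 R (fun j => S.equivFin ⟨t j, ht j⟩)
        have h3 : (fun j => if hb : t j ∈ S then e (S.equivFin ⟨t j, hb⟩) else ⟨c, by simp⟩) =
            fun j => e (S.equivFin ⟨t j, ht j⟩) := by
          funext j
          rw [dif_pos (ht j)]
        rw [h3, ← h2]
        show 𝔇.rel R t ↔ 𝔇.rel R (fun j => ((S.equivFin.symm (S.equivFin ⟨t j, ht j⟩) : S) : B))
        simp only [Equiv.symm_apply_apply]
    let C0 : τ.S := Sum.inr (() : Unit)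
    let rC : B → B → B → Prop := fun x y z => 𝔇.rel C0 (![x, y, z] : Fin 3 → B)
    have hGE : ∀ (S : Finset B) (g : B → Word c), (∀ x ∈ S, ∀ y ∈ S, g x = g y → x = y) →
        (∀ (R : τ.S) (t : Fin (τ.ar R) → B), (∀ j, t j ∈ S) →
          (𝔇.rel R t ↔ 𝔄.rel R (fun j => g (t j)))) → GE rC S g := by
      intro S g h1 h2
      refine ⟨h1, ?_⟩
      intro x hx y hy z hz
      have h3 := h2 C0 (![x, y, z] : Fin 3 → B) (by
        intro j
        change Fin 3 at j
        fin_cases j
        · exact hx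
        · exact hy
        · exact hz)
      exact h3
    have H : ∀ S : Finset B, S.card ≤ 5 → ∃ g : B → Word c, GE rC S g := by
      intro S hS
      obtain ⟨g, h1, h2⟩ := hloc S (hS.trans (Nat.le_add_right _ _))
      exact ⟨g, hGE S g h1 h2⟩
    have := Fintype.ofFinite B
    obtain ⟨e, he, -⟩ := main c rC H _ Finset.univ rfl 0
    have hmu : ∀ x : B, x ∈ (Finset.univ : Finset B) := Finset.mem_univ
    refine ⟨e, fun x y hxy => he.1 x (hmu x) y (hmu y) hxy, ?_⟩
    intro R t
    match R, t with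
    | Sum.inr R, t =>
      have h1 := he.2 (t (0 : Fin 3)) (hmu _) (t (1 : Fin 3)) (hmu _) (t (2 : Fin 3)) (hmu _)
      have h2 : (![t (0 : Fin 3), t (1 : Fin 3), t (2 : Fin 3)] : Fin 3 → B) = t := by
        funext j
        fin_cases j <;> rfl
      have h3 : rC (t (0 : Fin 3)) (t (1 : Fin 3)) (t (2 : Fin 3)) ↔
          𝔇.rel (Sum.inr R) t := by
        show 𝔇.rel (Sum.inr R)
          (![t (0 : Fin 3), t (1 : Fin 3), t (2 : Fin 3)] : Fin 3 → B) ↔ _
        rw [h2]
      exact h3.symm.trans h1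
    | Sum.inl R, t =>
      let S : Finset B := Finset.univ.image t
      have hS : S.card ≤ n := by
        refine Finset.card_image_le.trans ?_
        rw [Finset.card_univ]
        have h1 : Fintype.card (Fin (τ.ar (Sum.inl R))) = σ.ar R := Fintype.card_fin _
        rw [h1]
        exact (Finset.single_le_sum (f := fun R : σ.S => σ.ar R) (fun _ _ => Nat.zero_le _)
          (Finset.mem_univ R)).trans (Nat.le_add_left _ _)
      obtain ⟨g, h1, h2⟩ := hloc S hS
      have hg := hGE S g h1 h2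
      have htS : ∀ j, t j ∈ S := fun j => Finset.mem_image_of_mem t (Finset.mem_univ j)
      have hsame : SameOn (c := c) (X := Fin (σ.ar R)) Set.univ (fun j => g (t j))
          (fun j => e (t j)) := by
        refine ⟨fun i _ j _ => ?_, fun i _ j _ k _ => ?_⟩
        · constructor
          · intro h
            exact congrArg e (h1 _ (htS i) _ (htS j) h)
          · intro h
            exact congrArg g (he.1 _ (hmu _) _ (hmu _) h)
        · rw [← hg.2 _ (htS k) _ (htS i) _ (htS j), ← he.2 _ (hmu _) _ (hmu _) _ (hmu _)]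
      rw [h2 (Sum.inl R) t htS]
      exact ⟨hI R _ _ hsame, hI R _ _ hsame.symm⟩

end Pool.Agent.Work.MP_8dbde4_lc.Phy
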