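import Pool.Agent.Work.MP_8dbde4_lc.Phy.Stmts

set_option autoImplicit false
open Classical

namespace Pool.Agent.Work.MP_8dbde4_lc.Phy

open Pool.Agent.Work.MP_8dbde4_lc.TS Pool.Agent.Work.MP_8dbde4_lc.Tree

namespace XGDG

variable {c : ℚ → Bool} {σ : Sig}

theorem not_cc_self (u x : Word c) : ¬ Cc u u x := by
  rintro ⟨q, _, _, h1, h2⟩
  exact h2 rfl

theorem cc_ne {z x y : Word c} (h : Cc z x y) : z ≠ x := by
  obtain ⟨q, _, _, _, h4⟩ := h
  intro h5
  exact h4 (by rw [h5])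

/-- push forward of a split -/
theorem spl_push {X X' : Type} {Y : Set X} {v : X → Word c} {h : X → Bool} (H : Spl Y v h)
    (f : X → X') (V : X' → Word c) (H' : X' → Bool) (hV : ∀ x ∈ Y, V (f x) = v x)
    (hH : ∀ x ∈ Y, H' (f x) = h x) : Spl (f '' Y) V H' := by
  obtain ⟨⟨x, hx, y, hy, hxy⟩, H2⟩ := H
  refine ⟨⟨f x, ⟨x, hx, rfl⟩, f y, ⟨y, hy, rfl⟩, by rw [hH x hx, hH y hy]; exact hxy⟩, ?_⟩
  rintro _ ⟨a, ha, rfl⟩ _ ⟨b, hb, rfl⟩ _ ⟨d, hd, rfl⟩ h1 h2
  rw [hH a ha, hH b hb] at h1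
  rw [hH d hd, hH a ha] at h2
  rw [hV a ha, hV b hb, hV d hd]
  exact H2 a ha b hb d hd h1 h2

/-- pull back of a split -/
theorem spl_pull {X X' : Type} {Y : Set X} {v : X → Word c} {h : X → Bool} (H : Spl Y v h)
    (f : X' → X) (Y' : Set X') (hY : ∀ x ∈ Y', f x ∈ Y)
    (hn : ∃ x ∈ Y', ∃ y ∈ Y', h (f x) ≠ h (f y)) :
    Spl Y' (fun x => v (f x)) (fun x => h (f x)) :=
  ⟨hn, fun x hx y hy z hz h1 h2 => H.2 (f x) (hY x hx) (f y) (hY y hy) (f z) (hY z hz) h1 h2⟩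

/-- on sets with at most one element all the tuples are the same -/
theorem same_single {X : Type} {Y : Set X} (v w : X → Word c)
    (h : ∀ x ∈ Y, ∀ y ∈ Y, x = y) : SameOn Y v w := by
  refine ⟨?_, ?_⟩
  · intro x hx y hy
    rw [h x hx y hy]
    simp
  · intro x hx y hy z hz
    rw [h z hz x hx, h y hy x hx]
    constructor
    · intro h1
      exact absurd h1 (not_cc_self _ _)
    · intro h1
      exact absurd h1 (not_cc_self _ _)

/-- the points of `B` split off from the pairs of points of `A` -/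
def Sep {X : Type} (w : X → Word c) (A B : Set X) : Prop :=
  ∀ y ∈ A, ∀ y' ∈ A, ∀ z ∈ B, Cc (w z) (w y) (w y')

theorem sep_of {X : Type} {Y A B : Set X} {w : X → Word c} {h : X → Bool} (H : Spl Y w h)
    (hA : A ⊆ Y) (hB : B ⊆ Y) (e : Bool) (h1 : ∀ x ∈ A, h x = e) (h2 : ∀ x ∈ B, h x = !e) :
    Sep w A B := by
  intro y hy y' hy' z hz
  refine H.2 y (hA hy) y' (hA hy') z (hB hz) ?_ ?_
  · rw [h1 y hy, h1 y' hy']
  · rw [h1 y hy, h2 z hz]
    cases e <;> simp

theorem shape {X : Type} {w : X → Word c} {B₁ B₂ B₃ : Set X} (d1 : Disjoint B₁ B₂)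
    (d2 : Disjoint (B₁ ∪ B₂) B₃)
    (H1 : Spl (B₁ ∪ B₂ ∪ B₃) w (fun x => decide (x ∈ B₃)))
    (H2 : Spl (B₁ ∪ B₂) w (fun x => decide (x ∈ B₁))) :
    Sep w B₁ B₂ ∧ Sep w B₂ B₁ ∧ Sep w B₁ B₃ ∧ Sep w B₃ B₁ ∧ Sep w B₂ B₃ ∧ Sep w B₃ B₂ := by
  have n12 : ∀ x ∈ B₂, x ∉ B₁ := fun x hx hx' => Set.disjoint_left.1 d1 hx' hx
  have n13 : ∀ x ∈ B₁, x ∉ B₃ := fun x hx hx' =>
    Set.disjoint_left.1 d2 (Set.mem_union_left _ hx) hx'
  have n23 : ∀ x ∈ B₂, x ∉ B₃ := fun x hx hx' =>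
    Set.disjoint_left.1 d2 (Set.mem_union_right _ hx) hx'
  have s1 : B₁ ⊆ B₁ ∪ B₂ ∪ B₃ := fun x hx => Or.inl (Or.inl hx)
  have s2 : B₂ ⊆ B₁ ∪ B₂ ∪ B₃ := fun x hx => Or.inl (Or.inr hx)
  have s3 : B₃ ⊆ B₁ ∪ B₂ ∪ B₃ := fun x hx => Or.inr hx
  have t1 : B₁ ⊆ B₁ ∪ B₂ := fun x hx => Or.inl hx
  have t2 : B₂ ⊆ B₁ ∪ B₂ := fun x hx => Or.inr hx
  refine ⟨?_, ?_, ?_, ?_, ?_, ?_⟩
  · exact sep_of H2 t1 t2 true (fun x hx => by simp [hx]) (fun x hx => by simp [n12 x hx])
  · exact sep_of H2 t2 t1 false (fun x hx => by simp [n12 x hx]) (fun x hx => by simp [hx])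
  · exact sep_of H1 s1 s3 false (fun x hx => by simp [n13 x hx]) (fun x hx => by simp [hx])
  · exact sep_of H1 s3 s1 true (fun x hx => by simp [hx]) (fun x hx => by simp [n13 x hx])
  · exact sep_of H1 s2 s3 false (fun x hx => by simp [n23 x hx]) (fun x hx => by simp [hx])
  · exact sep_of H1 s3 s2 true (fun x hx => by simp [hx]) (fun x hx => by simp [n23 x hx])

/-- the transposition of 1 and 2 -/
def io (k : Fin 3) : Fin 3 := ![0, 2, 1] k

theorem io_io (k : Fin 3) : io (io k) = k := by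
  fin_cases k <;> rfl

theorem io_ne {k l : Fin 3} (h : k ≠ l) : io k ≠ io l := by
  intro h1
  apply h
  rw [← io_io k, ← io_io l, h1]

/-- two triples of the same shape -/
theorem tri (h0 : S_GLU) (v w : Fin 3 → Word c)
    (h1 : Spl Set.univ v (fun m => decide (m = 1)))
    (h2 : Spl Set.univ w (fun m => decide (m = 1)))
    (h3 : Spl {m | m ≠ 1} v (fun m => decide (m = 0)))
    (h4 : Spl {m | m ≠ 1} w (fun m => decide (m = 0))) : SameOn Set.univ v w := by
  refine h0 c _ _ v w _ h1 h2 ?_ ?_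
  · have h5 : SameOn {m : Fin 3 | m ≠ 1} v w := by
      refine h0 c _ _ v w _ h3 h4 ?_ ?_
      · apply same_single
        rintro x ⟨hx, hx'⟩ y ⟨hy, hy'⟩
        simp at hx hx' hy hy'
        have h6 : ∀ m : Fin 3, ¬ m = 1 → ¬ m = 0 → m = 2 := by decide
        rw [h6 x hx hx', h6 y hy hy']
      · apply same_single
        rintro x ⟨hx, hx'⟩ y ⟨hy, hy'⟩
        simp at hx hx' hy hy'
        rw [hx', hy']
    exact h5.mono (fun m hm => by simpa using hm.2)
  · apply same_single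
    rintro x ⟨hx, hx'⟩ y ⟨hy, hy'⟩
    simp at hx' hy'
    rw [hx', hy']

/-- the split of the block points follows the split of the guards -/
theorem follow (h0 : S_PLC) {X : Type} {Y : Set X} (z : Fin 3 → Word c) (h : Fin 3 → Bool)
    (hz : Spl Set.univ z h) (w : X → Word c) (κ : X → Fin 3)
    (hw : ∀ x ∈ Y, ∀ l, l ≠ κ x → Cc (z l) (w x) (z (κ x)))
    (hn : ∃ x ∈ Y, ∃ y ∈ Y, h (κ x) ≠ h (κ y)) : Spl Y w (fun x => h (κ x)) := by
  obtain ⟨⟨a, -, b, -, hab⟩, p, hp1, hp2⟩ := (h0 c _ _ z h).1 hz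
  have key : ∀ x ∈ Y, Agr (w x) (z (κ x)) p ∧ (w x).1 p = (z (κ x)).1 p := by
    intro x hx
    have : ∃ l, h l ≠ h (κ x) := by
      by_contra hcon
      push Not at hcon
      exact hab ((hcon a).trans (hcon b).symm)
    obtain ⟨l, hl⟩ := this
    have hlk : l ≠ κ x := fun h1 => hl (by rw [h1])
    obtain ⟨r, r1, r2, r3, r4⟩ := hw x hx l hlk
    have hne : (z l).1 p ≠ (z (κ x)).1 p := fun h1 =>
      hl ((hp2 l trivial (κ x) trivial).1 h1)
    have hr : r = p := by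
      rcases lt_trichotomy r p with h1 | h1 | h1
      · exfalso
        have := hp1 l trivial (κ x) trivial r h1
        rw [r3] at r4
        exact r4 this
      · exact h1
      · exact absurd (r2 p h1) hne
    subst hr
    refine ⟨fun q' hq' => ?_, r3⟩
    rw [← r1 q' hq', r2 q' hq']
  refine (h0 c _ _ w _).2 ⟨hn, p, ?_, ?_⟩
  · intro x hx y hy q' hq'
    rw [(key x hx).1 q' hq', (key y hy).1 q' hq']
    exact hp1 _ trivial _ trivial q' hq'
  · intro x hx y hy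
    rw [(key x hx).2, (key y hy).2]
    exact hp2 _ trivial _ trivial

/-- The gadget. -/
def Gad {X : Type} (S : (X → Word c) → Prop) (A : Fin 3 → Set X)
    (V : Fin 3 ⊕ (Bool × X) → Word c) : Prop :=
  (S (fun x => V (Sum.inr (false, x))) ∧ S (fun x => V (Sum.inr (true, x)))) ∧
    ∀ x y z, ((∃ k l : Fin 3, k ≠ l ∧ x = Sum.inl k ∧ y = Sum.inl k ∧ z = Sum.inl l) ∨
      (∃ k l : Fin 3, k ≠ l ∧ ∃ a ∈ A k, x = Sum.inr (false, a) ∧ y = Sum.inl k ∧ z = Sum.inl l) ∨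
      (∃ k l : Fin 3, k ≠ l ∧ ∃ a ∈ A k, x = Sum.inr (true, a) ∧ y = Sum.inl (io k) ∧
        z = Sum.inl (io l))) → Cc (V z) (V x) (V y)

theorem gad_pp (h1 : S_PPB) (h2 : S_PPQ) (𝔅 : Str σ (Word c)) (hB : PLang 𝔅) {X : Type} [Finite X]
    (S : (X → Word c) → Prop) (A : Fin 3 → Set X) (hS : PP 𝔅 S) : PP 𝔅 (Gad S A) := by
  obtain ⟨-, b2, b3, -⟩ := h1 σ (Word c) 𝔅
  exact b2 _ _ _ (b2 _ _ _
    (b3 X (Fin 3 ⊕ (Bool × X)) S (fun x => Sum.inr (false, x)) hS)
    (b3 X (Fin 3 ⊕ (Bool × X)) S (fun x => Sum.inr (true, x)) hS))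
    ((h2 c σ 𝔅 hB.ppC (Fin 3 ⊕ (Bool × X))).1 _)

/-- Membership in the gadget. -/
theorem gad_mem {X : Type} (S : (X → Word c) → Prop) (A : Fin 3 → Set X)
    (z : Fin 3 → Word c) (u u' : X → Word c) (hu : S u) (hu' : S u')
    (h1 : ∀ k l, k ≠ l → z l ≠ z k) (h2 : ∀ k l, k ≠ l → ∀ a ∈ A k, Cc (z l) (u a) (z k))
    (h3 : ∀ k l, k ≠ l → ∀ a ∈ A k, Cc (z (io l)) (u' a) (z (io k))) (h0 : S_FSX) :
    Gad S A (Sum.elim z (fun p => if p.1 then u' p.2 else u p.2)) := by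
  refine ⟨⟨by simpa using hu, by simpa using hu'⟩, ?_⟩
  rintro x y w (⟨k, l, hkl, rfl, rfl, rfl⟩ | ⟨k, l, hkl, a, ha, rfl, rfl, rfl⟩ |
    ⟨k, l, hkl, a, ha, rfl, rfl, rfl⟩)
  · simp only [Sum.elim_inl]
    have hne := h1 k l hkl
    obtain ⟨h, hh⟩ := (h0 c (Fin 3) {k, l} z).1 ⟨l, by simp, k, by simp, hne⟩
    have hkl' : h l ≠ h k := by
      obtain ⟨⟨a, ha, b, hb, hab⟩, -⟩ := hh
      rcases ha with rfl | rfl <;> rcases hb with rfl | rfl
      · exact absurd rfl hab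
      · exact hab.symm
      · exact hab
      · exact absurd rfl hab
    exact hh.2 k (by simp) k (by simp) l (by simp) rfl hkl'
  · simpa using h2 k l hkl a ha
  · simpa using h3 k l hkl a ha

end XGDG

open XGDG in
/-- the gadget with three blocks -/
theorem GDG_pf (h1 : S_PPB) (h2 : S_PPQ) (h3 : S_INV) (h4 : S_FSX) (h5 : S_PLC) (h6 : S_GLU) :
    S_GDG := by
  intro c σ 𝔅 hB hK X _ S I Q q hS hM A₁ A₂ A₃ hI d1 d2 n1 n2 n3 hw0 hw1
  obtain ⟨w₀, hw0S, hw0Q, hw0a, hw0b⟩ := hw0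
  obtain ⟨w₁, hw1S, hw1a, hw1b⟩ := hw1
  have d12 : ∀ x, x ∈ A₁ → x ∉ A₂ := fun x hx hx' => Set.disjoint_left.1 d1 hx hx'
  have d13 : ∀ x, x ∈ A₁ → x ∉ A₃ := fun x hx hx' =>
    Set.disjoint_left.1 d2 (Set.mem_union_left _ hx) hx'
  have d23 : ∀ x, x ∈ A₂ → x ∉ A₃ := fun x hx hx' =>
    Set.disjoint_left.1 d2 (Set.mem_union_right _ hx) hx'
  obtain ⟨y₁, hy₁⟩ := n1
  obtain ⟨y₂, hy₂⟩ := n2
  obtain ⟨y₃, hy₃⟩ := n3
  -- the blocks
  let A : Fin 3 → Set X := ![A₁, A₂, A₃]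
  let yy : Fin 3 → X := ![y₁, y₂, y₃]
  have hyy : ∀ k, yy k ∈ A k := by
    intro k
    fin_cases k
    · exact hy₁
    · exact hy₂
    · exact hy₃
  have hyI : ∀ k, yy k ∈ I := by
    intro k
    fin_cases k
    · exact hI (Or.inl (Or.inl hy₁))
    · exact hI (Or.inl (Or.inr hy₂))
    · exact hI (Or.inr hy₃)
  -- the shapes
  obtain ⟨a12, a21, a13, a31, a23, a32⟩ := shape d1 d2 hw0a hw0b
  have e1 : Disjoint A₁ A₃ := Set.disjoint_left.2 d13
  have e2 : Disjoint (A₁ ∪ A₃) A₂ := Set.disjoint_left.2 (fun x hx hx' => by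
    rcases hx with hx | hx
    · exact d12 x hx hx'
    · exact d23 x hx' hx)
  have eU : A₁ ∪ A₂ ∪ A₃ = A₁ ∪ A₃ ∪ A₂ := by
    rw [Set.union_assoc, Set.union_comm A₂ A₃, ← Set.union_assoc]
  have hw1a' := hw1a
  rw [eU] at hw1a'
  obtain ⟨b13, b31, b12, b21, b32, b23⟩ := shape e1 e2 hw1a' hw1b
  have sep0 : ∀ k l, k ≠ l → Sep w₀ (A k) (A l) := by
    intro k l hkl
    fin_cases k <;> fin_cases l
    · exact absurd rfl hkl
    · exact a12
    · exact a13
    · exact a21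
    · exact absurd rfl hkl
    · exact a23
    · exact a31
    · exact a32
    · exact absurd rfl hkl
  have sep1 : ∀ k l, k ≠ l → Sep w₁ (A k) (A l) := by
    intro k l hkl
    fin_cases k <;> fin_cases l
    · exact absurd rfl hkl
    · exact b12
    · exact b13
    · exact b21
    · exact absurd rfl hkl
    · exact b23
    · exact b31
    · exact b32
    · exact absurd rfl hkl
  -- the triples
  have hsame : SameOn Set.univ (fun m => w₀ (yy (io m))) (fun m => w₁ (yy m)) := by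
    apply tri h6
    · have hp := spl_pull hw0a (fun m : Fin 3 => yy (io m)) Set.univ
        (fun m _ => by
          fin_cases m
          · exact Or.inl (Or.inl hy₁)
          · exact Or.inr hy₃
          · exact Or.inl (Or.inr hy₂))
        ⟨0, trivial, 1, trivial, by
          change decide (y₁ ∈ A₃) ≠ decide (y₃ ∈ A₃)
          simp [hy₃, d13 y₁ hy₁]⟩
      refine hp.congr ?_
      have hc : ∀ m : Fin 3, decide (yy (io m) ∈ A₃) = decide (m = 1) := by
        intro m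
        fin_cases m
        · change decide (y₁ ∈ A₃) = decide ((0 : Fin 3) = 1)
          simp [d13 y₁ hy₁]
        · change decide (y₃ ∈ A₃) = decide ((1 : Fin 3) = 1)
          simp [hy₃]
        · change decide (y₂ ∈ A₃) = decide ((2 : Fin 3) = 1)
          simp [d23 y₂ hy₂]
      intro x _ y _
      simp only [hc]
    · have hp := spl_pull hw1a (fun m : Fin 3 => yy m) Set.univ
        (fun m _ => by
          fin_cases m
          · exact Or.inl (Or.inl hy₁)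
          · exact Or.inl (Or.inr hy₂)
          · exact Or.inr hy₃)
        ⟨0, trivial, 1, trivial, by
          change decide (y₁ ∈ A₂) ≠ decide (y₂ ∈ A₂)
          simp [hy₂, d12 y₁ hy₁]⟩
      refine hp.congr ?_
      have hc : ∀ m : Fin 3, decide (yy m ∈ A₂) = decide (m = 1) := by
        intro m
        fin_cases m
        · change decide (y₁ ∈ A₂) = decide ((0 : Fin 3) = 1)
          simp [d12 y₁ hy₁]
        · change decide (y₂ ∈ A₂) = decide ((1 : Fin 3) = 1)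
          simp [hy₂]
        · change decide (y₃ ∈ A₂) = decide ((2 : Fin 3) = 1)
          have : y₃ ∉ A₂ := fun h => d23 y₃ h hy₃
          simp [this]
      intro x _ y _
      simp only [hc]
    · have hp := spl_pull hw0b (fun m : Fin 3 => yy (io m)) {m | m ≠ 1}
        (fun m hm => by
          fin_cases m
          · exact Or.inl hy₁
          · exact absurd rfl hm
          · exact Or.inr hy₂)
        ⟨0, by simp, 2, by simp, by
          change decide (y₁ ∈ A₁) ≠ decide (y₂ ∈ A₁)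
          have : y₂ ∉ A₁ := fun h => d12 y₂ h hy₂
          simp [hy₁, this]⟩
      refine hp.congr ?_
      have hc : ∀ m : Fin 3, decide (yy (io m) ∈ A₁) = decide (m = 0) := by
        intro m
        fin_cases m
        · change decide (y₁ ∈ A₁) = decide ((0 : Fin 3) = 0)
          simp [hy₁]
        · change decide (y₃ ∈ A₁) = decide ((1 : Fin 3) = 0)
          have : y₃ ∉ A₁ := fun h => d13 y₃ h hy₃
          simp [this]
        · change decide (y₂ ∈ A₁) = decide ((2 : Fin 3) = 0)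
          have : y₂ ∉ A₁ := fun h => d12 y₂ h hy₂
          simp [this]
      intro x _ y _
      simp only [hc]
    · have hp := spl_pull hw1b (fun m : Fin 3 => yy m) {m | m ≠ 1}
        (fun m hm => by
          fin_cases m
          · exact Or.inl hy₁
          · exact absurd rfl hm
          · exact Or.inr hy₃)
        ⟨0, by simp, 2, by simp, by
          change decide (y₁ ∈ A₁) ≠ decide (y₃ ∈ A₁)
          have : y₃ ∉ A₁ := fun h => d13 y₃ h hy₃
          simp [hy₁, this]⟩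
      refine hp.congr ?_
      have hc : ∀ m : Fin 3, decide (yy m ∈ A₁) = decide (m = 0) := by
        intro m
        fin_cases m
        · change decide (y₁ ∈ A₁) = decide ((0 : Fin 3) = 0)
          simp [hy₁]
        · change decide (y₂ ∈ A₁) = decide ((1 : Fin 3) = 0)
          have : y₂ ∉ A₁ := fun h => d12 y₂ h hy₂
          simp [this]
        · change decide (y₃ ∈ A₁) = decide ((2 : Fin 3) = 0)
          have : y₃ ∉ A₁ := fun h => d13 y₃ h hy₃
          simp [this]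
      intro x _ y _
      simp only [hc]
  -- the moving property
  obtain ⟨g, hg1, hg2, hg3⟩ := hM w₀ w₁ hw0S hw0Q hw1S (fun m => yy (io m)) yy
    (fun m => hyI _) hyI hsame
  have hgS : S g := h3 c σ 𝔅 hB X S hS w₁ g hg1 hw1S
  have sepg : ∀ k l, k ≠ l → Sep g (A k) (A l) := by
    intro k l hkl y hy y' hy' z hz
    exact (hg1.2 y trivial y' trivial z trivial).1 (sep1 k l hkl y hy y' hy' z hz)
  -- the two members
  have ne0 : ∀ k l, k ≠ l → w₀ (yy l) ≠ w₀ (yy k) := fun k l hkl =>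
    cc_ne (sep0 k l hkl _ (hyy k) _ (hyy k) _ (hyy l))
  have mem1 : Gad S A (Sum.elim (fun k => w₀ (yy k)) (fun p => if p.1 then g p.2 else w₀ p.2)) := by
    refine gad_mem S A _ w₀ g hw0S hgS ne0 ?_ ?_ h4
    · intro k l hkl a ha
      exact sep0 k l hkl a ha _ (hyy k) _ (hyy l)
    · intro k l hkl a ha
      have := sepg k l hkl a ha _ (hyy k) _ (hyy l)
      rw [hg2 l, hg2 k] at this
      exact this
  have mem2 : Gad S A (Sum.elim (fun k => w₀ (yy (io k)))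
      (fun p => if p.1 then w₀ p.2 else g p.2)) := by
    refine gad_mem S A _ g w₀ hgS hw0S (fun k l hkl => ne0 _ _ (io_ne hkl)) ?_ ?_ h4
    · intro k l hkl a ha
      have := sepg k l hkl a ha _ (hyy k) _ (hyy l)
      rw [hg2 l, hg2 k] at this
      exact this
    · intro k l hkl a ha
      have := sep0 k l hkl a ha _ (hyy k) _ (hyy l)
      simpa only [io_io] using this
  -- the splits
  let Y : Set (Fin 3 ⊕ (Bool × X)) := {z | ∃ b x, x ∈ Q ∧ z = Sum.inr (b, x)}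
  have hY1 : (fun p : Bool × X => (Sum.inr p : Fin 3 ⊕ (Bool × X))) ''
      {z : Bool × X | z.2 ∈ Q} = Y := by
    ext z
    constructor
    · rintro ⟨⟨b, x⟩, hx, rfl⟩
      exact ⟨b, x, hx, rfl⟩
    · rintro ⟨b, x, hx, rfl⟩
      exact ⟨(b, x), hx, rfl⟩
  have hY2 : (fun p : Bool × X => (Sum.inr (!p.1, p.2) : Fin 3 ⊕ (Bool × X))) ''
      {z : Bool × X | z.2 ∈ Q} = Y := by
    ext z
    constructor
    · rintro ⟨⟨b, x⟩, hx, rfl⟩
      exact ⟨!b, x, hx, rfl⟩
    · rintro ⟨b, x, hx, rfl⟩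
      exact ⟨(!b, x), hx, by simp⟩
  have spl1 : Spl Y (Sum.elim (fun k => w₀ (yy k)) (fun p => if p.1 then g p.2 else w₀ p.2))
      (Sum.elim (fun _ => false) (fun z => if z.1 then false else q z.2)) := by
    rw [← hY1]
    exact spl_push hg3 _ _ _ (fun x _ => rfl) (fun x _ => rfl)
  have spl2 : Spl Y (Sum.elim (fun k => w₀ (yy (io k))) (fun p => if p.1 then w₀ p.2 else g p.2))
      (Sum.elim (fun _ => false) (fun z => if z.1 then q z.2 else false)) := by
    rw [← hY2]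
    refine spl_push hg3 _ _ _ (fun x _ => ?_) (fun x _ => ?_)
    · rcases x with ⟨b, x⟩
      cases b <;> simp
    · rcases x with ⟨b, x⟩
      cases b <;> simp
  obtain ⟨⟨x0, hx0, x1, hx1, hx01⟩, -⟩ := id hw0Q
  obtain ⟨V, hV, hVs⟩ := hK (Fin 3 ⊕ (Bool × X)) (Gad S A) (gad_pp h1 h2 𝔅 hB S A hS) Y _ _
    ⟨_, mem1, spl1.not⟩ ⟨_, mem2, spl2.not⟩
    ⟨Sum.inr (false, x0), ⟨false, x0, hx0, rfl⟩, Sum.inr (false, x1), ⟨false, x1, hx1, rfl⟩, by
      simpa using hx01⟩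
  obtain ⟨⟨hVf, hVt⟩, hVc⟩ := hV
  have hVs' := hVs.not
  -- the splits on the copies
  have copy : ∀ b : Bool, Spl Q (fun x => V (Sum.inr (b, x))) q := by
    intro b
    have hp := spl_pull hVs' (fun x : X => (Sum.inr (b, x) : Fin 3 ⊕ (Bool × X))) Q
      (fun x hx => ⟨b, x, hx, rfl⟩)
      ⟨x0, hx0, x1, hx1, by cases b <;> simpa using hx01⟩
    refine hp.congr ?_
    intro x _ y _
    cases b <;> simp
  -- the guards
  let z : Fin 3 → Word c := fun k => V (Sum.inl k)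
  have hz : ∀ k l, k ≠ l → z l ≠ z k := fun k l hkl =>
    cc_ne (hVc (Sum.inl k) (Sum.inl k) (Sum.inl l) (Or.inl ⟨k, l, hkl, rfl, rfl, rfl⟩))
  obtain ⟨h, hh⟩ := (h4 c (Fin 3) Set.univ z).1 ⟨1, trivial, 0, trivial, hz 0 1 (by decide)⟩
  let κ : X → Fin 3 := fun x => if x ∈ A₁ then 0 else if x ∈ A₂ then 1 else 2
  have k1 : ∀ x ∈ A₁, κ x = 0 := fun x hx => by simp [κ, hx]
  have k2 : ∀ x ∈ A₂, κ x = 1 := fun x hx => by
    have : x ∉ A₁ := fun h => d12 x h hx
    simp [κ, hx, this]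
  have k3 : ∀ x ∈ A₃, κ x = 2 := fun x hx => by
    have h7 : x ∉ A₁ := fun h => d13 x h hx
    have h8 : x ∉ A₂ := fun h => d23 x h hx
    simp [κ, h7, h8]
  have hκ : ∀ x ∈ A₁ ∪ A₂ ∪ A₃, x ∈ A (κ x) := by
    rintro x ((hx | hx) | hx)
    · rw [k1 x hx]; exact hx
    · rw [k2 x hx]; exact hx
    · rw [k3 x hx]; exact hx
  by_cases h01 : h 0 = h 1
  · -- second copy
    have h02 : h 0 ≠ h 2 := by
      intro h02
      obtain ⟨⟨a, -, b, -, hab⟩, -⟩ := hh
      have : ∀ m : Fin 3, h m = h 0 := by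
        intro m
        fin_cases m
        · rfl
        · exact h01.symm
        · exact h02.symm
      exact hab ((this a).trans (this b).symm)
    refine ⟨fun x => V (Sum.inr (true, x)), hVt, copy true, fun x => h (io (κ x)), ?_,
      y₁, hy₁, y₂, hy₂, ?_⟩
    · refine follow h5 z h hh _ (fun x => io (κ x)) ?_ ?_
      · intro x hx l hl
        have hl' : κ x ≠ io l := by
          intro h9
          apply hl
          rw [h9, io_io]
        have := hVc (Sum.inr (true, x)) (Sum.inl (io (κ x))) (Sum.inl (io (io l)))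
          (Or.inr (Or.inr ⟨κ x, io l, hl', x, hκ x hx, rfl, rfl, rfl⟩))
        rw [io_io] at this
        exact this
      · refine ⟨y₁, Or.inl (Or.inl hy₁), y₂, Or.inl (Or.inr hy₂), ?_⟩
        rw [k1 y₁ hy₁, k2 y₂ hy₂]
        exact h02
    · change h (io (κ y₁)) ≠ h (io (κ y₂))
      rw [k1 y₁ hy₁, k2 y₂ hy₂]
      exact h02
  · refine ⟨fun x => V (Sum.inr (false, x)), hVf, copy false, fun x => h (κ x), ?_,
      y₁, hy₁, y₂, hy₂, ?_⟩
    · refine follow h5 z h hh _ κ ?_ ?_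
      · intro x hx l hl
        exact hVc (Sum.inr (false, x)) (Sum.inl (κ x)) (Sum.inl l)
          (Or.inr (Or.inl ⟨κ x, l, hl.symm, x, hκ x hx, rfl, rfl, rfl⟩))
      · refine ⟨y₁, Or.inl (Or.inl hy₁), y₂, Or.inl (Or.inr hy₂), ?_⟩
        rw [k1 y₁ hy₁, k2 y₂ hy₂]
        exact h01
    · change h (κ y₁) ≠ h (κ y₂)
      rw [k1 y₁ hy₁, k2 y₂ hy₂]
      exact h01

end Pool.Agent.Work.MP_8dbde4_lc.Phy
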