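import Pool.Agent.Work.MP_8dbde4_lc.Phy.Stmts

/-! Item GIN: the induction step of the locality theorem. -/

set_option autoImplicit false
open Classical

namespace Pool.Agent.Work.MP_8dbde4_lc.Phy

open Pool.Agent.Work.MP_8dbde4_lc.TS Pool.Agent.Work.MP_8dbde4_lc.Tree

namespace XGIN

variable {c : ℚ → Bool} {σ : Sig}

theorem not_Cc_self (a : Word c) : ¬ Cc a a a := by
  rintro ⟨q, _, _, _, h⟩
  exact h rfl

theorem SameOn_sub {X : Type} {Y : Set X} (v w : X → Word c)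
    (hY : ∀ x ∈ Y, ∀ y ∈ Y, x = y) : SameOn Y v w := by
  refine ⟨?_, ?_⟩
  · intro x hx y hy
    have h := hY x hx y hy
    subst h
    simp
  · intro x hx y hy z hz
    have h := hY x hx y hy
    have h' := hY x hx z hz
    subst h
    subst h'
    exact ⟨fun h => absurd h (not_Cc_self _), fun h => absurd h (not_Cc_self _)⟩

/-- Uniform form of the first step, for the side `p = b`. -/
theorem hH (hU : S_UNI) (hM : S_MVH) {𝔅 : Str σ (Word c)} (hL : PLang 𝔅) (hK : KP 𝔅)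
    {X : Type} [Finite X] {S : (X → Word c) → Prop} (hS : PP 𝔅 S) (Y : Set X) (p : X → Bool)
    (hne : ∃ w, S w ∧ Spl Y w p) (b : Bool)
    (hG : ∀ m ≤ {x | x ∈ Y ∧ p x = b}.ncard, GG 𝔅 m)
    (hsep : ∀ x ∈ {x | x ∈ Y ∧ p x = b}, ∀ y ∈ {x | x ∈ Y ∧ p x = b}, x ≠ y →
      ∃ w, S w ∧ w x ≠ w y) :
    ∀ Y' ⊆ {x | x ∈ Y ∧ p x = b}, ∀ h, (∃ w, S w ∧ Spl Y' w h) →
      ∃ w, (S w ∧ Spl Y w p) ∧ Spl Y' w h := by
  cases b with
  | false =>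
    exact hU c σ 𝔅 hL hK X S {x | x ∈ Y ∧ p x = false} Y p hS (hM c X S Y p) hne hsep hG
  | true =>
    have hset : {x | x ∈ Y ∧ (fun x => !p x) x = false} = {x | x ∈ Y ∧ p x = true} := by
      ext x; simp
    intro Y' hY' h hw
    obtain ⟨w0, hw0, hs0⟩ := hne
    obtain ⟨w, ⟨h1, h2⟩, h3⟩ := hU c σ 𝔅 hL hK X S {x | x ∈ Y ∧ (fun x => !p x) x = false} Y
      (fun x => !p x) hS (hM c X S Y _) ⟨w0, hw0, hs0.not⟩ (by rw [hset]; exact hsep)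
      (by rw [hset]; exact hG) Y' (by rw [hset]; exact hY') h hw
    refine ⟨w, ⟨h1, ?_⟩, h3⟩
    exact h2.not.congr (fun x _ y _ => by simp)

theorem LocU {X : Type} {T : (X → Word c) → Prop} {Y0 Y1 : Set X} {v t : X → Word c}
    {h : X → Bool} (h01 : Y0 ⊆ Y1) (hv : Spl Y1 v h) (ht : T t) (hst : Spl Y1 t h)
    (hF : ∀ b, Loc T {x | x ∈ Y0 ∧ h x = b} v) : Loc T Y0 v := by
  intro Y' hY' hne
  by_cases hc : ∃ x ∈ Y', ∃ y ∈ Y', h x ≠ h y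
  · exact ⟨t, ht, h, hv.mono (hY'.trans h01) hc, hst.mono (hY'.trans h01) hc⟩
  · push Not at hc
    obtain ⟨x, hx, y, hy, hxy⟩ := hne
    exact hF (h x) Y' (fun z hz => ⟨hY' hz, hc z hz x hx⟩) ⟨x, hx, y, hy, hxy⟩

end XGIN

open XGIN

theorem GIN_pf (hPPB : S_PPB) (hPPQ : S_PPQ) (hCPS : S_CPS) (hGLU : S_GLU) (hUNI : S_UNI)
    (hMVH : S_MVH) (hMVA : S_MVA) : S_GIN := by
  intro c σ 𝔅 hL hK n hn X hfin S hS hSne Y v hYn hLoc
  by_cases hsub : ∀ x ∈ Y, ∀ y ∈ Y, x = y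
  · obtain ⟨w, hw⟩ := hSne
    exact ⟨w, hw, SameOn_sub v w hsub⟩
  have hsub' : ∃ x ∈ Y, ∃ y ∈ Y, x ≠ y := by
    push Not at hsub
    exact hsub
  obtain ⟨w0, hw0, p, hvp, hwp⟩ := hLoc Y subset_rfl hsub'
  have hinj : ∀ x ∈ Y, ∀ y ∈ Y, v x = v y → x = y := by
    intro x hx y hy hxy
    by_contra hne
    exact (hLoc.ne hx hy hne).1 hxy
  obtain ⟨x0, hx0, x1, hx1, hp01⟩ := hvp.1
  -- both sides are proper
  have hside : ∀ b, ∃ x ∈ Y, p x = b := by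
    intro b
    by_cases h : p x0 = b
    · exact ⟨x0, hx0, h⟩
    · refine ⟨x1, hx1, ?_⟩
      cases b <;> cases hh : p x0 <;> cases hh1 : p x1 <;> simp_all
  have hlt : ∀ (Z : Set X) (x : X), x ∈ Y → Z ⊆ Y → x ∉ Z → Z.ncard < n := by
    intro Z x hx hZ hxZ
    rw [← hYn]
    exact Set.ncard_lt_ncard ⟨hZ, fun h => hxZ (h hx)⟩ (Set.toFinite _)
  have hsideb : ∀ b, {x | x ∈ Y ∧ p x = b}.ncard < n := by
    intro b
    obtain ⟨x, hx, hxb⟩ := hside (!b)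
    refine hlt _ x hx (fun z hz => hz.1) ?_
    rintro ⟨_, h⟩
    rw [hxb] at h
    cases b <;> simp at h
  -- the first restriction
  have hSpPP : PP 𝔅 (fun w => S w ∧ Spl Y w p) :=
    (hPPQ c σ 𝔅 hL.ppC X).2 S Y p hS hvp.1
  have hH1 : ∀ b, ∀ Y' ⊆ {x | x ∈ Y ∧ p x = b}, ∀ h, (∃ w, S w ∧ Spl Y' w h) →
      ∃ w, (S w ∧ Spl Y w p) ∧ Spl Y' w h := by
    intro b
    refine hH hUNI hMVH hL hK hS Y p ⟨w0, hw0, hwp⟩ b (fun m hm => hn m (lt_of_le_of_lt hm (hsideb b)))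
      ?_
    intro x hx y hy hxy
    exact (hLoc.ne hx.1 hy.1 hxy).2
  have hLocSp : ∀ b, Loc (fun w => S w ∧ Spl Y w p) {x | x ∈ Y ∧ p x = b} v := by
    intro b Y' hY' hne
    obtain ⟨w, hw, h, h1, h2⟩ := hLoc Y' (fun z hz => (hY' hz).1) hne
    obtain ⟨w', hw', h3⟩ := hH1 b Y' hY' h ⟨w, hw, h2⟩
    exact ⟨w', hw', h, h1, h3⟩
  by_cases hJ : ∀ x ∈ {x | x ∈ Y ∧ p x = true}, ∀ y ∈ {x | x ∈ Y ∧ p x = true}, x = y
  · obtain ⟨w, ⟨hw, hwY⟩, hs⟩ := hn _ (hsideb false) X _ hSpPP ⟨w0, hw0, hwp⟩ _ v rfl (hLocSp false)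
    exact ⟨w, hw, hGLU c X Y v w p hvp hwY hs (SameOn_sub v w hJ)⟩
  have hJ' : ∃ x ∈ {x | x ∈ Y ∧ p x = true}, ∃ y ∈ {x | x ∈ Y ∧ p x = true}, x ≠ y := by
    push Not at hJ
    exact hJ
  obtain ⟨w1, hw1, q, hvq, hwq1⟩ := hLocSp true _ subset_rfl hJ'
  set J : Set X := {x | x ∈ Y ∧ p x = true} with hJdef
  -- the second restriction
  have hTPP : PP 𝔅 (fun w => (S w ∧ Spl Y w p) ∧ Spl J w q) :=
    (hPPQ c σ 𝔅 hL.ppC X).2 _ J q hSpPP hvq.1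
  have hA : ∀ Y' ⊆ {x | x ∈ Y ∧ p x = false}, ∀ h, (∃ w, (S w ∧ Spl Y w p) ∧ Spl Y' w h) →
      ∃ w, ((S w ∧ Spl Y w p) ∧ Spl J w q) ∧ Spl Y' w h := by
    refine hUNI c σ 𝔅 hL hK X (fun w => S w ∧ Spl Y w p) {x | x ∈ Y ∧ p x = false} J q hSpPP
      (hMVA c X _ Y p q (fun w hw => hw.2)) ⟨w1, hw1, hwq1⟩ ?_
      (fun m hm => hn m (lt_of_le_of_lt hm (hsideb false)))
    intro x hx y hy hxy
    exact ((hLocSp false).ne hx hy hxy).2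
  have hDlt : ∀ b, {x | x ∈ J ∧ q x = b}.ncard < n := by
    intro b
    exact lt_of_le_of_lt (Set.ncard_le_ncard (fun z hz => hz.1) (Set.toFinite _)) (hsideb true)
  have hH2 : ∀ b, ∀ Y' ⊆ {x | x ∈ J ∧ q x = b}, ∀ h, (∃ w, (S w ∧ Spl Y w p) ∧ Spl Y' w h) →
      ∃ w, ((S w ∧ Spl Y w p) ∧ Spl J w q) ∧ Spl Y' w h := by
    intro b
    refine hH hUNI hMVH hL hK hSpPP J q ⟨w1, hw1, hwq1⟩ b
      (fun m hm => hn m (lt_of_le_of_lt hm (hDlt b))) ?_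
    intro x hx y hy hxy
    exact ((hLocSp true).ne hx.1 hy.1 hxy).2
  have hLocTI : Loc (fun w => (S w ∧ Spl Y w p) ∧ Spl J w q) {x | x ∈ Y ∧ p x = false} v := by
    intro Y' hY' hne
    obtain ⟨w, hw, h, h1, h2⟩ := hLocSp false Y' hY' hne
    obtain ⟨w', hw', h3⟩ := hA Y' hY' h ⟨w, hw, h2⟩
    exact ⟨w', hw', h, h1, h3⟩
  have hLocTD : ∀ b, Loc (fun w => (S w ∧ Spl Y w p) ∧ Spl J w q) {x | x ∈ J ∧ q x = b} v := by
    intro b Y' hY' hne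
    obtain ⟨w, hw, h, h1, h2⟩ := hLocSp true Y' (fun z hz => (hY' hz).1) hne
    obtain ⟨w', hw', h3⟩ := hH2 b Y' hY' h ⟨w, hw, h2⟩
    exact ⟨w', hw', h, h1, h3⟩
  have hLocTJ : Loc (fun w => (S w ∧ Spl Y w p) ∧ Spl J w q) J v :=
    LocU subset_rfl hvq (t := w1) ⟨hw1, hwq1⟩ hwq1 hLocTD
  -- the sets `I ∪ D_b`
  have hsplit : ∀ (T : (X → Word c) → Prop) (t : X → Word c), T t → Spl Y t p → ∀ b,
      Loc T {x | x ∈ Y ∧ p x = false} v → Loc T {x | x ∈ J ∧ q x = b} v →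
      Loc T ({x | x ∈ Y ∧ p x = false} ∪ {x | x ∈ J ∧ q x = b}) v := by
    intro T t ht htp b h1 h2
    refine LocU (Y1 := Y) (h := p) ?_ hvp ht htp ?_
    · rintro z (hz | hz)
      · exact hz.1
      · exact hz.1.1
    · intro b'
      cases b' with
      | false =>
        refine h1.mono ?_
        rintro z ⟨hz | hz, hz2⟩
        · exact hz
        · exact absurd hz.1.2 (by rw [hz2]; simp)
      | true =>
        refine h2.mono ?_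
        rintro z ⟨hz | hz, hz2⟩
        · exact absurd hz.2 (by rw [hz2]; simp)
        · exact hz
  have hUlt : ∀ b, ({x | x ∈ Y ∧ p x = false} ∪ {x | x ∈ J ∧ q x = b}).ncard < n := by
    intro b
    have : ∃ x ∈ J, q x = !b := by
      obtain ⟨y0, hy0, y1, hy1, hq01⟩ := hvq.1
      by_cases h : q y0 = !b
      · exact ⟨y0, hy0, h⟩
      · refine ⟨y1, hy1, ?_⟩
        cases b <;> cases hh : q y0 <;> cases hh1 : q y1 <;> simp_all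
    obtain ⟨x, hx, hxb⟩ := this
    refine hlt _ x hx.1 ?_ ?_
    · rintro z (hz | hz)
      · exact hz.1
      · exact hz.1.1
    · rintro (hz | hz)
      · exact absurd hz.2 (by rw [hx.2]; simp)
      · have := hz.2
        rw [hxb] at this
        cases b <;> simp at this
  obtain ⟨u1, hu1, hsu1⟩ := hn _ (hUlt true) X _ hTPP ⟨w1, hw1, hwq1⟩ _ v rfl
    (hsplit _ w1 ⟨hw1, hwq1⟩ hw1.2 true hLocTI (hLocTD true))
  obtain ⟨u2, hu2, hsu2⟩ := hn _ (hsideb true) X _ hTPP ⟨w1, hw1, hwq1⟩ J v rfl hLocTJ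
  -- the third restriction
  set D : Bool → Set X := fun b => {x | x ∈ J ∧ q x = b} with hDdef
  have hT'PP : PP 𝔅 (fun w => ((S w ∧ Spl Y w p) ∧ Spl J w q) ∧
      (∀ x y z, (x ∈ D true ∧ y ∈ D true ∧ z ∈ D true ∧ Cc (v z) (v x) (v y)) →
        Cc (w z) (w x) (w y))) :=
    (hPPB σ _ 𝔅).2.1 X _ _ hTPP ((hPPQ c σ 𝔅 hL.ppC X).1 _)
  have hmem : ∀ w, ((S w ∧ Spl Y w p) ∧ Spl J w q) → SameOn (D true) v w →
      (((S w ∧ Spl Y w p) ∧ Spl J w q) ∧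
      (∀ x y z, (x ∈ D true ∧ y ∈ D true ∧ z ∈ D true ∧ Cc (v z) (v x) (v y)) →
        Cc (w z) (w x) (w y))) := by
    intro w hw hs
    exact ⟨hw, fun x y z h => (hs.2 x h.1 y h.2.1 z h.2.2.1).1 h.2.2.2⟩
  have hu1' := hmem u1 hu1 (hsu1.mono (by intro z hz; exact Or.inr hz))
  have hu2' := hmem u2 hu2 (hsu2.mono (by intro z hz; exact hz.1))
  have hLT'I : Loc (fun w => ((S w ∧ Spl Y w p) ∧ Spl J w q) ∧
      (∀ x y z, (x ∈ D true ∧ y ∈ D true ∧ z ∈ D true ∧ Cc (v z) (v x) (v y)) →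
        Cc (w z) (w x) (w y))) {x | x ∈ Y ∧ p x = false} v := by
    intro Y' hY' hne
    obtain ⟨w, hw, h, h1, h2⟩ := hLocSp false Y' hY' hne
    exact ⟨u1, hu1', h, h1, h1.transfer (hsu1.mono (fun z hz => Or.inl (hY' hz)))⟩
  have hLT'D : Loc (fun w => ((S w ∧ Spl Y w p) ∧ Spl J w q) ∧
      (∀ x y z, (x ∈ D true ∧ y ∈ D true ∧ z ∈ D true ∧ Cc (v z) (v x) (v y)) →
        Cc (w z) (w x) (w y))) (D false) v := by
    intro Y' hY' hne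
    obtain ⟨w, hw, h, h1, h2⟩ := hLocTD false Y' hY' hne
    exact ⟨u2, hu2', h, h1, h1.transfer (hsu2.mono (fun z hz => (hY' hz).1))⟩
  obtain ⟨w, hw, hsw⟩ := hn _ (hUlt false) X _ hT'PP ⟨u1, hu1'⟩ _ v rfl
    (hsplit _ u1 hu1' hu1.1.2 false hLT'I hLT'D)
  have hsD : SameOn (D true) v w := by
    refine hCPS c X (D true) v w ?_ ?_
    · intro x hx y hy hxy
      exact hinj x hx.1.1 y hy.1.1 hxy
    · intro x hx y hy z hz hcc
      exact hw.2 x y z ⟨hx, hy, hz, hcc⟩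
  have hsJ : SameOn J v w :=
    hGLU c X J v w q hvq hw.1.2 (hsw.mono (fun z hz => Or.inr hz)) hsD
  exact ⟨w, hw.1.1.1, hGLU c X Y v w p hvp hw.1.1.2 (hsw.mono (fun z hz => Or.inl hz)) hsJ⟩

end Pool.Agent.Work.MP_8dbde4_lc.Phy
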