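import Pool.Agent.Work.MP_8dbde4_lc.Phy.Stmts2

/-!
# Item GLG: the languages `LG N` have good steps
-/

set_option autoImplicit false
open Classical

namespace Pool.Agent.Work.MP_8dbde4_lc.Phy

open Pool.Agent.Work.MP_8dbde4_lc.TS Pool.Agent.Work.MP_8dbde4_lc.Tree

theorem GLG_pf : S_GLG := by
  intro N A _ 𝔄 hR hS
  refine ⟨false, true, ⟨by simp, ?_⟩, ?_⟩
  · rintro (k | u) _ p p' _ _ hp hp'
    · have h1 : p (0 : Fin (k.val + 2)) = p (1 : Fin (k.val + 2)) := hp
      have h2 : p' (0 : Fin (k.val + 2)) = p' (1 : Fin (k.val + 2)) := hp'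
      change meet false true (p (0 : Fin (k.val + 2))) (p' (0 : Fin (k.val + 2))) =
        meet false true (p (1 : Fin (k.val + 2))) (p' (1 : Fin (k.val + 2)))
      rw [h1, h2]
    · trivial
  · obtain ⟨h, hs, x, _, y, _, hxy⟩ := hR Set.univ hS
    refine ⟨h, hs, fun z => ?_, x, y, hxy⟩
    cases h z <;> simp

end Pool.Agent.Work.MP_8dbde4_lc.Phy
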