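import Pool.Agent.Work.MP_8dbde4_lc.Phy.Stmts

/-!
Item GLU: gluing along a first split (S_GLU).
-/

set_option autoImplicit false
open Classical

namespace Pool.Agent.Work.MP_8dbde4_lc.Phy

open Pool.Agent.Work.MP_8dbde4_lc.TS Pool.Agent.Work.MP_8dbde4_lc.Tree

namespace XGLU

variable {c : ℚ → Bool}

theorem cc_symm {z x y : Word c} (h : Cc z x y) : Cc z y x := by
  obtain ⟨q, h1, h2, h3, h4⟩ := h
  exact ⟨q, h2, h1, h3.symm, fun h5 => h4 (h5.trans h3.symm)⟩

theorem cc_asymm {z x y : Word c} (h : Cc z x y) : ¬ Cc x z y := by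
  rintro ⟨q', h1', h2', h3', h4'⟩
  obtain ⟨q, h1, h2, h3, h4⟩ := h
  rcases lt_trichotomy q q' with hq | hq | hq
  · exact h4 (h1' q hq).symm
  · subst hq
    exact h4 (h3'.trans h3.symm)
  · exact h4' (h1 q' hq).symm

theorem cc_ne {z x y : Word c} (h : Cc z x y) : z ≠ x := by
  obtain ⟨q, _, _, _, h4⟩ := h
  intro he
  rw [he] at h4
  exact h4 rfl

variable {X : Type} {Y : Set X} {v : X → Word c} {h : X → Bool}

theorem ne_of_spl (H : Spl Y v h) {x y : X} (hx : x ∈ Y) (hy : y ∈ Y) (hxy : h x ≠ h y) :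
    v x ≠ v y :=
  fun he => cc_ne (H.2 x hx x hx y hy rfl (fun e => hxy e.symm)) he.symm

/-- if `h x ≠ h y` then `z` does not split off from `x` and `y` first -/
theorem not_cc (H : Spl Y v h) {x y z : X} (hx : x ∈ Y) (hy : y ∈ Y) (hz : z ∈ Y)
    (hxy : h x ≠ h y) : ¬ Cc (v z) (v x) (v y) := by
  by_cases hzx : h z = h x
  · -- `y` splits off first
    have h1 := H.2 x hx z hz y hy hzx.symm (fun e => hxy e.symm)
    intro h2
    exact cc_asymm (cc_symm h1) (cc_symm h2)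
  · have hzy : h z = h y := by
      revert hzx hxy
      cases h z <;> cases h x <;> cases h y <;> simp
    have h1 := H.2 y hy z hz x hx hzy.symm hxy
    intro h2
    exact cc_asymm (cc_symm h1) h2

end XGLU

open XGLU in
theorem GLU_pf : S_GLU := by
  intro c X Y v w h Hv Hw H0 H1
  have side : ∀ b : Bool, SameOn {x | x ∈ Y ∧ h x = b} v w := by
    intro b
    cases b
    · exact H0
    · exact H1
  refine ⟨?_, ?_⟩
  · intro x hx y hy
    by_cases hxy : h x = h y
    · exact (side (h y)).1 x ⟨hx, hxy⟩ y ⟨hy, rfl⟩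
    · exact ⟨fun e => absurd e (ne_of_spl Hv hx hy hxy), fun e => absurd e (ne_of_spl Hw hx hy hxy)⟩
  · intro x hx y hy z hz
    by_cases hxy : h x = h y
    · by_cases hz' : h z = h x
      · exact (side (h x)).2 x ⟨hx, rfl⟩ y ⟨hy, hxy.symm⟩ z ⟨hz, hz'⟩
      · exact ⟨fun _ => Hw.2 x hx y hy z hz hxy hz', fun _ => Hv.2 x hx y hy z hz hxy hz'⟩
    · exact ⟨fun e => absurd e (not_cc Hv hx hy hz hxy), fun e => absurd e (not_cc Hw hx hy hz hxy)⟩

end Pool.Agent.Work.MP_8dbde4_lc.Phy
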