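import Pool.Agent.Work.MP_8dbde4_lc.Phy.Stmts2

/-!
# Item HDF: Horn clauses over first splits are Horn clauses over `LG N`
-/

set_option autoImplicit false
open Classical

namespace Pool.Agent.Work.MP_8dbde4_lc.Phy

open Pool.Agent.Work.MP_8dbde4_lc.TS Pool.Agent.Work.MP_8dbde4_lc.Tree

namespace XHDF

variable {c : ℚ → Bool} {σ : Sig}

/-- The tuple of variables `i, j, (if l ∈ Y then l else i)_l`. -/
noncomputable def ff {n : ℕ} (i j : Fin n) (Y : Set (Fin n)) : Fin (n + 2) → Fin n :=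
  Fin.cons i (Fin.cons j (fun l => if l ∈ Y then l else i))

theorem ff_zero {n : ℕ} (i j : Fin n) (Y : Set (Fin n)) : ff i j Y 0 = i := rfl

theorem ff_one {n : ℕ} (i j : Fin n) (Y : Set (Fin n)) : ff i j Y 1 = j := rfl

theorem ff_mem {n : ℕ} (i j : Fin n) (Y : Set (Fin n)) (a : Fin (n + 2)) :
    ff i j Y a ∈ insert i (insert j Y) := by
  refine Fin.cases ?_ (fun a => ?_) a
  · exact Set.mem_insert _ _
  · refine Fin.cases ?_ (fun a => ?_) a
    · exact Set.mem_insert_of_mem _ (Set.mem_insert _ _)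
    · change (if a ∈ Y then a else i) ∈ insert i (insert j Y)
      split_ifs with h
      · exact Set.mem_insert_of_mem _ (Set.mem_insert_of_mem _ h)
      · exact Set.mem_insert _ _

theorem ff_surj {n : ℕ} (i j : Fin n) (Y : Set (Fin n)) {x : Fin n}
    (hx : x ∈ insert i (insert j Y)) : ∃ a, ff i j Y a = x := by
  rcases hx with rfl | rfl | hx
  · exact ⟨0, rfl⟩
  · exact ⟨1, rfl⟩
  · refine ⟨x.succ.succ, ?_⟩
    change (if x ∈ Y then x else i) = x
    rw [if_pos hx]

theorem key (h1 : S_PLC) {n N : ℕ} (hn : n < N) (v : Fin n → Word c) (i j : Fin n)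
    (Y : Set (Fin n)) :
    CHolds v (some (i, j, Y)) ↔
      ((LG N).tree c).rel (Sum.inl ⟨n, hn⟩) (fun a => v (ff i j Y a)) := by
  constructor
  · intro H
    refine ⟨?_, fun h => h.elim⟩
    rintro q ⟨hq1, a, b, hab⟩
    change (v (ff i j Y 0)).1 q = (v (ff i j Y 1)).1 q
    refine H (fun x => (v x).1 q) ?_
    rw [h1]
    refine ⟨⟨ff i j Y a, ff_mem i j Y a, ff i j Y b, ff_mem i j Y b, hab⟩, q, ?_, ?_⟩
    · intro x hx y hy q' hq'
      obtain ⟨a, rfl⟩ := ff_surj i j Y hx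
      obtain ⟨b, rfl⟩ := ff_surj i j Y hy
      exact hq1 q' hq' a b
    · intro x _ y _
      exact Iff.rfl
  · rintro ⟨H, _⟩ h hh
    rw [h1] at hh
    obtain ⟨⟨x, hx, y, hy, hxy⟩, q, hq1, hq2⟩ := hh
    have h3 : (v (ff i j Y 0)).1 q = (v (ff i j Y 1)).1 q := by
      refine H q ⟨?_, ?_⟩
      · intro q' hq' a b
        exact hq1 _ (ff_mem i j Y a) _ (ff_mem i j Y b) q' hq'
      · obtain ⟨a, ha⟩ := ff_surj i j Y hx
        obtain ⟨b, hb⟩ := ff_surj i j Y hy
        refine ⟨a, b, ?_⟩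
        intro h4
        apply hxy
        rw [← hq2 x hx y hy, ← ha, ← hb]
        exact h4
    exact (hq2 i (Set.mem_insert _ _) j (Set.mem_insert_of_mem _ (Set.mem_insert _ _))).1 h3

/-- Translation of the conclusions. -/
noncomputable def conc (σ : Sig) {N n : ℕ} (hn : n < N) :
    Option (Fin n × Fin n × Set (Fin n)) → Concl (ssum σ (sP N)) (Pgc σ N) n
  | none => .bot
  | some (i, j, Y) => .rel (Sum.inr (Sum.inl ⟨n, hn⟩)) ⟨⟨n, hn⟩, rfl⟩ (ff i j Y)

/-- Translation of the clauses. -/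
noncomputable def conv (σ : Sig) {N n : ℕ} (hn : n < N) (C : Cl n) :
    Clause (ssum σ (sP N)) (Pgc σ N) n where
  prem := (Set.toFinite C.prem).toFinset.toList
  concl := conc σ hn C.concl

theorem conv_holds (h1 : S_PLC) {N n : ℕ} (hn : n < N) (𝔅 : Str σ (Word c)) (C : Cl n)
    (v : Fin n → Word c) : (conv σ hn C).Holds (Bp 𝔅 N) v ↔ C.Holds v := by
  obtain ⟨prem, concl⟩ := C
  unfold Clause.Holds Cl.Holds conv
  have e1 : (∀ p ∈ (Set.toFinite prem).toFinset.toList, v p.1 = v p.2) ↔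
      ∀ e ∈ prem, v e.1 = v e.2 := by
    constructor
    · intro h e he
      exact h e (by rw [Finset.mem_toList, Set.Finite.mem_toFinset]; exact he)
    · intro h e he
      rw [Finset.mem_toList, Set.Finite.mem_toFinset] at he
      exact h e he
  have e2 : (conc σ hn concl).Holds (Bp 𝔅 N) v ↔ CHolds v concl := by
    rcases concl with _ | ⟨i, j, Y⟩
    · exact Iff.rfl
    · exact (key h1 hn v i j Y).symm
  exact imp_congr e1 e2

instance finCl (n : ℕ) : Finite (Cl n) := by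
  refine Finite.of_injective
    (fun C : Cl n => ((C.prem, C.concl) :
      Set (Fin n × Fin n) × Option (Fin n × Fin n × Set (Fin n)))) ?_
  rintro ⟨p, q⟩ ⟨p', q'⟩ h
  obtain ⟨h1, h2⟩ := Prod.mk.inj h
  cases h1
  cases h2
  rfl

theorem exists_list (h1 : S_PLC) {N n : ℕ} (hn : n < N) (𝔅 : Str σ (Word c))
    (R : (Fin n → Word c) → Prop) (hR : HornC R) :
    ∃ cs : List (Clause (ssum σ (sP N)) (Pgc σ N) n), ∀ t : Fin n → Word c,
      R t ↔ ∀ C ∈ cs, C.Holds (Bp 𝔅 N) t := by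
  obtain ⟨cs, hcs⟩ := hR
  refine ⟨((Set.toFinite cs).toFinset.toList).map (conv σ hn), ?_⟩
  intro t
  rw [hcs]
  constructor
  · intro h C' hC'
    rw [List.mem_map] at hC'
    obtain ⟨C, hC, rfl⟩ := hC'
    rw [Finset.mem_toList, Set.Finite.mem_toFinset] at hC
    exact (conv_holds h1 hn 𝔅 C t).2 (h C hC)
  · intro h C hC
    refine (conv_holds h1 hn 𝔅 C t).1 (h _ ?_)
    rw [List.mem_map]
    exact ⟨C, by rw [Finset.mem_toList, Set.Finite.mem_toFinset]; exact hC, rfl⟩

end XHDF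

/-- Horn clauses over first splits are Horn clauses over `LG N`. -/
theorem HDF_pf (h1 : S_PLC) : S_HDF := by
  intro c σ 𝔅 hB
  have hN : ∀ R : σ.S, σ.ar R < ∑ R : σ.S, σ.ar R + 1 := by
    intro R
    have := Finset.single_le_sum (f := fun R : σ.S => σ.ar R) (fun _ _ => Nat.zero_le _)
      (Finset.mem_univ R)
    exact Nat.lt_succ_of_le this
  refine ⟨∑ R : σ.S, σ.ar R + 1, ?_⟩
  generalize ∑ R : σ.S, σ.ar R + 1 = N at hN
  rintro (R | k | u)
  · exact XHDF.exists_list h1 (hN R) 𝔅 (𝔅.rel R) (hB R)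
  · refine ⟨[⟨[], .rel (Sum.inr (Sum.inl k)) ⟨k, rfl⟩ id⟩], ?_⟩
    intro t
    constructor
    · intro h C' hC'
      rw [List.mem_singleton] at hC'
      subst hC'
      intro _
      exact h
    · intro h
      exact h _ (List.mem_singleton.2 rfl) (fun p hp => absurd hp List.not_mem_nil)
  · refine ⟨[⟨[((0 : Fin 2), (1 : Fin 2))], .bot⟩], ?_⟩
    intro t
    constructor
    · intro h C' hC'
      rw [List.mem_singleton] at hC'
      subst hC'
      intro h3
      have h4 : t (0 : Fin 2) = t (1 : Fin 2) := h3 _ (List.mem_singleton.2 rfl)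
      obtain ⟨i, j, hij⟩ := h.2 trivial
      apply hij
      have h5 : ∀ i : Fin 2, t i = t (0 : Fin 2) := by
        intro i
        fin_cases i
        · rfl
        · exact h4.symm
      exact (h5 i).trans (h5 j).symm
    · intro h
      refine ⟨fun _ _ => trivial, fun _ => ⟨(0 : Fin 2), (1 : Fin 2), ?_⟩⟩
      intro h4
      refine h _ (List.mem_singleton.2 rfl) ?_
      intro p hp
      rw [List.mem_singleton] at hp
      subst hp
      exact h4

end Pool.Agent.Work.MP_8dbde4_lc.Phy
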