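import Pool.Agent.Work.MP_8dbde4_lc.Phy.Stmts2

/-!
Block Phy of MP_8dbde4_lc, item HMC: homogeneity by back and forth.
-/

set_option autoImplicit false
open Classical

namespace Pool.Agent.Work.MP_8dbde4_lc.Phy

open Pool.Agent.Work.MP_8dbde4_lc.TS Pool.Agent.Work.MP_8dbde4_lc.Tree

namespace XHMC

variable {c : ℚ → Bool}

/-- Finite partial isomorphisms for equality and the split relation. -/
def PI (c : ℚ → Bool) (F : Finset (Word c × Word c)) : Prop :=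
  SameOn Set.univ (fun p : {p // p ∈ F} => p.1.1) (fun p : {p // p ∈ F} => p.1.2)

theorem PI_iff (F : Finset (Word c × Word c)) : PI c F ↔
    (∀ p ∈ F, ∀ q ∈ F, (p.1 = q.1 ↔ p.2 = q.2)) ∧
      ∀ p ∈ F, ∀ q ∈ F, ∀ r ∈ F, (Cc p.1 q.1 r.1 ↔ Cc p.2 q.2 r.2) := by
  constructor
  · rintro ⟨h1, h2⟩
    refine ⟨fun p hp q hq => h1 ⟨p, hp⟩ (Set.mem_univ _) ⟨q, hq⟩ (Set.mem_univ _), ?_⟩
    intro p hp q hq r hr
    exact h2 ⟨q, hq⟩ (Set.mem_univ _) ⟨r, hr⟩ (Set.mem_univ _) ⟨p, hp⟩ (Set.mem_univ _)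
  · rintro ⟨h1, h2⟩
    refine ⟨fun p _ q _ => h1 p.1 p.2 q.1 q.2, ?_⟩
    intro p _ q _ r _
    exact h2 r.1 r.2 p.1 p.2 q.1 q.2

theorem PI_swap {F : Finset (Word c × Word c)} (h : PI c F) : PI c (F.image Prod.swap) := by
  rw [PI_iff] at h ⊢
  obtain ⟨h1, h2⟩ := h
  refine ⟨?_, ?_⟩
  · intro p hp q hq
    rw [Finset.mem_image] at hp hq
    obtain ⟨p', hp', rfl⟩ := hp
    obtain ⟨q', hq', rfl⟩ := hq
    exact (h1 p' hp' q' hq').symm
  · intro p hp q hq r hr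
    rw [Finset.mem_image] at hp hq hr
    obtain ⟨p', hp', rfl⟩ := hp
    obtain ⟨q', hq', rfl⟩ := hq
    obtain ⟨r', hr', rfl⟩ := hr
    exact (h2 p' hp' q' hq' r' hr').symm

/-- The finite partial isomorphisms. -/
abbrev PIs (c : ℚ → Bool) : Type := {F : Finset (Word c × Word c) // PI c F}

theorem ext_left (hO : S_OPC) (F : PIs c) (x : Word c) :
    ∃ F' : PIs c, F ≤ F' ∧ ∃ y, (x, y) ∈ F'.1 := by
  obtain ⟨y, hy1, hy2⟩ := hO c {p // p ∈ F.1} (fun p => p.1.1) (fun p => p.1.2) F.2 x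
  have hF : PI c (insert (x, y) F.1) := by
    have key : ∀ p ∈ insert (x, y) F.1, ∃ o : Option {p // p ∈ F.1},
        p.1 = o.elim x (fun p => p.1.1) ∧ p.2 = o.elim y (fun p => p.1.2) := by
      intro p hp
      rw [Finset.mem_insert] at hp
      rcases hp with rfl | hp
      · exact ⟨none, rfl, rfl⟩
      · exact ⟨some ⟨p, hp⟩, rfl, rfl⟩
    rw [PI_iff]
    refine ⟨?_, ?_⟩
    · intro p hp q hq
      obtain ⟨o, e1, e2⟩ := key p hp
      obtain ⟨o', e3, e4⟩ := key q hq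
      rw [e1, e2, e3, e4]
      exact hy1 o (Set.mem_univ _) o' (Set.mem_univ _)
    · intro p hp q hq r hr
      obtain ⟨o, e1, e2⟩ := key p hp
      obtain ⟨o', e3, e4⟩ := key q hq
      obtain ⟨o'', e5, e6⟩ := key r hr
      rw [e1, e2, e3, e4, e5, e6]
      exact hy2 o' (Set.mem_univ _) o'' (Set.mem_univ _) o (Set.mem_univ _)
  refine ⟨⟨insert (x, y) F.1, hF⟩, ?_, y, Finset.mem_insert_self _ _⟩
  intro p hp
  exact Finset.mem_insert_of_mem hp

theorem ext_right (hO : S_OPC) (F : PIs c) (y : Word c) :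
    ∃ F' : PIs c, F ≤ F' ∧ ∃ x, (x, y) ∈ F'.1 := by
  obtain ⟨F', hF, x, hx⟩ := ext_left hO ⟨F.1.image Prod.swap, PI_swap F.2⟩ y
  refine ⟨⟨F'.1.image Prod.swap, PI_swap F'.2⟩, ?_, x, ?_⟩
  · intro p hp
    have h1 : p.swap ∈ F'.1 := hF (Finset.mem_image_of_mem _ hp)
    have h2 := Finset.mem_image_of_mem Prod.swap h1
    rwa [Prod.swap_swap] at h2
  · exact Finset.mem_image_of_mem Prod.swap hx

/-- Back and forth. -/
theorem bf (hO : S_OPC) (hK : Countable (Word c)) (F₀ : PIs c) :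
    ∃ g : Word c ≃ Word c, (∀ p ∈ F₀.1, g p.1 = p.2) ∧
      ∀ T : Finset (Word c), PI c (T.image (fun x => (x, g x))) := by
  have := Encodable.ofCountable (Word c ⊕ Word c)
  let 𝒟 : (Word c ⊕ Word c) → Order.Cofinal (PIs c) := fun z =>
    match z with
    | .inl x => ⟨{F | ∃ y, (x, y) ∈ F.1}, fun F => by
        obtain ⟨F', h1, h2⟩ := ext_left hO F x
        exact ⟨F', h2, h1⟩⟩
    | .inr y => ⟨{F | ∃ x, (x, y) ∈ F.1}, fun F => by
        obtain ⟨F', h1, h2⟩ := ext_right hO F y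
        exact ⟨F', h2, h1⟩⟩
  let I := Order.idealOfCofinals F₀ 𝒟
  have hI0 : F₀ ∈ I := Order.mem_idealOfCofinals F₀ 𝒟
  have hdir : ∀ F ∈ I, ∀ F' ∈ I, ∃ F'' ∈ I, F ≤ F'' ∧ F' ≤ F'' := fun F hF F' hF' =>
    I.directed F hF F' hF'
  have hl : ∀ x : Word c, ∃ y, ∃ F ∈ I, (x, y) ∈ F.1 := by
    intro x
    obtain ⟨F, h1, h2⟩ := Order.cofinal_meets_idealOfCofinals F₀ 𝒟 (Sum.inl x)
    obtain ⟨y, hy⟩ := h1
    exact ⟨y, F, h2, hy⟩
  have hr : ∀ y : Word c, ∃ x, ∃ F ∈ I, (x, y) ∈ F.1 := by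
    intro y
    obtain ⟨F, h1, h2⟩ := Order.cofinal_meets_idealOfCofinals F₀ 𝒟 (Sum.inr y)
    obtain ⟨x, hx⟩ := h1
    exact ⟨x, F, h2, hx⟩
  have huniq : ∀ p q : Word c × Word c, (∃ F ∈ I, p ∈ F.1) → (∃ F ∈ I, q ∈ F.1) →
      (p.1 = q.1 ↔ p.2 = q.2) := by
    rintro p q ⟨F, hF, hp⟩ ⟨F', hF', hq⟩
    obtain ⟨F'', _, h1, h2⟩ := hdir F hF F' hF'
    exact ((PI_iff _).1 F''.2).1 p (h1 hp) q (h2 hq)
  choose g hg using hl
  choose g' hg' using hr
  refine ⟨⟨g, g', ?_, ?_⟩, ?_, ?_⟩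
  · intro x
    exact ((huniq (g' (g x), g x) (x, g x) (hg' (g x)) (hg x)).2 rfl)
  · intro y
    exact ((huniq (g' y, g (g' y)) (g' y, y) (hg (g' y)) (hg' y)).1 rfl)
  · intro p hp
    exact ((huniq (p.1, g p.1) p (hg p.1) ⟨F₀, hI0, hp⟩).1 rfl)
  · intro T
    have hT : ∃ F ∈ I, T.image (fun x => (x, g x)) ⊆ F.1 := by
      induction T using Finset.induction_on with
      | empty => exact ⟨F₀, hI0, by simp⟩
      | insert x T _ ih =>
        obtain ⟨F, hF, hT⟩ := ih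
        obtain ⟨F', hF', hx⟩ := hg x
        obtain ⟨F'', hF'', h1, h2⟩ := hdir F hF F' hF'
        refine ⟨F'', hF'', ?_⟩
        rw [Finset.image_insert]
        intro p hp
        rw [Finset.mem_insert] at hp
        rcases hp with rfl | hp
        · exact h2 hx
        · exact h1 (hT hp)
    obtain ⟨F, _, hT⟩ := hT
    have hF := (PI_iff _).1 F.2
    exact (PI_iff _).2 ⟨fun p hp q hq => hF.1 p (hT hp) q (hT hq),
      fun p hp q hq r hr => hF.2 p (hT hp) q (hT hq) r (hT hr)⟩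

end XHMC

open XHMC in
/-- Homogeneity by back and forth. -/
theorem HMC_pf (h1 : S_OPC) (h2 : S_CTB) : S_HMC := by
  intro c σ 𝔅 hInv S f hf hR
  have hF : XHMC.PI c (S.image (fun x => (x, f x))) := by
    rw [PI_iff]
    refine ⟨?_, ?_⟩
    · intro p hp q hq
      rw [Finset.mem_image] at hp hq
      obtain ⟨x, hx, rfl⟩ := hp
      obtain ⟨y, hy, rfl⟩ := hq
      exact ⟨fun h => congrArg f h, fun h => hf hx hy h⟩
    · intro p hp q hq r hr
      rw [Finset.mem_image] at hp hq hr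
      obtain ⟨x, hx, rfl⟩ := hp
      obtain ⟨y, hy, rfl⟩ := hq
      obtain ⟨z, hz, rfl⟩ := hr
      have h := hR (Sum.inr ()) (![x, y, z] : Fin 3 → Word c) (by
        intro j
        change Fin 3 at j
        fin_cases j
        · exact hx
        · exact hy
        · exact hz)
      exact h
  obtain ⟨g, hg1, hg2⟩ := bf h1 (h2 Bool c) ⟨_, hF⟩
  have hCc : ∀ (x y z : Word c), Cc x y z ↔ Cc (g x) (g y) (g z) := by
    intro x y z
    have h := ((PI_iff _).1 (hg2 {x, y, z})).2 (x, g x)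
      (Finset.mem_image_of_mem (fun x => (x, g x)) (by simp)) (y, g y)
      (Finset.mem_image_of_mem (fun x => (x, g x)) (by simp)) (z, g z)
      (Finset.mem_image_of_mem (fun x => (x, g x)) (by simp))
    exact h
  refine ⟨g, ?_, ?_⟩
  · intro R t
    match R, t with
    | .inl R, t =>
      have hs : SameOn Set.univ t (fun j => g (t j)) :=
        ⟨fun i _ j _ => g.injective.eq_iff.symm, fun i _ j _ k _ => hCc _ _ _⟩
      constructor
      · intro h
        exact hInv R t (fun j => g (t j)) hs h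
      · intro h
        exact hInv R (fun j => g (t j)) t hs.symm h
    | .inr _, t => exact hCc _ _ _
  · intro x hx
    exact hg1 (x, f x) (Finset.mem_image_of_mem (fun x => (x, f x)) hx)

end Pool.Agent.Work.MP_8dbde4_lc.Phy
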