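import Pool.Agent.Work.MP_8dbde4_lc.Phy.Stmts

/-!
Joining two tuples below a new split: see the docstring of `S_JOI`.
-/

set_option autoImplicit false
open Classical

namespace Pool.Agent.Work.MP_8dbde4_lc.Phy

open Pool.Agent.Work.MP_8dbde4_lc.TS Pool.Agent.Work.MP_8dbde4_lc.Tree

namespace XJOI

variable {c : ℚ → Bool}

/-- A place such that the words agree with `c` there and below. -/
theorem low {X : Type} [Finite X] (v : X → Word c) : ∃ q : ℚ, ∀ i, ∀ r ≤ q, (v i).1 r = c r := by
  have hfin : (⋃ i, {r | (v i).1 r ≠ c r}).Finite := Set.finite_iUnion (fun i => (v i).2)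
  obtain ⟨m, hm⟩ := hfin.bddBelow
  refine ⟨m - 1, fun i r hr => ?_⟩
  by_contra hne
  have := hm (Set.mem_iUnion.2 ⟨i, hne⟩)
  linarith

/-- Change the letter at `q`. -/
noncomputable def upd (x : Word c) (q : ℚ) (a : Bool) : Word c :=
  ⟨Function.update x.1 q a, by
    refine (x.2.union (Set.finite_singleton q)).subset (fun r hr => ?_)
    by_cases h : r = q
    · exact Or.inr h
    · left
      have hr' : Function.update x.1 q a r ≠ c r := hr
      rw [Function.update_of_ne h] at hr'
      exact hr'⟩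

theorem upd_self (x : Word c) (q : ℚ) (a : Bool) : (upd x q a).1 q = a :=
  Function.update_self _ _ _

theorem upd_ne (x : Word c) {q r : ℚ} (a : Bool) (h : r ≠ q) : (upd x q a).1 r = x.1 r :=
  Function.update_of_ne h _ _

theorem upd_agr {x y : Word c} {q : ℚ} (h : x.1 q = y.1 q) (a : Bool) (r : ℚ) :
    Agr (upd x q a) (upd y q a) r ↔ Agr x y r := by
  refine forall_congr' fun r' => forall_congr' fun _ => ?_
  by_cases h1 : r' = q
  · rw [h1, upd_self, upd_self]
    exact ⟨fun _ => h, fun _ => rfl⟩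
  · rw [upd_ne _ _ h1, upd_ne _ _ h1]

theorem upd_eq {x y : Word c} {q : ℚ} (h : x.1 q = y.1 q) (a : Bool) :
    x = y ↔ upd x q a = upd y q a := by
  refine ⟨fun h1 => congrArg (fun x => upd x q a) h1, fun h1 => ?_⟩
  apply Subtype.ext
  funext r
  by_cases h2 : r = q
  · rw [h2]
    exact h
  · have h3 : (upd x q a).1 r = (upd y q a).1 r := by rw [h1]
    rwa [upd_ne _ _ h2, upd_ne _ _ h2] at h3

theorem upd_cc {x y z : Word c} {q : ℚ} (h1 : z.1 q = x.1 q) (h2 : z.1 q = y.1 q) (a : Bool) :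
    Cc z x y ↔ Cc (upd z q a) (upd x q a) (upd y q a) := by
  constructor
  · rintro ⟨r, g1, g2, g3, g4⟩
    have g5 : r ≠ q := by
      rintro rfl
      exact g4 h1
    exact ⟨r, (upd_agr h1 a r).2 g1, (upd_agr h2 a r).2 g2,
      by rw [upd_ne _ _ g5, upd_ne _ _ g5]; exact g3,
      by rw [upd_ne _ _ g5, upd_ne _ _ g5]; exact g4⟩
  · rintro ⟨r, g1, g2, g3, g4⟩
    have g5 : r ≠ q := by
      rintro rfl
      rw [upd_self, upd_self] at g4
      exact g4 rfl
    rw [upd_ne _ _ g5, upd_ne _ _ g5] at g3 g4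
    exact ⟨r, (upd_agr h1 a r).1 g1, (upd_agr h2 a r).1 g2, g3, g4⟩

end XJOI

open XJOI in
theorem JOI_pf : S_JOI := by
  intro c X _ u₀ u₁ h
  obtain ⟨q, hq⟩ := low (Sum.elim u₀ u₁)
  have h0 : ∀ x, ∀ r ≤ q, (u₀ x).1 r = c r := fun x => hq (Sum.inl x)
  have h1 : ∀ x, ∀ r ≤ q, (u₁ x).1 r = c r := fun x => hq (Sum.inr x)
  have hw : ∀ x, ∀ r ≤ q, (if h x then u₁ x else u₀ x : Word c).1 r = c r := by
    intro x r hr
    by_cases hx : h x = true
    · rw [if_pos hx]
      exact h1 x r hr
    · rw [if_neg hx]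
      exact h0 x r hr
  refine ⟨fun x => upd (if h x then u₁ x else u₀ x) q (h x), ?_, ?_, ?_⟩
  · intro x y z hxy hzx
    have hagr : ∀ a b : X, Agr (upd (if h a then u₁ a else u₀ a) q (h a))
        (upd (if h b then u₁ b else u₀ b) q (h b)) q := by
      intro a b r hr
      rw [upd_ne _ _ hr.ne, upd_ne _ _ hr.ne, hw a r hr.le, hw b r hr.le]
    refine ⟨q, hagr z x, hagr z y, ?_, ?_⟩
    · rw [upd_self, upd_self]
      exact hxy
    · rw [upd_self, upd_self]
      exact hzx
  · have hu : ∀ x ∈ {x | h x = false},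
        upd (if h x then u₁ x else u₀ x) q (h x) = upd (u₀ x) q false := by
      intro x hx
      have hx' : h x = false := hx
      rw [hx', if_neg (by simp)]
    have he : ∀ x y, (u₀ x).1 q = (u₀ y).1 q := fun x y => by
      rw [h0 x q le_rfl, h0 y q le_rfl]
    refine ⟨fun x hx y hy => ?_, fun x hx y hy z hz => ?_⟩
    · beta_reduce
      rw [hu x hx, hu y hy]
      exact upd_eq (he x y) false
    · beta_reduce
      rw [hu x hx, hu y hy, hu z hz]
      exact upd_cc (he z x) (he z y) false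
  · have hu : ∀ x ∈ {x | h x = true},
        upd (if h x then u₁ x else u₀ x) q (h x) = upd (u₁ x) q true := by
      intro x hx
      have hx' : h x = true := hx
      rw [hx', if_pos rfl]
    have he : ∀ x y, (u₁ x).1 q = (u₁ y).1 q := fun x y => by
      rw [h1 x q le_rfl, h1 y q le_rfl]
    refine ⟨fun x hx y hy => ?_, fun x hx y hy z hz => ?_⟩
    · beta_reduce
      rw [hu x hx, hu y hy]
      exact upd_eq (he x y) true
    · beta_reduce
      rw [hu x hx, hu y hy, hu z hz]
      exact upd_cc (he z x) (he z y) true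

end Pool.Agent.Work.MP_8dbde4_lc.Phy
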