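import Pool.Agent.Work.MP_8dbde4_lc.Phy.Stmts

/-!
The assembly of the engine: see the docstring of `S_KPF`.
-/

set_option autoImplicit false
open Classical

namespace Pool.Agent.Work.MP_8dbde4_lc.Phy

open Pool.Agent.Work.MP_8dbde4_lc.TS Pool.Agent.Work.MP_8dbde4_lc.Tree

namespace XKPF

theorem finiteTI (G : Type) [Finite G] (p : ℕ) [NeZero p] (T : Type) [Finite T] (n : ℕ) :
    Finite (TI G p T n) := by
  refine Finite.of_injective
    (β := (G × ZMod p × ZMod p × T × Fin n) ⊕ ((G × ZMod p × ZMod p × ZMod p) ⊕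
      ((G × ZMod p × ZMod p × ZMod p) ⊕ ((G × ZMod p × ZMod p × ZMod p) ⊕
        (G × ZMod p × ZMod p × ZMod p)))))
    (fun x => match x with
      | .f v α β t j => Sum.inl (v, α, β, t, j)
      | .u v α β s => Sum.inr (Sum.inl (v, α, β, s))
      | .x v α β s => Sum.inr (Sum.inr (Sum.inl (v, α, β, s)))
      | .y v α β s => Sum.inr (Sum.inr (Sum.inr (Sum.inl (v, α, β, s))))
      | .z v α β s => Sum.inr (Sum.inr (Sum.inr (Sum.inr (v, α, β, s))))) ?_
  intro x y hxy
  cases x <;> cases y <;> simp at hxy ⊢ <;> exact hxy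

theorem finiteEE (G : Type) [Finite G] (p : ℕ) [NeZero p] (I T : Type) [Finite I] [Finite T]
    (n : ℕ) (D DC : Type) [Finite D] [Finite DC] : Finite (EE G p I T n D DC) := by
  have := finiteTI G p T n
  refine Finite.of_injective
    (β := (G × ZMod p) ⊕ ((G × ZMod p × ZMod p × (I → Bool)) ⊕
      ((G × ZMod p × ZMod p × T × D) ⊕ (TI G p T n × DC))))
    (fun x => match x with
      | .main v s => Sum.inl (v, s)
      | .site v α β t => Sum.inr (Sum.inl (v, α, β, t))
      | .fr v α β t d => Sum.inr (Sum.inr (Sum.inl (v, α, β, t, d)))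
      | .tf τ d => Sum.inr (Sum.inr (Sum.inr (τ, d)))) ?_
  intro x y hxy
  cases x <;> cases y <;> simp at hxy ⊢ <;> exact hxy

theorem pf_not {c : ℚ → Bool} {n : ℕ} {S : (Fin n → Word c) → Prop} {q : Fin n → Bool}
    (hq : (pf S).P () q) : (pf S).P () (fun j => !q j) := by
  rcases hq with hq | ⟨v, hv, hs⟩
  · exact Or.inl (fun i j => congrArg (fun b : Bool => !b) (hq i j))
  · exact Or.inr ⟨v, hv, hs.not⟩

theorem meet_ft (x y : Bool) : meet false true x y = (x && y) := by
  unfold meet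
  cases x <;> cases y <;> simp

theorem meet_tf (x y : Bool) : meet true false x y = (x || y) := by
  unfold meet
  cases x <;> cases y <;> simp

end XKPF

open XKPF in
theorem KPF_pf : S_KPF := by
  intro hGame hPG hDen hGad hTwin hInv hSAT hSA0 hUN1 hBFP c σ 𝔅 hL hFPC n S hS h h' hh hh' hnc
  by_contra hno
  have hPh : (pf S).P () h := Or.inr hh
  have hPh' : (pf S).P () h' := Or.inr hh'
  have hand : ¬ (pf S).P () (fun x => h x && h' x) := by
    rintro (h1 | h1)
    · obtain ⟨x, y, hxy⟩ := hnc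
      exact hxy (h1 x y)
    · exact hno h1
  have hMin : (pf S).Min := by
    refine ⟨⟨true, false, by simp⟩, ?_⟩
    intro f _
    by_cases hf : f true = f false
    · right
      refine ⟨f false, ?_⟩
      intro x
      cases x
      · rfl
      · exact hf
    · left
      intro x y hxy
      cases x <;> cases y
      · rfl
      · exact absurd hxy.symm hf
      · exact absurd hxy hf
      · rfl
  have hTP : TP (pf S) := by
    by_contra hTP
    obtain ⟨a, b, hab, _, hmeet⟩ := hTwin (sg n) Bool (pf S) hMin hTP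
    have hcl : ∀ q q' : Fin n → Bool, (pf S).P () q → (pf S).P () q' →
        (pf S).P () (fun j => meet a b (q j) (q' j)) := fun q q' h1 h2 => hmeet () q q' h1 h2
    cases a <;> cases b
    · exact hab rfl
    · apply hand
      have h1 := hcl h h' hPh hPh'
      have h2 : (fun j => meet false true (h j) (h' j)) = fun j => (h j && h' j) := by
        funext j
        exact meet_ft _ _
      exact Eq.mp (congrArg (fun q : Fin n → Bool => (pf S).P () q) h2) h1
    · apply hand
      have h1 := pf_not (hcl _ _ (pf_not hPh) (pf_not hPh'))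
      have h2 : (fun j => !(meet true false (!h j) (!h' j))) = fun j => (h j && h' j) := by
        funext j
        rw [meet_tf]
        cases h j <;> cases h' j <;> rfl
      exact Eq.mp (congrArg (fun q : Fin n → Bool => (pf S).P () q) h2) h1
    · exact hab rfl
  obtain ⟨p, I, Δ, hp, hI, hΔ⟩ := hGad (sg n) Bool (pf S) hMin hTP
  have hpz : NeZero p := ⟨hp.ne_zero⟩
  have hInvS : Inv S := hInv c σ 𝔅 hL (Fin n) S hS
  have hex : ∃ v, S v := ⟨hh.choose, hh.choose_spec.1⟩
  obtain ⟨D, hDf, 𝔇, m, hm⟩ := hS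
  obtain ⟨DC, hDCf, ℭ, mC, hmC⟩ := hL.ppC
  refine hGame σ (CSP 𝔅) ?_ hFPC
  intro k
  obtain ⟨G, _, hGf, g₁, g₂, hG, hw⟩ := hPG p (2 * (3 * k + 5)) hp
  have hDn : Den (row g₁ g₂) (3 * k + 5) := hDen G g₁ g₂ (3 * k + 5) hw
  have hrow : ∀ v : G, (row g₁ g₂ v).card = 3 := by
    intro v
    have h1 := hDn {v} (Finset.singleton_nonempty v) (by simp)
    rw [Finset.singleton_biUnion, Finset.card_singleton] at h1
    have h2 : (row g₁ g₂ v).card ≤ 3 := Finset.card_le_three
    omega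
  obtain ⟨Z, hZ1, hZ2⟩ := hBFP σ G g₁ g₂ p n I (CT S I) D DC 𝔇 m ℭ mC Δ (fun t => t.1) k
    hp hrow hDn
  have hT : Finite (CT S I) := by
    unfold CT
    infer_instance
  have hfin : Finite (EE G p I (CT S I) n D DC) := finiteEE G p I (CT S I) n D DC
  refine ⟨EE G p I (CT S I) n D DC, EE G p I (CT S I) n D DC, hfin, hfin,
    JP 𝔇 m ℭ mC Δ (fun t => t.1) g₁ g₂ 0, JP 𝔇 m ℭ mC Δ (fun t => t.1) g₁ g₂ 1, Z, hZ1, hZ2,
    ?_, ?_⟩
  · exact (hSAT c σ 𝔅 n S D 𝔇 m hm DC ℭ mC hmC G g₁ g₂ p I (CT S I) Δ (fun t => t.1) 0).2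
      (hSA0 c n S hInvS hex G g₁ g₂ p I Δ hΔ)
  · intro hc
    exact hUN1 c n S G g₁ g₂ p I Δ hp hG hΔ
      ((hSAT c σ 𝔅 n S D 𝔇 m hm DC ℭ mC hmC G g₁ g₂ p I (CT S I) Δ (fun t => t.1) 1).1 hc)

end Pool.Agent.Work.MP_8dbde4_lc.Phy
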