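import Pool.Agent.Work.MP_8dbde4_lc.Phy.Stmts2

set_option autoImplicit false
open Classical

/-!
# MP_8dbde4_lc, block PH, item KPX: general index sets
-/

namespace Pool.Agent.Work.MP_8dbde4_lc.Phy

open Pool.Agent.Work.MP_8dbde4_lc.TS Pool.Agent.Work.MP_8dbde4_lc.Tree

namespace XKPX

theorem spl_iff {c : ℚ → Bool} {X : Type} {Y : Set X} {n : ℕ} (e : Fin n ≃ Y) (v : X → Word c)
    (h : X → Bool) :
    Spl Y v h ↔ Spl Set.univ (fun i => v (e i : X)) (fun i => h (e i : X)) := by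
  constructor
  · rintro ⟨⟨x, hx, y, hy, hxy⟩, H⟩
    refine ⟨⟨e.symm ⟨x, hx⟩, trivial, e.symm ⟨y, hy⟩, trivial, by simpa using hxy⟩, ?_⟩
    intro x _ y _ z _ h1 h2
    exact H _ (e x).2 _ (e y).2 _ (e z).2 h1 h2
  · rintro ⟨⟨x, _, y, _, hxy⟩, H⟩
    refine ⟨⟨(e x : X), (e x).2, (e y : X), (e y).2, hxy⟩, ?_⟩
    intro x hx y hy z hz h1 h2
    have := H (e.symm ⟨x, hx⟩) trivial (e.symm ⟨y, hy⟩) trivial (e.symm ⟨z, hz⟩) trivial
      (by simpa using h1) (by simpa using h2)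
    simpa using this

end XKPX

open XKPX in
theorem KPX_pf (hPPB : S_PPB) : S_KPX := by
  intro c σ 𝔅 hK X _ S hS Y h h' hv hv' hne
  obtain ⟨n, ⟨e⟩⟩ := Finite.exists_equiv_fin Y
  have hPP := (hPPB σ (Word c) 𝔅).2.2.2.1 X (Fin n) S (fun i => (e.symm i : X)) hS
  obtain ⟨v, hv1, hv2⟩ := hv
  obtain ⟨v', hv1', hv2'⟩ := hv'
  obtain ⟨x, hx, y, hy, hxy⟩ := hne
  obtain ⟨u, ⟨w, hw, huw⟩, hu⟩ := hK n _ hPP (fun i => h (e.symm i : X))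
    (fun i => h' (e.symm i : X))
    ⟨fun i => v (e.symm i : X), ⟨v, hv1, fun _ => rfl⟩, (spl_iff e.symm v h).1 hv2⟩
    ⟨fun i => v' (e.symm i : X), ⟨v', hv1', fun _ => rfl⟩, (spl_iff e.symm v' h').1 hv2'⟩
    ⟨e ⟨x, hx⟩, e ⟨y, hy⟩, by simpa using hxy⟩
  refine ⟨w, hw, (spl_iff e.symm w _).2 ?_⟩
  have : u = fun i => w (e.symm i : X) := funext huw
  rw [this] at hu
  exact hu

end Pool.Agent.Work.MP_8dbde4_lc.Phy
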