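import Pool.Agent.Work.MP_8dbde4_lc.Phy.Stmts2

/-!
First-split languages with patterns closed under complement have an injective binary polymorphism
(S_LEX).
-/

set_option autoImplicit false
open Classical

namespace Pool.Agent.Work.MP_8dbde4_lc.Phy

open Pool.Agent.Work.MP_8dbde4_lc.TS Pool.Agent.Work.MP_8dbde4_lc.Tree

namespace XLEX

/-- An increasing map from the rationals to the negative rationals. -/
def ps (q : ℚ) : ℚ := if 0 ≤ q then -(1 / (1 + q)) else q - 1

theorem ps_neg (q : ℚ) : ps q < 0 := by
  unfold ps
  split_ifs with h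
  · have : 0 < 1 / (1 + q) := by positivity
    linarith
  · linarith

theorem ps_mono : StrictMono ps := by
  intro a b hab
  unfold ps
  split_ifs with h1 h2 h2
  · have : 1 / (1 + b) < 1 / (1 + a) := one_div_lt_one_div_of_lt (by linarith) (by linarith)
    linarith
  · exfalso; linarith
  · have : 1 / (1 + b) ≤ 1 := by
      rw [div_le_one (by linarith)]
      linarith
    push Not at h1
    linarith
  · linarith

/-- An increasing map from the rationals to the positive rationals. -/
def pt (q : ℚ) : ℚ := -ps (-q)

theorem pt_pos (q : ℚ) : 0 < pt q := by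
  unfold pt
  have := ps_neg (-q)
  linarith

theorem pt_mono : StrictMono pt := by
  intro a b hab
  unfold pt
  have : ps (-b) < ps (-a) := ps_mono (by linarith)
  linarith

theorem pt_ne (q : ℚ) : ¬ ∃ a, ps a = pt q := by
  rintro ⟨a, ha⟩
  have h1 := ps_neg a
  have h2 := pt_pos q
  rw [ha] at h1
  linarith

variable (c : ℚ → Bool)

/-- The letters of the image. -/
noncomputable def gl (x y : ℚ → Bool) : ℚ → Bool :=
  Function.extend ps (fun q => c (ps q) ^^ (x q ^^ c q))
    (Function.extend pt (fun q => c (pt q) ^^ (y q ^^ c q)) c)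

theorem gl_ps (x y : ℚ → Bool) (q : ℚ) : gl c x y (ps q) = (c (ps q) ^^ (x q ^^ c q)) := by
  unfold gl
  rw [ps_mono.injective.extend_apply]

theorem gl_pt (x y : ℚ → Bool) (q : ℚ) : gl c x y (pt q) = (c (pt q) ^^ (y q ^^ c q)) := by
  unfold gl
  rw [Function.extend_apply' _ _ _ (pt_ne q), pt_mono.injective.extend_apply]

theorem gl_other (x y : ℚ → Bool) (q : ℚ) (h1 : ¬ ∃ a, ps a = q) (h2 : ¬ ∃ a, pt a = q) :
    gl c x y q = c q := by
  unfold gl
  rw [Function.extend_apply' _ _ _ h1, Function.extend_apply' _ _ _ h2]

theorem gl_fin (x y : Word c) : {q | gl c x.1 y.1 q ≠ c q}.Finite := by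
  refine ((x.2.image ps).union (y.2.image pt)).subset ?_
  intro q hq
  have hq' : gl c x.1 y.1 q ≠ c q := hq
  by_cases h1 : ∃ a, ps a = q
  · obtain ⟨a, rfl⟩ := h1
    left
    refine ⟨a, ?_, rfl⟩
    intro h
    apply hq'
    rw [gl_ps, h]
    simp
  · by_cases h2 : ∃ a, pt a = q
    · obtain ⟨a, rfl⟩ := h2
      right
      refine ⟨a, ?_, rfl⟩
      intro h
      apply hq'
      rw [gl_pt, h]
      simp
    · exact absurd (gl_other c x.1 y.1 q h1 h2) hq'

/-- The binary operation. -/
noncomputable def gg (x : Fin 2 → Word c) : Word c :=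
  ⟨gl c (x 0).1 (x 1).1, gl_fin c (x 0) (x 1)⟩

theorem gg_inj : Function.Injective (gg c) := by
  intro x y hxy
  have h : ∀ q, gl c (x 0).1 (x 1).1 q = gl c (y 0).1 (y 1).1 q := by
    intro q
    exact congrFun (congrArg Subtype.val hxy) q
  have h0 : x 0 = y 0 := by
    apply Subtype.ext
    funext q
    have := h (ps q)
    rw [gl_ps, gl_ps] at this
    simpa using this
  have h1 : x 1 = y 1 := by
    apply Subtype.ext
    funext q
    have := h (pt q)
    rw [gl_pt, gl_pt] at this
    simpa using this
  funext i
  fin_cases i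
  · exact h0
  · exact h1

end XLEX

open XLEX in
theorem LEX_pf : S_LEX := by
  intro c
  refine ⟨gg c, gg_inj c, ?_⟩
  intro σ L hL R t ht
  constructor
  · intro q hq
    obtain ⟨hq1, i₀, j₀, hij⟩ := hq
    -- the pattern of `g` is the pattern of `t k` at some place or its complement
    have key : ∀ (k : Fin 2) (q' : ℚ) (e : ℚ → ℚ), StrictMono e → e q' = q →
        (∀ (a : ℚ) (j : Fin (σ.ar R)), (gg c (fun i => t i j)).1 (e a) =
          (c (e a) ^^ ((t k j).1 a ^^ c a))) →
        L.P R (fun j => (gg c (fun i => t i j)).1 q) := by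
      intro k q' e he hq' hval
      have hfs : FirstSplit (t k) q' := by
        constructor
        · intro q'' hq'' i j
          have h1 := hq1 (e q'') (by rw [← hq']; exact he hq'') i j
          rw [hval, hval] at h1
          simpa using h1
        · refine ⟨i₀, j₀, ?_⟩
          intro h
          apply hij
          rw [← hq', hval, hval, h]
      have hP := (ht k).1 q' hfs
      have hval' : ∀ j, (gg c (fun i => t i j)).1 q = ((t k j).1 q' ^^ (c q ^^ c q')) := by
        intro j
        rw [← hq', hval]
        cases c (e q') <;> cases (t k j).1 q' <;> cases c q' <;> rfl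
      cases hcc : (c q ^^ c q') with
      | false =>
        have : (fun j => (gg c (fun i => t i j)).1 q) = fun j => (t k j).1 q' := by
          funext j
          rw [hval', hcc]
          simp
        rw [this]
        exact hP
      | true =>
        have : (fun j => (gg c (fun i => t i j)).1 q) = fun j => !((t k j).1 q') := by
          funext j
          rw [hval', hcc]
          simp
        rw [this]
        exact hL R _ hP
    by_cases h1 : ∃ a, ps a = q
    · obtain ⟨a, ha⟩ := h1
      exact key 0 a ps ps_mono ha (fun a j => gl_ps c _ _ a)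
    · by_cases h2 : ∃ a, pt a = q
      · obtain ⟨a, ha⟩ := h2
        exact key 1 a pt pt_mono ha (fun a j => gl_pt c _ _ a)
      · exfalso
        apply hij
        show gl c _ _ q = gl c _ _ q
        rw [gl_other c _ _ q h1 h2, gl_other c _ _ q h1 h2]
  · intro hs
    obtain ⟨i, j, hij⟩ := (ht 0).2 hs
    refine ⟨i, j, ?_⟩
    intro h
    apply hij
    exact congrFun (gg_inj c h) 0

end Pool.Agent.Work.MP_8dbde4_lc.Phy
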