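import Pool.Agent.Work.MP_8dbde4_lc.Phy.Stmts

set_option autoImplicit false
open Classical

namespace Pool.Agent.Work.MP_8dbde4_lc.Phy

open Pool.Agent.Work.MP_8dbde4_lc.TS Pool.Agent.Work.MP_8dbde4_lc.Tree

namespace XMVA

variable {c : ℚ → Bool}

theorem exists_place {X : Type} [Finite X] (J : Set X) (w : X → Word c) (q : ℚ)
    (h : ∀ x ∈ J, ∀ y ∈ J, ∀ s ≤ q, (w x).1 s = (w y).1 s) :
    ∃ r, q < r ∧ ∀ x ∈ J, ∀ y ∈ J, ∀ s ≤ r, (w x).1 s = (w y).1 s := by
  have hD : (⋃ x : X, {s : ℚ | (w x).1 s ≠ c s}).Finite :=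
    Set.finite_iUnion fun x => (w x).2
  have key : ∃ r, q < r ∧ ∀ s ∈ (⋃ x : X, {s : ℚ | (w x).1 s ≠ c s}), q < s → r < s := by
    set F := hD.toFinset.filter (fun s => q < s) with hF
    by_cases hn : F.Nonempty
    · have hm : q < F.min' hn := by
        have h1 : F.min' hn ∈ hD.toFinset.filter (fun s => q < s) := F.min'_mem hn
        exact (Finset.mem_filter.1 h1).2
      refine ⟨(q + F.min' hn) / 2, by linarith, ?_⟩
      intro s hs hqs
      have h2 : F.min' hn ≤ s := by
        apply Finset.min'_le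
        rw [hF, Finset.mem_filter]
        exact ⟨hD.mem_toFinset.2 hs, hqs⟩
      linarith
    · refine ⟨q + 1, by linarith, ?_⟩
      intro s hs hqs
      exfalso
      apply hn
      refine ⟨s, ?_⟩
      rw [hF, Finset.mem_filter]
      exact ⟨hD.mem_toFinset.2 hs, hqs⟩
  obtain ⟨r, hr, hr2⟩ := key
  refine ⟨r, hr, ?_⟩
  intro x hx y hy s hs
  by_cases hsq : s ≤ q
  · exact h x hx y hy s hsq
  · push Not at hsq
    have h1 : ∀ z : X, (w z).1 s = c s := by
      intro z
      by_contra hne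
      have h2 := hr2 s (Set.mem_iUnion.2 ⟨z, hne⟩) hsq
      linarith
    rw [h1 x, h1 y]

theorem cc_ne {z x y : Word c} (h : Cc z x y) : z ≠ x ∧ z ≠ y := by
  obtain ⟨q, _, _, h1, h2⟩ := h
  constructor
  · rintro rfl
    exact h2 rfl
  · rintro rfl
    exact h2 h1.symm

theorem exists_diff (x y : Word c) (h : x ≠ y) : ∃ q, Agr x y q ∧ x.1 q ≠ y.1 q := by
  have hD : {s : ℚ | x.1 s ≠ y.1 s}.Finite := by
    refine (x.2.union y.2).subset ?_
    intro s hs
    by_contra hcon
    rw [Set.mem_union, not_or] at hcon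
    obtain ⟨h1, h2⟩ := hcon
    have h1' : x.1 s = c s := not_not.1 h1
    have h2' : y.1 s = c s := not_not.1 h2
    exact hs (h1'.trans h2'.symm)
  have hne : hD.toFinset.Nonempty := by
    by_contra hcon
    apply h
    apply Subtype.ext
    funext s
    by_contra hs
    apply hcon
    exact ⟨s, hD.mem_toFinset.2 hs⟩
  refine ⟨hD.toFinset.min' hne, ?_, ?_⟩
  · intro q' hq'
    by_contra hs
    have := Finset.min'_le hD.toFinset q' (hD.mem_toFinset.2 hs)
    exact absurd hq' (not_lt.2 this)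
  · have := hD.toFinset.min'_mem hne
    exact hD.mem_toFinset.1 this

theorem cc_same {z x : Word c} (h : z ≠ x) : Cc z x x := by
  obtain ⟨q, h1, h2⟩ := exists_diff z x h
  exact ⟨q, h1, h1, rfl, h2⟩

/-- The word for the new point. -/
theorem exists_e (h1 : S_PLC) {X : Type} [Finite X] (Y : Set X) (p : X → Bool)
    (w : X → Word c) (hw : Spl Y w p) (j₀ : X) (hj : j₀ ∈ Y) (hp : p j₀ = true) :
    ∃ e : Word c, (∀ i ∈ Y, p i = false → ∀ j ∈ Y, p j = true → Cc (w i) e (w j)) ∧
      ∀ j ∈ Y, p j = true → ∀ j' ∈ Y, p j' = true → Cc e (w j) (w j') := by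
  obtain ⟨_, q, hq1, hq2⟩ := (h1 c X Y w p).1 hw
  obtain ⟨r, hr, hr2⟩ := exists_place {x | x ∈ Y ∧ p x = true} w q (by
    intro x hx y hy s hs
    rcases lt_or_eq_of_le hs with h | h
    · exact hq1 x hx.1 y hy.1 s h
    · rw [h]
      exact (hq2 x hx.1 y hy.1).2 (hx.2.trans hy.2.symm))
  set e0 : ℚ → Bool := fun s => if s = r then !(w j₀).1 r else (w j₀).1 s with he0
  have hfin : {s | e0 s ≠ c s}.Finite := by
    refine ((w j₀).2.union (Set.finite_singleton r)).subset ?_
    intro s hs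
    by_cases hsr : s = r
    · right
      exact hsr
    · left
      have hs' : e0 s ≠ c s := hs
      simp only [he0, if_neg hsr] at hs'
      exact hs'
  have hlow : ∀ s < r, e0 s = (w j₀).1 s := fun s hs => by
    simp only [he0, if_neg hs.ne]
  refine ⟨⟨e0, hfin⟩, ?_, ?_⟩
  · intro i hi hpi j hj' hpj
    refine ⟨q, ?_, hq1 i hi j hj', ?_, ?_⟩
    · intro s hs
      show (w i).1 s = e0 s
      rw [hlow s (hs.trans hr)]
      exact hq1 i hi j₀ hj s hs
    · show e0 q = (w j).1 q
      rw [hlow q hr]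
      exact hr2 j₀ ⟨hj, hp⟩ j ⟨hj', hpj⟩ q hr.le
    · show (w i).1 q ≠ e0 q
      rw [hlow q hr]
      intro h
      have := (hq2 i hi j₀ hj).1 h
      rw [hpi, hp] at this
      exact Bool.noConfusion this
  · intro j hj1 hpj j' hj' hpj'
    refine ⟨r, ?_, ?_, hr2 j ⟨hj1, hpj⟩ j' ⟨hj', hpj'⟩ r le_rfl, ?_⟩
    · intro s hs
      show e0 s = (w j).1 s
      rw [hlow s hs]
      exact hr2 j₀ ⟨hj, hp⟩ j ⟨hj1, hpj⟩ s hs.le
    · intro s hs
      show e0 s = (w j').1 s
      rw [hlow s hs]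
      exact hr2 j₀ ⟨hj, hp⟩ j' ⟨hj', hpj'⟩ s hs.le
    · show e0 r ≠ (w j).1 r
      have h3 : e0 r = !(w j₀).1 r := by simp only [he0, if_true]
      rw [h3, hr2 j ⟨hj1, hpj⟩ j₀ ⟨hj, hp⟩ r le_rfl]
      simp

/-- Two pairs of different points have the same splits. -/
theorem same_pair {W : Type} (A B : W → Word c) (x y : W) (Z : Set W)
    (hZ : ∀ z ∈ Z, z = x ∨ z = y) (hA : A x ≠ A y) (hB : B x ≠ B y) : SameOn Z A B := by
  have key : ∀ (V : W → Word c), V x ≠ V y → ∀ u ∈ Z, ∀ v ∈ Z, ∀ t ∈ Z,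
      (V u = V v ↔ u = v) ∧ (Cc (V t) (V u) (V v) ↔ (u = v ∧ t ≠ u)) := by
    intro V hV u hu v hv t ht
    have e1 : ∀ a ∈ Z, ∀ b ∈ Z, (V a = V b ↔ a = b) := by
      intro a ha b hb
      constructor
      · intro h
        rcases hZ a ha with rfl | rfl <;> rcases hZ b hb with rfl | rfl
        · rfl
        · exact absurd h hV
        · exact absurd h.symm hV
        · rfl
      · rintro rfl
        rfl
    refine ⟨e1 u hu v hv, ?_⟩
    constructor
    · intro h
      obtain ⟨n1, n2⟩ := cc_ne h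
      have n1' : t ≠ u := fun h3 => n1 (by rw [h3])
      have n2' : t ≠ v := fun h3 => n2 (by rw [h3])
      refine ⟨?_, n1'⟩
      rcases hZ t ht with rfl | rfl
      · rcases hZ u hu with rfl | rfl
        · exact absurd rfl n1'
        · rcases hZ v hv with rfl | rfl
          · exact absurd rfl n2'
          · rfl
      · rcases hZ u hu with rfl | rfl
        · rcases hZ v hv with rfl | rfl
          · rfl
          · exact absurd rfl n2'
        · exact absurd rfl n1'
    · rintro ⟨rfl, h2⟩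
      exact cc_same (fun h3 => h2 ((e1 t ht u hu).1 h3))
  constructor
  · intro u hu v hv
    rw [(key A hA u hu v hv u hu).1, (key B hB u hu v hv u hu).1]
  · intro u hu v hv t ht
    rw [(key A hA u hu v hv t ht).2, (key B hB u hu v hv t ht).2]

end XMVA

open XMVA in
theorem MVA_pf (h1 : S_PLC) (h2 : S_GLU) (h3 : S_AMA) : S_MVA := by
  intro c X _ S Y p q' hS w₀ w₁ hw₀ hsp hw₁ a b ha hb hab
  -- the two points
  obtain ⟨j₁, hj₁, j₀, hj₀, hq1, hq0⟩ : ∃ j₁ ∈ {x | x ∈ Y ∧ p x = true},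
      ∃ j₀ ∈ {x | x ∈ Y ∧ p x = true}, q' j₁ = true ∧ q' j₀ = false := by
    obtain ⟨⟨x, hx, y, hy, hxy⟩, _⟩ := hsp
    cases hx' : q' x with
    | true =>
      refine ⟨x, hx, y, hy, hx', ?_⟩
      cases hy' : q' y with
      | true => exact absurd (hx'.trans hy'.symm) hxy
      | false => rfl
    | false =>
      refine ⟨y, hy, x, hx, ?_, hx'⟩
      cases hy' : q' y with
      | true => rfl
      | false => exact absurd (hx'.trans hy'.symm) hxy
  obtain ⟨hj₁Y, hj₁p⟩ := hj₁
  obtain ⟨hj₀Y, hj₀p⟩ := hj₀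
  have hS0 := hS w₀ hw₀
  have hS1 := hS w₁ hw₁
  obtain ⟨e, he1, he2⟩ := exists_e h1 Y p w₁ hS1 j₀ hj₀Y hj₀p
  obtain ⟨_, q₁, hq₁a, hq₁b⟩ := (h1 c X _ w₀ q').1 hsp
  have hne0 : w₀ j₁ ≠ w₀ j₀ := by
    intro h
    have h4 := (hq₁b j₁ ⟨hj₁Y, hj₁p⟩ j₀ ⟨hj₀Y, hj₀p⟩).1 (by rw [h])
    rw [hq1, hq0] at h4
    exact Bool.noConfusion h4
  have hne1 : e ≠ w₁ j₀ := (cc_ne (he2 j₀ hj₀Y hj₀p j₀ hj₀Y hj₀p)).1
  -- amalgamation
  set A : Fin 3 ⊕ Bool → Word c :=
    Sum.elim (fun k => w₀ (a k)) (fun t => if t then w₀ j₁ else w₀ j₀) with hA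
  set B : Fin 3 ⊕ Bool → Option X :=
    Sum.elim (fun k => some (b k)) (fun t => if t then none else some j₀) with hB
  have hsame : SameOn Set.univ A (fun k => (fun o : Option X => o.elim e w₁) (B k)) := by
    refine h2 c (Fin 3 ⊕ Bool) Set.univ A _ (Sum.elim (fun _ => false) (fun _ => true)) ?_ ?_ ?_ ?_
    · -- first split of `A`
      refine ⟨⟨.inl 0, trivial, .inr true, trivial, by simp⟩, ?_⟩
      intro x _ y _ z _ hxy hzx
      match x, y, z, hxy, hzx with
      | .inl x, .inl y, .inr true, _, _ =>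
        exact hS0.2 (a x) (ha x).1 (a y) (ha y).1 j₁ hj₁Y ((ha x).2.trans (ha y).2.symm)
          (by rw [hj₁p, (ha x).2]; simp)
      | .inl x, .inl y, .inr false, _, _ =>
        exact hS0.2 (a x) (ha x).1 (a y) (ha y).1 j₀ hj₀Y ((ha x).2.trans (ha y).2.symm)
          (by rw [hj₀p, (ha x).2]; simp)
      | .inr x, .inr y, .inl z, _, _ =>
        have key : ∀ u v : X, u ∈ Y → p u = true → v ∈ Y → p v = true →
            Cc (w₀ (a z)) (w₀ u) (w₀ v) := by
          intro u v hu hpu hv hpv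
          exact hS0.2 u hu v hv (a z) (ha z).1 (hpu.trans hpv.symm)
            (by rw [hpu, (ha z).2]; simp)
        match x, y with
        | true, true => exact key j₁ j₁ hj₁Y hj₁p hj₁Y hj₁p
        | true, false => exact key j₁ j₀ hj₁Y hj₁p hj₀Y hj₀p
        | false, true => exact key j₀ j₁ hj₀Y hj₀p hj₁Y hj₁p
        | false, false => exact key j₀ j₀ hj₀Y hj₀p hj₀Y hj₀p
      | .inl x, .inr y, _, h, _ => exact absurd h (by simp)
      | .inr x, .inl y, _, h, _ => exact absurd h (by simp)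
      | .inl x, .inl y, .inl z, _, h => exact absurd rfl h
      | .inr x, .inr y, .inr z, _, h => exact absurd rfl h
    · refine ⟨⟨.inl 0, trivial, .inr true, trivial, by simp⟩, ?_⟩
      intro x _ y _ z _ hxy hzx
      match x, y, z, hxy, hzx with
      | .inl x, .inl y, .inr true, _, _ =>
        show Cc e (w₁ (b x)) (w₁ (b y))
        -- `e` splits off from the side `I`
        have h5 := he1 (b x) (hb x).1 (hb x).2 j₀ hj₀Y hj₀p
        have h6 := hS1.2 (b x) (hb x).1 (b y) (hb y).1 j₀ hj₀Y ((hb x).2.trans (hb y).2.symm)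
          (by rw [hj₀p, (hb x).2]; simp)
        obtain ⟨s, s1, s2, s3, s4⟩ := h5
        obtain ⟨t, t1, t2, t3, t4⟩ := h6
        have hst : s = t := by
          rcases lt_trichotomy s t with h | h | h
          · exfalso
            apply s4
            rw [s3]
            exact (t1 s h).symm
          · exact h
          · exfalso
            apply t4
            exact (s2 t h).symm
        subst hst
        refine ⟨s, ?_, ?_, t3, ?_⟩
        · intro s' hs'
          exact (s1 s' hs').symm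
        · intro s' hs'
          rw [← s1 s' hs', s2 s' hs']
          exact t2 s' hs'
        · rw [s3]
          exact t4
      | .inl x, .inl y, .inr false, _, _ =>
        exact hS1.2 (b x) (hb x).1 (b y) (hb y).1 j₀ hj₀Y ((hb x).2.trans (hb y).2.symm)
          (by rw [hj₀p, (hb x).2]; simp)
      | .inr x, .inr y, .inl z, _, _ =>
        have h5 := he1 (b z) (hb z).1 (hb z).2 j₀ hj₀Y hj₀p
        match x, y with
        | true, true =>
          show Cc (w₁ (b z)) e e
          exact cc_same (cc_ne h5).1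
        | true, false => exact h5
        | false, true =>
          show Cc (w₁ (b z)) (w₁ j₀) e
          obtain ⟨s, s1, s2, s3, s4⟩ := h5
          exact ⟨s, s2, s1, s3.symm, fun h => s4 (h.trans s3.symm)⟩
        | false, false =>
          show Cc (w₁ (b z)) (w₁ j₀) (w₁ j₀)
          exact cc_same (cc_ne h5).2
      | .inl x, .inr y, _, h, _ => exact absurd h (by simp)
      | .inr x, .inl y, _, h, _ => exact absurd h (by simp)
      | .inl x, .inl y, .inl z, _, h => exact absurd rfl h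
      | .inr x, .inr y, .inr z, _, h => exact absurd rfl h
    · constructor
      · rintro (x | x) hx (y | y) hy
        · exact hab.1 x trivial y trivial
        · exact absurd hy.2 (by simp)
        · exact absurd hx.2 (by simp)
        · exact absurd hx.2 (by simp)
      · rintro (x | x) hx (y | y) hy (z | z) hz
        · exact hab.2 x trivial y trivial z trivial
        all_goals first
          | exact Bool.noConfusion (show true = false from hx.2)
          | exact Bool.noConfusion (show true = false from hy.2)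
          | exact Bool.noConfusion (show true = false from hz.2)
    · refine same_pair A _ (Sum.inr true : Fin 3 ⊕ Bool) (Sum.inr false : Fin 3 ⊕ Bool) _ ?_
        (show w₀ j₁ ≠ w₀ j₀ from hne0) (show e ≠ w₁ j₀ from hne1)
      rintro (z | z) hz
      · exact absurd hz.2 (by simp)
      · cases z
        · right; rfl
        · left; rfl
  obtain ⟨g', hg1, hg2⟩ := h3 c (Option X) (Fin 3 ⊕ Bool) (fun o : Option X => o.elim e w₁) A B hsame
  have hgn : g' none = w₀ j₁ := hg2 (.inr true)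
  have hg0 : g' (some j₀) = w₀ j₀ := hg2 (.inr false)
  refine ⟨fun x => g' (some x), ?_, fun k => hg2 (.inl k), ?_⟩
  · exact ⟨fun x _ y _ => hg1.1 (some x) trivial (some y) trivial,
      fun x _ y _ z _ => hg1.2 (some x) trivial (some y) trivial (some z) trivial⟩
  · -- the splits of the two copies
    have hagr : Agr (w₀ j₁) (w₀ j₀) q₁ := hq₁a j₁ ⟨hj₁Y, hj₁p⟩ j₀ ⟨hj₀Y, hj₀p⟩
    have hdif : (w₀ j₁).1 q₁ ≠ (w₀ j₀).1 q₁ := by
      intro h
      have h4 := (hq₁b j₁ ⟨hj₁Y, hj₁p⟩ j₀ ⟨hj₀Y, hj₀p⟩).1 h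
      rw [hq1, hq0] at h4
      exact Bool.noConfusion h4
    have hgj : ∀ j, j ∈ Y → p j = true →
        Agr (g' (some j)) (w₀ j₀) q₁ ∧ (g' (some j)).1 q₁ = (w₀ j₀).1 q₁ := by
      intro j hjY hjp
      have h5 := (hg1.2 (some j) trivial (some j₀) trivial none trivial).1
        (he2 j hjY hjp j₀ hj₀Y hj₀p)
      rw [hgn, hg0] at h5
      obtain ⟨s, s1, s2, s3, s4⟩ := h5
      have hst : s = q₁ := by
        rcases lt_trichotomy s q₁ with h | h | h
        · exfalso
          apply s4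
          rw [s3]
          exact hagr s h
        · exact h
        · exfalso
          exact hdif (s2 q₁ h)
      subst hst
      refine ⟨?_, s3⟩
      intro s' hs'
      rw [← s1 s' hs']
      exact s2 s' hs'
    rw [h1]
    refine ⟨⟨(false, j₁), ⟨hj₁Y, hj₁p⟩, (false, j₀), ⟨hj₀Y, hj₀p⟩, ?_⟩, q₁, ?_, ?_⟩
    · show q' j₁ ≠ q' j₀
      rw [hq1, hq0]
      simp
    · have key : ∀ z : Bool × X, z.2 ∈ Y ∧ p z.2 = true →
          Agr (if z.1 then g' (some z.2) else w₀ z.2) (w₀ j₀) q₁ := by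
        rintro ⟨t, z⟩ ⟨hzY, hzp⟩
        cases t
        · exact hq₁a z ⟨hzY, hzp⟩ j₀ ⟨hj₀Y, hj₀p⟩
        · exact (hgj z hzY hzp).1
      intro x hx y hy s hs
      exact (key x hx s hs).trans (key y hy s hs).symm
    · have key : ∀ z : Bool × X, z.2 ∈ Y ∧ p z.2 = true →
          ((if z.1 then g' (some z.2) else w₀ z.2).1 q₁ = (w₀ j₀).1 q₁ ↔
            (if z.1 then false else q' z.2) = false) := by
        rintro ⟨t, z⟩ ⟨hzY, hzp⟩
        cases t
        · have h6 := hq₁b z ⟨hzY, hzp⟩ j₀ ⟨hj₀Y, hj₀p⟩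
          rw [hq0] at h6
          exact h6
        · exact ⟨fun _ => rfl, fun _ => (hgj z hzY hzp).2⟩
      have two : ∀ x y z : Bool, ∀ hx hy : Bool, (x = z ↔ hx = false) → (y = z ↔ hy = false) →
          (x = y ↔ hx = hy) := by decide
      intro x hx y hy
      exact two _ _ _ _ _ (key x hx) (key y hy)

end Pool.Agent.Work.MP_8dbde4_lc.Phy
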