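import Pool.Agent.Work.MP_8dbde4_lc.Phy.Stmts

/-!
Item MVH of the block Phy of MP_8dbde4_lc: the moving property, first version.
-/

set_option autoImplicit false
open Classical

namespace Pool.Agent.Work.MP_8dbde4_lc.Phy

open Pool.Agent.Work.MP_8dbde4_lc.TS Pool.Agent.Work.MP_8dbde4_lc.Tree

namespace XMVH

variable {c : ℚ → Bool}

/-- A place where all the given words have the default letter, and also below it. -/
theorem low_place {X : Type} [Finite X] (w : X → Word c) :
    ∃ ρ : ℚ, ∀ x, ∀ q ≤ ρ, (w x).1 q = c q := by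
  have hfin : (⋃ x, {q | (w x).1 q ≠ c q}).Finite := Set.finite_iUnion fun x => (w x).2
  obtain ⟨m, hm⟩ := hfin.bddBelow
  refine ⟨m - 1, fun x q hq => ?_⟩
  by_contra h
  have h1 : m ≤ q := hm (Set.mem_iUnion.2 ⟨x, h⟩)
  linarith

/-- Changing a letter. -/
noncomputable def chg (w : Word c) (ρ : ℚ) (a : Bool) : Word c :=
  ⟨Function.update w.1 ρ a, by
    refine Set.Finite.subset (w.2.union (Set.finite_singleton ρ)) ?_
    intro q hq
    by_cases h : q = ρ
    · exact Or.inr h
    · left
      intro h1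
      apply hq
      show Function.update w.1 ρ a q = c q
      rw [Function.update_of_ne h]
      exact h1⟩

theorem chg_self (w : Word c) (ρ : ℚ) (a : Bool) : (chg w ρ a).1 ρ = a := by
  show Function.update w.1 ρ a ρ = a
  rw [Function.update_self]

theorem chg_ne (w : Word c) (ρ : ℚ) (a : Bool) {q : ℚ} (h : q ≠ ρ) : (chg w ρ a).1 q = w.1 q := by
  show Function.update w.1 ρ a q = w.1 q
  rw [Function.update_of_ne h]

/-- Comparison of letters through a third letter. -/
theorem bool_cmp {A B l h h' : Bool} (h1 : A = l ↔ h = false) (h2 : B = l ↔ h' = false) :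
    A = B ↔ h = h' := by
  revert h1 h2
  cases A <;> cases B <;> cases l <;> cases h <;> cases h' <;> simp

end XMVH

open XMVH

theorem MVH_pf (hPLC : S_PLC) (hGLU : S_GLU) (hAMA : S_AMA) : S_MVH := by
  intro c X _ S Y p w₀ w₁ _ hspl _ a b ha hb hsame
  obtain ⟨j₀, hj₀, hpj₀⟩ : ∃ j ∈ Y, p j = true := by
    obtain ⟨⟨x, hx, y, hy, hxy⟩, -⟩ := hspl
    by_cases h : p x = true
    · exact ⟨x, hx, h⟩
    · refine ⟨y, hy, ?_⟩
      cases h1 : p y
      · exfalso
        apply hxy
        rw [h1]
        simpa using h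
      · rfl
  obtain ⟨-, q₀, hq1, hq2⟩ := (hPLC c X Y w₀ p).1 hspl
  obtain ⟨ρ, hρ⟩ := low_place w₁
  set e : Word c := chg (w₁ (b 0)) ρ (!(c ρ)) with he
  have heρ : e.1 ρ = !(c ρ) := chg_self _ _ _
  have helow : ∀ q < ρ, e.1 q = c q := by
    intro q hq
    rw [he, chg_ne _ _ _ (ne_of_lt hq), hρ _ q hq.le]
  have hneρ : ∀ y, (w₁ y).1 ρ ≠ e.1 ρ := by
    intro y
    rw [hρ y ρ le_rfl, heρ]
    cases c ρ <;> decide
  have hCe : ∀ y y', Cc e (w₁ y) (w₁ y') := by
    intro y y'
    refine ⟨ρ, ?_, ?_, ?_, ?_⟩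
    · intro q hq
      rw [helow q hq, hρ y q hq.le]
    · intro q hq
      rw [helow q hq, hρ y' q hq.le]
    · rw [hρ y ρ le_rfl, hρ y' ρ le_rfl]
    · exact (hneρ y).symm
  have hCe' : ∀ y, Cc (w₁ y) e e := by
    intro y
    have h1 : Agr (w₁ y) e ρ := by
      intro q hq
      rw [helow q hq, hρ y q hq.le]
    exact ⟨ρ, h1, h1, rfl, hneρ y⟩
  -- the partial isomorphism
  set wl : Option X → Word c := fun o => o.elim e w₁ with hwl
  set al : Option (Fin 3) → Word c := fun o => o.elim (w₀ j₀) (fun k => w₀ (a k)) with hal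
  have hS1 : Spl Set.univ al (fun o => o.isNone) := by
    refine ⟨⟨none, Set.mem_univ _, some 0, Set.mem_univ _, by simp⟩, ?_⟩
    rintro x - y - z - hxy hzx
    rcases x with _ | x
    · rcases y with _ | y
      · rcases z with _ | z
        · simp at hzx
        · refine hspl.2 j₀ hj₀ j₀ hj₀ (a z) (ha z).1 rfl ?_
          rw [(ha z).2, hpj₀]
          decide
      · simp at hxy
    · rcases y with _ | y
      · simp at hxy
      · rcases z with _ | z
        · refine hspl.2 (a x) (ha x).1 (a y) (ha y).1 j₀ hj₀ ?_ ?_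
          · rw [(ha x).2, (ha y).2]
          · rw [(ha x).2, hpj₀]
            decide
        · simp at hzx
  have hS2 : Spl Set.univ (fun o => wl (Option.map b o)) (fun o => o.isNone) := by
    refine ⟨⟨none, Set.mem_univ _, some 0, Set.mem_univ _, by simp⟩, ?_⟩
    rintro x - y - z - hxy hzx
    rcases x with _ | x
    · rcases y with _ | y
      · rcases z with _ | z
        · simp at hzx
        · exact hCe' (b z)
      · simp at hxy
    · rcases y with _ | y
      · simp at hxy
      · rcases z with _ | z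
        · exact hCe (b x) (b y)
        · simp at hzx
  have hCirr : ∀ z y : Word c, ¬ Cc z z y := by
    rintro z y ⟨q, -, -, -, h⟩
    exact h rfl
  have hsame' : SameOn Set.univ al (fun o => wl (Option.map b o)) := by
    refine hGLU c (Option (Fin 3)) Set.univ al _ (fun o => o.isNone) hS1 hS2 ?_ ?_
    · refine ⟨?_, ?_⟩
      · rintro x ⟨-, hx⟩ y ⟨-, hy⟩
        rcases x with _ | x
        · simp at hx
        rcases y with _ | y
        · simp at hy
        exact hsame.1 x (Set.mem_univ _) y (Set.mem_univ _)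
      · rintro x ⟨-, hx⟩ y ⟨-, hy⟩ z ⟨-, hz⟩
        rcases x with _ | x
        · simp at hx
        rcases y with _ | y
        · simp at hy
        rcases z with _ | z
        · simp at hz
        exact hsame.2 x (Set.mem_univ _) y (Set.mem_univ _) z (Set.mem_univ _)
    · refine ⟨?_, ?_⟩
      · rintro x ⟨-, hx⟩ y ⟨-, hy⟩
        rcases x with _ | x
        · rcases y with _ | y
          · exact ⟨fun _ => rfl, fun _ => rfl⟩
          · simp at hy
        · simp at hx
      · rintro x ⟨-, hx⟩ y ⟨-, hy⟩ z ⟨-, hz⟩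
        rcases x with _ | x
        · rcases y with _ | y
          · rcases z with _ | z
            · exact ⟨fun h => absurd h (hCirr _ _), fun h => absurd h (hCirr _ _)⟩
            · simp at hz
          · simp at hy
        · simp at hx
  obtain ⟨g, hg1, hg2⟩ := hAMA c (Option X) (Option (Fin 3)) wl al (Option.map b) hsame'
  have hgn : g none = w₀ j₀ := hg2 none
  have hgb : ∀ k, g (some (b k)) = w₀ (a k) := fun k => hg2 (some k)
  refine ⟨fun x => g (some x), ?_, hgb, ?_⟩
  · refine ⟨?_, ?_⟩
    · intro x _ y _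
      exact hg1.1 (some x) (Set.mem_univ _) (some y) (Set.mem_univ _)
    · intro x _ y _ z _
      exact hg1.2 (some x) (Set.mem_univ _) (some y) (Set.mem_univ _) (some z) (Set.mem_univ _)
  · -- the place of the first split
    have hpa : p (a 0) = false := (ha 0).2
    have key : ∀ y, Agr (g (some y)) (w₀ (a 0)) q₀ ∧ (g (some y)).1 q₀ = (w₀ (a 0)).1 q₀ := by
      intro y
      have h1 : Cc (g none) (g (some y)) (g (some (b 0))) :=
        (hg1.2 (some y) (Set.mem_univ _) (some (b 0)) (Set.mem_univ _) none (Set.mem_univ _)).1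
          (hCe y (b 0))
      rw [hgn, hgb 0] at h1
      obtain ⟨q, hA1, hA2, hA3, hA4⟩ := h1
      have hne : (w₀ j₀).1 q ≠ (w₀ (a 0)).1 q := by
        rw [← hA3]
        exact hA4
      have hqq : q = q₀ := by
        rcases lt_trichotomy q q₀ with h | h | h
        · exact absurd (hq1 j₀ hj₀ (a 0) (ha 0).1 q h) hne
        · exact h
        · exfalso
          have h2 := (hq2 j₀ hj₀ (a 0) (ha 0).1).1 (hA2 q₀ h)
          rw [hpj₀, hpa] at h2
          exact absurd h2 (by decide)
      subst hqq
      refine ⟨fun q' hq' => ?_, hA3⟩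
      rw [← hA1 q' hq', hA2 q' hq']
    have hall : ∀ z : Bool × X, z.2 ∈ Y → Agr (if z.1 then g (some z.2) else w₀ z.2) (w₀ (a 0)) q₀ ∧
        ((if z.1 then g (some z.2) else w₀ z.2).1 q₀ = (w₀ (a 0)).1 q₀ ↔
          (if z.1 then false else p z.2) = false) := by
      rintro ⟨z1, z2⟩ hz
      cases z1
      · simp only [Bool.false_eq_true, if_false]
        refine ⟨hq1 z2 hz (a 0) (ha 0).1, ?_⟩
        rw [hq2 z2 hz (a 0) (ha 0).1, hpa]
      · simp only [if_true]
        exact ⟨(key z2).1, ⟨fun _ => trivial, fun _ => (key z2).2⟩⟩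
    refine (hPLC c (Bool × X) _ _ _).2 ⟨⟨(false, j₀), hj₀, (false, a 0), (ha 0).1, ?_⟩, q₀, ?_, ?_⟩
    · simp only [Bool.false_eq_true, if_false]
      rw [hpj₀, hpa]
      decide
    · intro x hx y hy q hq
      rw [(hall x hx).1 q hq, (hall y hy).1 q hq]
    · intro x hx y hy
      exact bool_cmp (hall x hx).2 (hall y hy).2

end Pool.Agent.Work.MP_8dbde4_lc.Phy
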