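import Pool.Agent.Work.MP_8dbde4_lc.Phy.Stmts
import Pool.Agent.Work.MP_8dbde4_lc.Tree.I_OPE

/-!
One-point extension of finite partial isomorphisms of the C-relation (S_OPC).
-/

set_option autoImplicit false
open Classical

namespace Pool.Agent.Work.MP_8dbde4_lc.Phy

open Pool.Agent.Work.MP_8dbde4_lc.TS Pool.Agent.Work.MP_8dbde4_lc.Tree
open Pool.Agent.Work.MP_8dbde4_lc.Tree.XOPE

namespace XOPC

variable {c : ℚ → Bool}

/-- With two letters the third point plays no role. -/
lemma cc_eqB {x s t : Word c} {p p' : ℚ} (h : FS x s p) (h' : FS x t p') :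
    Cc x s t ↔ p = p' := by
  rw [cc_eq h h']
  constructor
  · exact fun h1 => h1.1
  · rintro rfl
    refine ⟨rfl, ?_⟩
    have h1 := h.2
    have h2 := h'.2
    revert h1 h2
    cases x.1 p <;> cases s.1 p <;> cases t.1 p <;> simp

/-- Extension by a new pair whose splits correspond. -/
lemma ext_step {X : Type} {w f : X → Word c} (hF : SameOn Set.univ w f) {x y : Word c}
    {d e : X → ℚ} (hd : ∀ s, FS x (w s) (d s)) (he : ∀ s, FS y (f s) (e s))
    (hO : ∀ s t, d s < d t ↔ e s < e t) :
    SameOn Set.univ (fun o : Option X => o.elim x w) (fun o : Option X => o.elim y f) := by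
  have hEq : ∀ s t, d s = d t ↔ e s = e t := by
    intro s t
    have h1 := hO s t
    have h2 := hO t s
    constructor
    · intro h
      rcases lt_trichotomy (e s) (e t) with h3 | h3 | h3
      · exact absurd (h1.2 h3) (by rw [h]; exact lt_irrefl _)
      · exact h3
      · exact absurd (h2.2 h3) (by rw [h]; exact lt_irrefl _)
    · intro h
      rcases lt_trichotomy (d s) (d t) with h3 | h3 | h3
      · exact absurd (h1.1 h3) (by rw [h]; exact lt_irrefl _)
      · exact h3
      · exact absurd (h2.1 h3) (by rw [h]; exact lt_irrefl _)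
  have hA : ∀ s t, Cc x (w s) (w t) ↔ Cc y (f s) (f t) := by
    intro s t
    rw [cc_eqB (hd s) (hd t), cc_eqB (he s) (he t)]
    exact hEq s t
  have hB : ∀ s t, Cc (w s) x (w t) ↔ Cc (f s) y (f t) := by
    intro s t
    rw [cc_lt (hd s).symm (hd t), cc_lt (he s).symm (he t)]
    exact hO s t
  refine ⟨?_, ?_⟩
  · intro a _ b _
    rcases a with _ | a <;> rcases b with _ | b
    · exact iff_of_true rfl rfl
    · exact iff_of_false (hd b).ne (he b).ne
    · exact iff_of_false (fun h => (hd a).ne h.symm) (fun h => (he a).ne h.symm)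
    · exact hF.1 a (Set.mem_univ _) b (Set.mem_univ _)
  · intro a _ b _ z _
    rcases z with _ | z <;> rcases a with _ | a <;> rcases b with _ | b
    · exact iff_of_false cc_self_left cc_self_left
    · exact iff_of_false cc_self_left cc_self_left
    · exact iff_of_false cc_self_right cc_self_right
    · exact hA a b
    · exact iff_of_true (cc_same.2 (hd z).ne.symm) (cc_same.2 (he z).ne.symm)
    · exact hB z b
    · show Cc (w z) (w a) x ↔ Cc (f z) (f a) y
      rw [cc_comm, cc_comm (x := f a)]
      exact hB z a
    · exact hF.2 a (Set.mem_univ _) b (Set.mem_univ _) z (Set.mem_univ _)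

end XOPC

open XOPC

theorem OPC_pf : S_OPC := by
  intro c X _ w f hF x
  by_cases hx : ∃ s, w s = x
  · obtain ⟨s, rfl⟩ := hx
    refine ⟨f s, ?_⟩
    have e1 : (fun o : Option X => o.elim (w s) w) = fun o => w (o.elim s id) := by
      funext o; cases o <;> rfl
    have e2 : (fun o : Option X => o.elim (f s) f) = fun o => f (o.elim s id) := by
      funext o; cases o <;> rfl
    rw [e1, e2]
    exact ⟨fun a _ b _ => hF.1 _ (Set.mem_univ _) _ (Set.mem_univ _),
      fun a _ b _ z _ => hF.2 _ (Set.mem_univ _) _ (Set.mem_univ _) _ (Set.mem_univ _)⟩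
  · push Not at hx
    rcases isEmpty_or_nonempty X with hemp | hne
    · exact ⟨x, ext_step hF (d := fun _ => 0) (e := fun _ => 0) (fun s => hemp.elim s)
        (fun s => hemp.elim s) (fun s => hemp.elim s)⟩
    · have hd : ∀ s, ∃ r, FS x (w s) r := fun s => exists_FS (fun e => hx s e.symm)
      choose d hd using hd
      obtain ⟨s₀, hmax⟩ := Finite.exists_max d
      -- the splits from `f s₀`
      have he : ∀ s, ∃ r, f s ≠ f s₀ → FS (f s) (f s₀) r := by
        intro s
        by_cases h : f s = f s₀
        · exact ⟨0, fun h' => absurd h h'⟩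
        · obtain ⟨r, hr⟩ := exists_FS h
          exact ⟨r, fun _ => hr⟩
      choose e he using he
      have ag : ∀ s, d s = d s₀ → ∀ p < d s₀, x.1 p = (w s).1 p := by
        intro s h p hp
        exact (hd s).1 p (by rw [h]; exact hp)
      have lett : ∀ s, d s = d s₀ → (w s).1 (d s₀) = (w s₀).1 (d s₀) := by
        intro s h
        have h1 := (hd s).2
        have h2 := (hd s₀).2
        rw [h] at h1
        revert h1 h2
        cases x.1 (d s₀) <;> cases (w s).1 (d s₀) <;> cases (w s₀).1 (d s₀) <;> simp
      have f5 : ∀ s, d s < d s₀ → FS (w s) (w s₀) (d s) := by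
        intro s hlt
        refine ⟨fun p hp => ?_, ?_⟩
        · rw [← ag s₀ rfl p (hp.trans hlt)]
          exact ((hd s).1 p hp).symm
        · rw [← ag s₀ rfl _ hlt]
          exact fun e => (hd s).2 e.symm
      have f6 : ∀ s, d s < d s₀ → f s ≠ f s₀ := by
        intro s hlt h
        exact (f5 s hlt).ne ((hF.1 s (Set.mem_univ _) s₀ (Set.mem_univ _)).2 h)
      haveI := Fintype.ofFinite X
      set L : Finset ℚ := (Finset.univ.filter (fun s => d s < d s₀)).image e with hL
      set U : Finset ℚ := (Finset.univ.filter (fun s => d s = d s₀ ∧ f s ≠ f s₀)).image e with hU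
      have hLU : ∀ r ∈ L, ∀ r' ∈ U, r < r' := by
        intro r hr r' hr'
        rw [hL, Finset.mem_image] at hr
        rw [hU, Finset.mem_image] at hr'
        obtain ⟨t, ht, rfl⟩ := hr
        obtain ⟨s, hs, rfl⟩ := hr'
        rw [Finset.mem_filter] at ht hs
        obtain ⟨-, ht1⟩ := ht
        obtain ⟨-, hs1, hs2⟩ := hs
        have hne : w s₀ ≠ w s := fun h =>
          hs2 (((hF.1 s₀ (Set.mem_univ _) s (Set.mem_univ _)).1 h).symm)
        obtain ⟨p, hp⟩ := exists_FS hne
        have hqp : d s₀ < p := by
          by_contra hc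
          rcases lt_or_eq_of_le (not_lt.1 hc) with h | h
          · exact hp.2 ((ag s₀ rfl p h).symm.trans (ag s hs1 p h))
          · subst h
            exact hp.2 (lett s hs1).symm
        have hc : Cc (w t) (w s₀) (w s) := (cc_lt (f5 t ht1) hp).2 (ht1.trans hqp)
        exact (cc_lt (he t (f6 t ht1)) (he s hs2).symm).1
          ((hF.2 s₀ (Set.mem_univ _) s (Set.mem_univ _) t (Set.mem_univ _)).1 hc)
      obtain ⟨q', hq1, hq2⟩ := Order.exists_between_finsets L U hLU
      set y : Word c := ⟨fun p => if p < q' then (f s₀).1 p else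
          if p = q' then !((f s₀).1 q') else c p, by
        refine ((f s₀).2.union (Set.finite_singleton q')).subset ?_
        intro p hp
        simp only [Set.mem_ofPred_eq] at hp
        simp only [Set.mem_union, Set.mem_ofPred_eq, Set.mem_singleton_iff]
        by_cases h1 : p < q'
        · rw [if_pos h1] at hp
          exact Or.inl hp
        · rw [if_neg h1] at hp
          by_cases h2 : p = q'
          · exact Or.inr h2
          · rw [if_neg h2] at hp
            exact absurd rfl hp⟩ with hy
      have hylt : ∀ p < q', y.1 p = (f s₀).1 p := by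
        intro p hp
        simp only [hy]
        rw [if_pos hp]
      have hyq : y.1 q' = !((f s₀).1 q') := by
        simp only [hy]
        rw [if_neg (lt_irrefl _)]
        simp
      have key : ∀ s, ∃ r, FS y (f s) r ∧ (d s = d s₀ → r = q') ∧
          (d s < d s₀ → r < q' ∧ FS (f s₀) (f s) r) := by
        intro s
        rcases lt_or_eq_of_le (hmax s) with hlt | heq
        · have h1 := he s (f6 s hlt)
          have hmem : e s ∈ L := by
            rw [hL]
            exact Finset.mem_image_of_mem _ (Finset.mem_filter.2 ⟨Finset.mem_univ _, hlt⟩)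
          have hr : e s < q' := hq1 _ hmem
          refine ⟨e s, ⟨fun p hp => ?_, ?_⟩, fun h => absurd h hlt.ne, fun _ => ⟨hr, h1.symm⟩⟩
          · rw [hylt p (hp.trans hr)]
            exact (h1.1 p hp).symm
          · rw [hylt _ hr]
            exact fun h => h1.2 h.symm
        · refine ⟨q', ?_, fun _ => rfl, fun h => absurd heq h.ne⟩
          by_cases h : f s = f s₀
          · rw [h]
            refine ⟨fun p hp => hylt p hp, ?_⟩
            rw [hyq]
            simp
          · have h1 := he s h
            have hmem : e s ∈ U := by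
              rw [hU]
              exact Finset.mem_image_of_mem _ (Finset.mem_filter.2 ⟨Finset.mem_univ _, heq, h⟩)
            have hlt : q' < e s := hq2 _ hmem
            refine ⟨fun p hp => ?_, ?_⟩
            · rw [hylt p hp]
              exact (h1.1 p (hp.trans hlt)).symm
            · rw [hyq, h1.1 q' hlt]
              simp
      choose g hg1 hg2 hg3 using key
      refine ⟨y, ext_step hF hd hg1 ?_⟩
      intro s t
      rcases lt_or_eq_of_le (hmax s) with hs1 | hs1 <;>
        rcases lt_or_eq_of_le (hmax t) with ht1 | ht1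
      · obtain ⟨a1, a3⟩ := hg3 s hs1
        obtain ⟨b1, b3⟩ := hg3 t ht1
        rw [← cc_lt (f5 s hs1) (f5 t ht1).symm, ← cc_lt a3.symm b3]
        exact hF.2 s₀ (Set.mem_univ _) t (Set.mem_univ _) s (Set.mem_univ _)
      · obtain ⟨a1, a3⟩ := hg3 s hs1
        rw [hg2 t ht1, ht1]
        exact iff_of_true hs1 a1
      · obtain ⟨b1, b3⟩ := hg3 t ht1
        rw [hg2 s hs1, hs1]
        exact iff_of_false (not_lt.2 ht1.le) (not_lt.2 b1.le)
      · rw [hg2 s hs1, hg2 t ht1, hs1, ht1]
        exact iff_of_false (lt_irrefl _) (lt_irrefl _)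

end Pool.Agent.Work.MP_8dbde4_lc.Phy
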