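import Pool.Agent.Work.MP_8dbde4_lc.Phy.Stmts

/-!
Pairs: the gadget with two copies. See the docstring of `S_PAI`.
-/

set_option autoImplicit false
open Classical

namespace Pool.Agent.Work.MP_8dbde4_lc.Phy

open Pool.Agent.Work.MP_8dbde4_lc.TS Pool.Agent.Work.MP_8dbde4_lc.Tree

namespace XPAI

variable {c : ℚ → Bool}

theorem cc_of_ne {x y : Word c} (h : x ≠ y) : Cc x y y := by
  have hfin : {q | x.1 q ≠ y.1 q}.Finite := by
    refine (x.2.union y.2).subset ?_
    intro q hq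
    by_contra hc
    have h1 : x.1 q = c q := by
      by_contra h2
      exact hc (Or.inl h2)
    have h3 : y.1 q = c q := by
      by_contra h2
      exact hc (Or.inr h2)
    exact hq (h1.trans h3.symm)
  have hne : ∃ q, q ∈ {q | x.1 q ≠ y.1 q} := by
    by_contra hc
    apply h
    apply Subtype.ext
    funext q
    by_contra h2
    exact hc ⟨q, h2⟩
  obtain ⟨q, hq, hmin⟩ := Set.exists_min_image _ id hfin hne
  refine ⟨q, ?_, ?_, rfl, hq⟩
  · intro q' hq'
    by_contra h2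
    exact absurd (hmin q' h2) (not_le.2 hq')
  · intro q' hq'
    by_contra h2
    exact absurd (hmin q' h2) (not_le.2 hq')

theorem ne_of_cc {x y : Word c} (h : Cc x y y) : x ≠ y := by
  rintro rfl
  obtain ⟨q, _, _, _, h1⟩ := h
  exact h1 rfl

theorem not_cc_const (x : Word c) : ¬ Cc x x x := fun h => ne_of_cc h rfl

/-- Constant tuples have the same splits. -/
theorem sameOn_const {X : Type} (x y : Word c) :
    SameOn (Set.univ : Set X) (fun _ => x) (fun _ => y) :=
  ⟨fun _ _ _ _ => ⟨fun _ => rfl, fun _ => rfl⟩,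
    fun _ _ _ _ _ _ => ⟨fun h => absurd h (not_cc_const x), fun h => absurd h (not_cc_const y)⟩⟩

/-- The set of the pairs. -/
def ZZ {X : Type} (S : (X → Word c) → Prop) (i j : X) (V : Bool × X → Word c) : Prop :=
  S (fun x => V (false, x)) ∧ S (fun x => V (true, x)) ∧ V (false, j) = V (true, i) ∧
    Cc (V (false, i)) (V (true, j)) (V (true, j))

theorem pp_ZZ (h2 : S_PPB) (h3 : S_PPQ) {σ : Sig} (𝔅 : Str σ (Word c)) (hC : PP 𝔅 (C3 (c := c)))
    {X : Type} [Finite X] (S : (X → Word c) → Prop) (hS : PP 𝔅 S) (i j : X) :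
    PP 𝔅 (ZZ S i j) := by
  obtain ⟨-, hand, hpull, -, heq, -, -⟩ := h2 σ (Word c) 𝔅
  have p1 : PP 𝔅 (fun V : Bool × X → Word c => S (fun x => V (false, x))) :=
    hpull X (Bool × X) S (fun x => (false, x)) hS
  have p2 : PP 𝔅 (fun V : Bool × X → Word c => S (fun x => V (true, x))) :=
    hpull X (Bool × X) S (fun x => (true, x)) hS
  have p3 : PP 𝔅 (fun V : Bool × X → Word c => V (false, j) = V (true, i)) :=
    heq (Bool × X) (false, j) (true, i)
  have p4 : PP 𝔅 (fun V : Bool × X → Word c => Cc (V (false, i)) (V (true, j)) (V (true, j))) := by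
    have h4 := (h3 c σ 𝔅 hC (Bool × X)).1
      (fun x y z => x = (true, j) ∧ y = (true, j) ∧ z = (false, i))
    have e : (fun V : Bool × X → Word c => ∀ x y z,
        (x = (true, j) ∧ y = (true, j) ∧ z = (false, i)) → Cc (V z) (V x) (V y)) =
        fun V => Cc (V (false, i)) (V (true, j)) (V (true, j)) := by
      funext V
      apply propext
      constructor
      · intro h
        exact h _ _ _ ⟨rfl, rfl, rfl⟩
      · rintro h x y z ⟨rfl, rfl, rfl⟩
        exact h
    rw [e] at h4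
    exact h4
  exact hand _ _ _ p1 (hand _ _ _ p2 (hand _ _ _ p3 p4))

end XPAI

open XPAI in
theorem PAI_pf (h1 : S_INV) (h2 : S_PPB) (h3 : S_PPQ) : S_PAI := by
  intro c σ 𝔅 hL hK X _ S I Q q hS hMV hw i hi j hj hij
  by_contra hcon
  have hall : ∀ w, S w → Spl Q w q → w i = w j := by
    intro w hw1 hw2
    by_contra h4
    exact hcon ⟨w, hw1, hw2, h4⟩
  obtain ⟨w₀, hw₀, hsp₀⟩ := hw
  obtain ⟨w₁, hw₁, hne₁⟩ := hij
  have hinv := h1 c σ 𝔅 hL X S hS
  have e₀ := hall w₀ hw₀ hsp₀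
  -- the first member
  obtain ⟨g, hg1, hg2, hg3⟩ := hMV w₀ w₁ hw₀ hsp₀ hw₁ (fun _ => j) (fun _ => i) (fun _ => hj)
    (fun _ => hi) (sameOn_const _ _)
  have hgi : g i = w₀ j := hg2 0
  have hgne : g i ≠ g j := fun h => hne₁ ((hg1.1 i trivial j trivial).2 h)
  -- the second member
  obtain ⟨g', hg'1, hg'2, hg'3⟩ := hMV w₀ w₁ hw₀ hsp₀ hw₁ (fun _ => i) (fun _ => j) (fun _ => hi)
    (fun _ => hj) (sameOn_const _ _)
  have hg'j : g' j = w₀ i := hg'2 0
  have hg'ne : g' i ≠ g' j := fun h => hne₁ ((hg'1.1 i trivial j trivial).2 h)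
  -- first splits
  set QQ : Set (Bool × X) := {z | z.2 ∈ Q} with hQQ
  set V₁ : Bool × X → Word c := fun z => if z.1 then g z.2 else w₀ z.2 with hV₁
  set V₂ : Bool × X → Word c := fun z => if z.1 then w₀ z.2 else g' z.2 with hV₂
  have hs2 : Spl QQ V₂ (fun z => if z.1 then q z.2 else false) := by
    obtain ⟨⟨x, hx, y, hy, hxy⟩, hsp⟩ := hg'3
    have key : ∀ z : Bool × X, V₂ z =
        (fun z : Bool × X => if z.1 then g' z.2 else w₀ z.2) (!z.1, z.2) := by
      rintro ⟨b, x⟩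
      cases b <;> rfl
    have key2 : ∀ z : Bool × X, (if z.1 then q z.2 else false) =
        (fun z : Bool × X => if z.1 then false else q z.2) (!z.1, z.2) := by
      rintro ⟨b, x⟩
      cases b <;> rfl
    refine ⟨⟨(!x.1, x.2), hx, (!y.1, y.2), hy, ?_⟩, ?_⟩
    · intro h4
      apply hxy
      have h5 := key2 (!x.1, x.2)
      have h6 := key2 (!y.1, y.2)
      simp only [Bool.not_not] at h5 h6
      have h7 : (fun z : Bool × X => if z.1 then q z.2 else false) (!x.1, x.2) =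
        (fun z : Bool × X => if z.1 then q z.2 else false) (!y.1, y.2) := h4
      exact h5.symm.trans (h7.trans h6)
    · intro x hx y hy z hz hxy hzx
      rw [key x, key y, key z]
      refine hsp (!x.1, x.2) hx (!y.1, y.2) hy (!z.1, z.2) hz ?_ ?_
      · exact (key2 x).symm.trans (hxy.trans (key2 y))
      · intro h4
        exact hzx ((key2 z).trans (h4.trans (key2 x).symm))
  have hZ₁ : ZZ S i j V₁ := by
    refine ⟨hw₀, hinv w₁ g hg1 hw₁, hgi.symm, ?_⟩
    apply cc_of_ne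
    change w₀ i ≠ g j
    rw [e₀, ← hgi]
    exact hgne
  have hZ₂ : ZZ S i j V₂ := by
    refine ⟨hinv w₁ g' hg'1 hw₁, hw₀, hg'j, ?_⟩
    apply cc_of_ne
    change g' i ≠ w₀ j
    rw [← e₀, ← hg'j]
    exact hg'ne
  obtain ⟨⟨x₀, hx₀, y₀, hy₀, hxy₀⟩, -⟩ := hsp₀
  obtain ⟨V, hV, hVs⟩ := hK (Bool × X) (ZZ S i j) (pp_ZZ h2 h3 𝔅 hL.ppC S hS i j) QQ
    (fun z => !(if z.1 then false else q z.2)) (fun z => !(if z.1 then q z.2 else false))
    ⟨V₁, hZ₁, hg3.not⟩ ⟨V₂, hZ₂, hs2.not⟩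
    ⟨(false, x₀), hx₀, (false, y₀), hy₀, by simpa using hxy₀⟩
  obtain ⟨hVf, hVt, hVe, hVc⟩ := hV
  have hq : ∀ z : Bool × X, (!(if z.1 then false else q z.2) && !(if z.1 then q z.2 else false)) =
      !q z.2 := by
    rintro ⟨b, x⟩
    cases b <;> simp
  have hVs' : Spl QQ V (fun z => q z.2) := by
    refine hVs.congr ?_
    intro x hx y hy
    rw [hq x, hq y]
    simp
  have side : ∀ b : Bool, Spl Q (fun x => V (b, x)) q := by
    intro b
    refine ⟨⟨x₀, hx₀, y₀, hy₀, hxy₀⟩, ?_⟩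
    intro x hx y hy z hz h4 h5
    exact hVs'.2 (b, x) hx (b, y) hy (b, z) hz h4 h5
  have h6 : V (false, i) = V (false, j) := hall _ hVf (side false)
  have h7 : V (true, i) = V (true, j) := hall _ hVt (side true)
  exact ne_of_cc hVc (h6.trans (hVe.trans h7))

end Pool.Agent.Work.MP_8dbde4_lc.Phy
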