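import Pool.Agent.Work.MP_8dbde4_lc.Phy.Stmts2

/-!
The positive part: assembly.
-/

set_option autoImplicit false
open Classical

namespace Pool.Agent.Work.MP_8dbde4_lc.Phy

open Pool.Agent.Work.MP_8dbde4_lc.TS Pool.Agent.Work.MP_8dbde4_lc.Tree

theorem POP_pf : S_POP := by
  intro hPOS hGLG hLEX hHDF hTR1 hTR2 c σ 𝔅 hB
  obtain ⟨N, hN⟩ := hHDF c σ 𝔅 hB
  apply hTR2 c σ 𝔅 N
  refine inFP_closure (Bp 𝔅 N) (m := 1) (fun _ => Pgc σ N) ?_ glues_one (nes σ N) ?_ ?_ ?_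
  · intro _
    obtain ⟨g, hg, hpres⟩ := hLEX c
    refine ⟨g, hg, ?_⟩
    rintro R ⟨k, rfl⟩ t ht
    refine hpres (sP N) (LG N) ?_ (Sum.inl k) t ht
    rintro (R | R) p hp
    · exact congrArg (fun b => !b) hp
    · trivial
  · refine ⟨rfl, fun t => ?_⟩
    constructor
    · rintro ⟨-, h⟩ h2
      obtain ⟨i, j, hij⟩ := h trivial
      exact hij (h2 i j)
    · intro h
      refine ⟨fun _ _ => trivial, fun _ => ?_⟩
      push Not at h
      exact h
  · have h : (⋃ _ : Fin 1, Pgc σ N) = Pgc σ N := Set.iUnion_const _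
    rw [h]
    exact hN
  · intro _
    exact hTR1 c σ 𝔅 N (hPOS _ _ _ c (hGLG N))

end Pool.Agent.Work.MP_8dbde4_lc.Phy
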