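import Pool.Agent.Work.MP_8dbde4_lc.Phy.Stmts

set_option autoImplicit false
open Classical

namespace Pool.Agent.Work.MP_8dbde4_lc.Phy

open Pool.Agent.Work.MP_8dbde4_lc.TS Pool.Agent.Work.MP_8dbde4_lc.Tree

namespace XPPB

variable {σ : Sig} {B : Type} {𝔅 : Str σ B}

theorem congr {X : Type} {S S' : (X → B) → Prop} (h : ∀ v, S v ↔ S' v) (H : PP 𝔅 S) :
    PP 𝔅 S' := by
  obtain ⟨D, hD, 𝔇, m, hm⟩ := H
  exact ⟨D, hD, 𝔇, m, fun v => (h v).symm.trans (hm v)⟩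

/-- The image structure on a quotient. -/
def Q {D : Type} (𝔇 : Str σ D) (r : D → D → Prop) : Str σ (Quot r) where
  rel R t := ∃ s, 𝔇.rel R s ∧ t = fun j => Quot.mk r (s j)

theorem homQ {D : Type} (𝔇 : Str σ D) (r : D → D → Prop) (f : Quot r → B) :
    Hom (Q 𝔇 r) 𝔅 f ↔ Hom 𝔇 𝔅 (fun d => f (Quot.mk r d)) := by
  constructor
  · intro h R t ht
    exact h R (fun j => Quot.mk r (t j)) ⟨t, ht, rfl⟩
  · rintro h R t ⟨s, hs, rfl⟩
    exact h R s hs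

/-- The disjoint union. -/
def Su {D D' : Type} (𝔇 : Str σ D) (𝔇' : Str σ D') : Str σ (D ⊕ D') where
  rel R t := (∃ s, 𝔇.rel R s ∧ t = fun j => Sum.inl (s j)) ∨
    ∃ s, 𝔇'.rel R s ∧ t = fun j => Sum.inr (s j)

theorem homSu {D D' : Type} (𝔇 : Str σ D) (𝔇' : Str σ D') (f : D ⊕ D' → B) :
    Hom (Su 𝔇 𝔇') 𝔅 f ↔ Hom 𝔇 𝔅 (fun d => f (Sum.inl d)) ∧ Hom 𝔇' 𝔅 (fun d => f (Sum.inr d)) := by
  constructor
  · intro h
    exact ⟨fun R t ht => h R (fun j => Sum.inl (t j)) (Or.inl ⟨t, ht, rfl⟩),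
      fun R t ht => h R (fun j => Sum.inr (t j)) (Or.inr ⟨t, ht, rfl⟩)⟩
  · rintro ⟨h, h'⟩ R t (⟨s, hs, rfl⟩ | ⟨s, hs, rfl⟩)
    · exact h R s hs
    · exact h' R s hs

/-- No tuples. -/
def Em (σ : Sig) (D : Type) : Str σ D where
  rel _ _ := False

theorem homEm {D : Type} (f : D → B) : Hom (Em σ D) 𝔅 f := fun _ _ h => h.elim

theorem rel (R : σ.S) : PP 𝔅 (𝔅.rel R) := by
  refine ⟨Fin (σ.ar R), inferInstance,
    ⟨fun R' t => (⟨R', t⟩ : Σ R'' : σ.S, Fin (σ.ar R'') → Fin (σ.ar R)) = ⟨R, id⟩⟩, id, ?_⟩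
  intro v
  constructor
  · intro h
    refine ⟨v, ?_, fun x => rfl⟩
    intro R' t ht
    cases ht
    exact h
  · rintro ⟨f, hf, hv⟩
    have h := hf R id rfl
    have : v = f := funext hv
    rw [this]
    exact h

theorem inter {X : Type} {S S' : (X → B) → Prop} (h : PP 𝔅 S) (h' : PP 𝔅 S') :
    PP 𝔅 (fun v => S v ∧ S' v) := by
  obtain ⟨D, hD, 𝔇, m, hm⟩ := h
  obtain ⟨D', hD', 𝔇', m', hm'⟩ := h'
  let r : D ⊕ D' → D ⊕ D' → Prop := fun a b => ∃ x, a = Sum.inl (m x) ∧ b = Sum.inr (m' x)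
  refine ⟨Quot r, inferInstance, Q (Su 𝔇 𝔇') r, fun x => Quot.mk r (Sum.inl (m x)), ?_⟩
  intro v
  constructor
  · rintro ⟨h1, h2⟩
    obtain ⟨f, hf, hfv⟩ := (hm v).1 h1
    obtain ⟨g, hg, hgv⟩ := (hm' v).1 h2
    refine ⟨Quot.lift (Sum.elim f g) ?_, ?_, ?_⟩
    · rintro _ _ ⟨x, rfl, rfl⟩
      show f (m x) = g (m' x)
      rw [← hfv, ← hgv]
    · rw [homQ, homSu]
      exact ⟨hf, hg⟩
    · intro x
      exact hfv x
  · rintro ⟨f, hf, hv⟩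
    rw [homQ, homSu] at hf
    refine ⟨(hm v).2 ⟨_, hf.1, hv⟩, (hm' v).2 ⟨_, hf.2, fun x => ?_⟩⟩
    rw [hv x]
    exact congrArg f (Quot.sound ⟨x, rfl, rfl⟩)

theorem pull {X X' : Type} [Finite X'] {S : (X → B) → Prop} (e : X → X') (h : PP 𝔅 S) :
    PP 𝔅 (fun v : X' → B => S (fun x => v (e x))) := by
  obtain ⟨D, hD, 𝔇, m, hm⟩ := h
  let r : D ⊕ X' → D ⊕ X' → Prop := fun a b => ∃ x, a = Sum.inl (m x) ∧ b = Sum.inr (e x)
  refine ⟨Quot r, inferInstance, Q (Su 𝔇 (Em σ X')) r, fun x => Quot.mk r (Sum.inr x), ?_⟩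
  intro v
  constructor
  · intro h1
    obtain ⟨f, hf, hfv⟩ := (hm _).1 h1
    refine ⟨Quot.lift (Sum.elim f v) ?_, ?_, ?_⟩
    · rintro _ _ ⟨x, rfl, rfl⟩
      show f (m x) = v (e x)
      rw [← hfv]
    · rw [homQ, homSu]
      exact ⟨hf, homEm _⟩
    · intro x
      rfl
  · rintro ⟨f, hf, hv⟩
    rw [homQ, homSu] at hf
    refine (hm _).2 ⟨_, hf.1, fun x => ?_⟩
    show v (e x) = _
    rw [hv (e x)]
    exact (congrArg f (Quot.sound (r := r) ⟨x, rfl, rfl⟩)).symm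

theorem image {X Y : Type} {S : (X → B) → Prop} (e : Y → X) (h : PP 𝔅 S) :
    PP 𝔅 (fun u : Y → B => ∃ v, S v ∧ ∀ y, u y = v (e y)) := by
  obtain ⟨D, hD, 𝔇, m, hm⟩ := h
  refine ⟨D, hD, 𝔇, fun y => m (e y), fun u => ?_⟩
  constructor
  · rintro ⟨v, hv, hu⟩
    obtain ⟨f, hf, hfv⟩ := (hm v).1 hv
    exact ⟨f, hf, fun y => (hu y).trans (hfv (e y))⟩
  · rintro ⟨f, hf, hu⟩
    exact ⟨fun x => f (m x), (hm _).2 ⟨f, hf, fun x => rfl⟩, hu⟩

theorem eq {X : Type} [hX : Finite X] (a b : X) : PP 𝔅 (fun v : X → B => v a = v b) := by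
  refine ⟨X, hX, Em σ X, fun x => if x = b then a else x, fun v => ?_⟩
  constructor
  · intro h
    refine ⟨v, homEm _, fun x => ?_⟩
    by_cases hx : x = b
    · subst hx
      simp [h]
    · simp [hx]
  · rintro ⟨f, -, hf⟩
    have h1 := hf a
    have h2 := hf b
    rw [h2]
    rw [h1]
    by_cases hx : a = b
    · simp [hx]
    · simp [hx]

theorem tr {X : Type} [hX : Finite X] : PP 𝔅 (fun _ : X → B => True) := by
  refine ⟨X, hX, Em σ X, id, fun v => ?_⟩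
  simp only [true_iff]
  exact ⟨v, homEm _, fun x => rfl⟩

theorem all {X ι : Type} [Finite X] [Finite ι] (S : ι → (X → B) → Prop)
    (h : ∀ i, PP 𝔅 (S i)) : PP 𝔅 (fun v => ∀ i, S i v) := by
  haveI := Fintype.ofFinite ι
  have key : ∀ s : Finset ι, PP 𝔅 (fun v => ∀ i ∈ s, S i v) := by
    intro s
    induction s using Finset.induction_on with
    | empty => exact congr (by simp) (tr (𝔅 := 𝔅) (X := X))
    | insert i s hi ih => exact congr (by simp) (inter (h i) ih)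
  exact congr (by simp) (key Finset.univ)

end XPPB

theorem PPB_pf : S_PPB := fun _ _ _ =>
  ⟨fun R => XPPB.rel R, fun _ _ _ h h' => XPPB.inter h h', fun _ _ _ _ e h => XPPB.pull e h,
    fun _ _ _ e h => XPPB.image e h, fun _ _ a b => XPPB.eq a b, fun _ _ => XPPB.tr,
    fun _ _ _ _ S h => XPPB.all S h⟩

end Pool.Agent.Work.MP_8dbde4_lc.Phy
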