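import Pool.Agent.Work.MP_8dbde4_lc.Phy.Stmts

/-! Item PPQ: sets defined by splits are primitive positive definable. -/

set_option autoImplicit false
open Classical

namespace Pool.Agent.Work.MP_8dbde4_lc.Phy

open Pool.Agent.Work.MP_8dbde4_lc.TS Pool.Agent.Work.MP_8dbde4_lc.Tree

namespace XPPQ

theorem congrP {σ : Sig} {B X : Type} {𝔅 : Str σ B} {S S' : (X → B) → Prop} (h : PP 𝔅 S)
    (e : ∀ v, S v ↔ S' v) : PP 𝔅 S' := by
  obtain ⟨D, hD, 𝔇, m, H⟩ := h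
  exact ⟨D, hD, 𝔇, m, fun v => (e v).symm.trans (H v)⟩

end XPPQ

theorem PPQ_pf (hB : S_PPB) : S_PPQ := by
  intro c σ 𝔅 hC X _
  obtain ⟨-, h2, h3, -, -, -, h7⟩ := hB σ (Word c) 𝔅
  have key : ∀ Q : X → X → X → Prop,
      PP 𝔅 (fun v : X → Word c => ∀ x y z, Q x y z → Cc (v z) (v x) (v y)) := by
    intro Q
    have h := h7 X {t : X × X × X // Q t.1 t.2.1 t.2.2}
      (fun t v => Cc (v t.1.2.2) (v t.1.1) (v t.1.2.1)) (fun t => by
        refine XPPQ.congrP (h3 (Fin 3) X (C3 (c := c)) ![t.1.2.2, t.1.1, t.1.2.1] hC) ?_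
        intro v
        unfold C3
        simp)
    refine XPPQ.congrP h ?_
    intro v
    constructor
    · intro H x y z hq
      exact H ⟨(x, y, z), hq⟩
    · intro H t
      exact H _ _ _ t.2
  refine ⟨key, ?_⟩
  intro S Y h hS hn
  refine XPPQ.congrP (h2 X S _ hS
    (key (fun x y z => x ∈ Y ∧ y ∈ Y ∧ z ∈ Y ∧ h x = h y ∧ h z ≠ h x))) ?_
  intro v
  constructor
  · rintro ⟨a, b⟩
    exact ⟨a, hn, fun x hx y hy z hz e1 e2 => b x y z ⟨hx, hy, hz, e1, e2⟩⟩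
  · rintro ⟨a, b⟩
    exact ⟨a, fun x y z ⟨hx, hy, hz, e1, e2⟩ => b.2 x hx y hy z hz e1 e2⟩

end Pool.Agent.Work.MP_8dbde4_lc.Phy
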