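import Pool.Agent.Work.MP_8dbde4_lc.Phy.Stmts

/-!
Item SA0 of the block Phy of MP_8dbde4_lc: the instance `J_0` is solvable.
-/

set_option autoImplicit false
open Classical

namespace Pool.Agent.Work.MP_8dbde4_lc.Phy

open Pool.Agent.Work.MP_8dbde4_lc.TS Pool.Agent.Work.MP_8dbde4_lc.Tree

namespace XSA0

variable {c : ℚ → Bool}

/-- The word is `c` below the place `1`, except for the letter `a` at the place `0`, and it has the
letter `b` at the place `1`. -/
def Nice (w : Word c) (a b : Bool) : Prop :=
  (∀ q' < (1 : ℚ), q' ≠ 0 → w.1 q' = c q') ∧ w.1 0 = a ∧ w.1 1 = b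

/-- The word with the letters `a` and `b` at the places `0` and `1`. -/
noncomputable def w2 (c : ℚ → Bool) (a b : Bool) : Word c :=
  ⟨Function.update (Function.update c 0 a) 1 b, by
    refine Set.Finite.subset (Set.toFinite ({0, 1} : Set ℚ)) ?_
    intro q hq
    by_contra h
    simp only [Set.mem_insert_iff, Set.mem_singleton_iff, not_or] at h
    apply hq
    show Function.update (Function.update c 0 a) 1 b q = c q
    rw [Function.update_of_ne h.2, Function.update_of_ne h.1]⟩

theorem w2_nice (a b : Bool) : Nice (w2 c a b) a b := by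
  refine ⟨?_, ?_, ?_⟩
  · intro q h1 h0
    show Function.update (Function.update c 0 a) 1 b q = c q
    rw [Function.update_of_ne (ne_of_lt h1), Function.update_of_ne h0]
  · show Function.update (Function.update c 0 a) 1 b 0 = a
    rw [Function.update_of_ne (by norm_num), Function.update_self]
  · show Function.update (Function.update c 0 a) 1 b 1 = b
    rw [Function.update_self]

/-- The split at the place `0`. -/
theorem split0 {z x y : Word c} {a₀ b₀ a b b' : Bool} (hz : Nice z a₀ b₀) (hx : Nice x a b)
    (hy : Nice y a b') (h : a₀ ≠ a) : Cc z x y := by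
  refine ⟨0, ?_, ?_, ?_, ?_⟩
  · intro q hq
    rw [hz.1 q (lt_trans hq one_pos) (ne_of_lt hq), hx.1 q (lt_trans hq one_pos) (ne_of_lt hq)]
  · intro q hq
    rw [hz.1 q (lt_trans hq one_pos) (ne_of_lt hq), hy.1 q (lt_trans hq one_pos) (ne_of_lt hq)]
  · rw [hx.2.1, hy.2.1]
  · rw [hz.2.1, hx.2.1]
    exact h

/-- The split at the place `1`. -/
theorem split1 {z x y : Word c} {a : Bool} (hz : Nice z a true) (hx : Nice x a false)
    (hy : Nice y a false) : Cc z x y := by
  have key : ∀ {w : Word c} {b : Bool}, Nice w a b → Agr z w 1 := by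
    intro w b hw q hq
    by_cases h0 : q = 0
    · rw [h0, hz.2.1, hw.2.1]
    · rw [hz.1 q hq h0, hw.1 q hq h0]
  refine ⟨1, key hx, key hy, ?_, ?_⟩
  · rw [hx.2.2, hy.2.2]
  · rw [hz.2.2, hx.2.2]
    decide

theorem split {z x y : Word c} {a₀ a : Bool} (hz : Nice z a₀ true) (hx : Nice x a false)
    (hy : Nice y a false) : Cc z x y := by
  by_cases h : a₀ = a
  · subst h
    exact split1 hz hx hy
  · exact split0 hz hx hy h

end XSA0

open XSA0

theorem SA0_pf (hR : S_RLZ) : S_SA0 := by
  intro c n S hInv hex G _ g h p I Δ hΔ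
  choose f hpol hf using hΔ.sol
  have hP : ∀ (α β : ZMod p) (t : CT S I), (pf S).P () (fun j => f α β (t.1 j)) := by
    intro α β t
    exact hpol α β () t.1 t.2
  choose V hV using fun (α β : ZMod p) (t : CT S I) =>
    hR c n S hInv hex (fun j => f α β (t.1 j)) (hP α β t) 0 1 one_pos
  set M : G → ZMod p → Word c := fun v s => w2 c (Δ.io s) (decide (v = 1 ∧ s = 0)) with hM
  have hMn : ∀ v s, Nice (M v s) (Δ.io s) (decide (v = 1 ∧ s = 0)) := fun v s => w2_nice _ _
  have hV' : ∀ α β t j, Nice (V α β t j) (f α β (t.1 j)) false := fun α β t j => (hV α β t).2 j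
  have hanc : Nice (M 1 0) (Δ.io 0) true := by
    have h1 := hMn 1 0
    simpa using h1
  -- the ties to the main elements
  have tie : ∀ (v : G) (s : ZMod p) (x : Word c), Nice x (Δ.io s) false →
      Cc (av M v s) x (M v s) := by
    intro v s x hx
    by_cases hvs : v = 1 ∧ s = 0
    · have h1 : av M v s = M 1 1 := by
        unfold av
        rw [if_pos hvs]
      rw [h1]
      refine split0 (hMn 1 1) hx (hMn v s) ?_
      rw [hvs.2]
      exact fun e => hΔ.inj e.symm
    · have h1 : av M v s = M 1 0 := by
        unfold av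
        rw [if_neg hvs]
      rw [h1]
      have h2 := hMn v s
      rw [decide_eq_false hvs] at h2
      exact split hanc hx h2
  refine ⟨M, fun _ α β t => w2 c (f α β t) false, fun _ α β t => V α β t, ?_, ?_, ?_, ?_, ?_, ?_⟩
  · intro v α β t
    exact (hV α β t).1
  · intro v α β t j
    exact split hanc (hV' α β t j) (w2_nice _ _)
  · intro v α β s
    apply tie
    have h1 := w2_nice (c := c) (f α β (Δ.u s)) false
    rw [(hf α β s).1] at h1
    rw [(hf α β s).1]
    exact h1
  · intro v α β s
    apply tie
    have h1 := w2_nice (c := c) (f α β (Δ.x s)) false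
    rw [(hf α β s).2.1] at h1
    rw [(hf α β s).2.1]
    exact h1
  · intro v α β s
    apply tie
    have h1 := w2_nice (c := c) (f α β (Δ.y s)) false
    rw [(hf α β s).2.2.1] at h1
    rw [(hf α β s).2.2.1]
    exact h1
  · intro v α β s
    rw [sub_zero]
    apply tie
    have h1 := w2_nice (c := c) (f α β (Δ.z s)) false
    rw [(hf α β s).2.2.2] at h1
    rw [(hf α β s).2.2.2]
    exact h1

end Pool.Agent.Work.MP_8dbde4_lc.Phy
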