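import Pool.Agent.Work.MP_8dbde4_lc.Phy.Stmts

/-!
The instances `JP` express the conditions `Sat`: see the docstring of `S_SAT`.
-/

set_option autoImplicit false
open Classical

namespace Pool.Agent.Work.MP_8dbde4_lc.Phy

open Pool.Agent.Work.MP_8dbde4_lc.TS Pool.Agent.Work.MP_8dbde4_lc.Tree

namespace XSAT

/-- Change one letter of the default word. -/
noncomputable def fl (c : ℚ → Bool) (a : ℚ) : Word c :=
  ⟨Function.update c a (!c a), (Set.finite_singleton a).subset (fun q hq => by
    by_contra h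
    exact hq (Function.update_of_ne h _ _))⟩

/-- The default word. -/
def w0 (c : ℚ → Bool) : Word c := ⟨c, by simp⟩

lemma fl_self (c : ℚ → Bool) (a : ℚ) : (fl c a).1 a = !c a := Function.update_self _ _ _

lemma fl_ne (c : ℚ → Bool) {a q : ℚ} (h : q ≠ a) : (fl c a).1 q = c q :=
  Function.update_of_ne h _ _

lemma exC3 (c : ℚ → Bool) : ∃ z x y : Word c, Cc z x y ∧ z ≠ x ∧ z ≠ y ∧ x ≠ y := by
  have h01 : (0 : ℚ) ≠ 1 := by norm_num
  have hz0 : (fl c 0).1 0 = !c 0 := fl_self c 0
  have hy0 : (fl c 1).1 0 = c 0 := fl_ne c h01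
  have hne : (fl c 0).1 0 ≠ (w0 c).1 0 := by
    rw [hz0]
    simp [w0]
  refine ⟨fl c 0, w0 c, fl c 1, ⟨0, ?_, ?_, ?_, hne⟩, ?_, ?_, ?_⟩
  · intro q hq
    exact fl_ne c hq.ne
  · intro q hq
    have h1 : q ≠ 1 := by
      rintro rfl
      linarith
    rw [fl_ne c hq.ne, fl_ne c h1]
  · exact hy0.symm
  · intro h
    exact hne (by rw [h])
  · intro h
    have h2 : (fl c 0).1 0 = (fl c 1).1 0 := by rw [h]
    rw [hz0, hy0] at h2
    simp at h2
  · intro h
    have h2 : (w0 c).1 1 = (fl c 1).1 1 := by rw [h]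
    rw [fl_self] at h2
    simp [w0] at h2

variable {c : ℚ → Bool} {G : Type} [Group G] {p : ℕ} {I T : Type} {n : ℕ} {D DC : Type}

lemma F_anc (F : EE G p I T n D DC → Word c) (v : G) (s : ZMod p) :
    F (anc (.main v s)) = av (fun v s => F (.main v s)) v s := by
  unfold anc av
  by_cases h : v = 1 ∧ s = 0
  · rw [if_pos h, if_pos (by rw [h.1, h.2])]
  · rw [if_neg h, if_neg (by
      intro h2
      injection h2 with h3 h4
      exact h ⟨h3, h4⟩)]

lemma F_anc_site (F : EE G p I T n D DC → Word c) (v : G) (α β : ZMod p) (t : I → Bool) :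
    F (anc (.site v α β t)) = F (.main 1 0) := by
  unfold anc
  rw [if_neg (by simp)]

end XSAT

open XSAT in
theorem SAT_pf : S_SAT := by
  intro c σ 𝔅 n S D 𝔇 m hS DC ℭ mC hC G _ g h p I T Δ tt b
  obtain ⟨z, x, y, hzxy, hzx, hzy, hxy⟩ := exC3 c
  obtain ⟨f0, _, hf0⟩ := (hC ![z, x, y]).1 hzxy
  have m01 : mC 1 ≠ mC 0 := by
    intro he
    have h1 := hf0 0
    have h2 := hf0 1
    rw [he, ← h1] at h2
    exact hzx h2.symm
  have m02 : mC 2 ≠ mC 0 := by
    intro he
    have h1 := hf0 0
    have h2 := hf0 2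
    rw [he, ← h1] at h2
    exact hzy h2.symm
  have m12 : mC 2 ≠ mC 1 := by
    intro he
    have h1 := hf0 1
    have h2 := hf0 2
    rw [he, ← h1] at h2
    exact hxy h2.symm
  constructor
  · rintro ⟨F, hF⟩
    have key : ∀ τ : TI G p T n, Cc (F (anc (hi tt g h b τ))) (F (lo Δ m τ))
        (F (hi tt g h b τ)) := by
      intro τ
      have h1 : C3 (fun x : Fin 3 => F (psi Δ m tt g h b mC τ (mC x))) := by
        rw [hC]
        refine ⟨fun d => F (psi Δ m tt g h b mC τ d), ?_, fun x => rfl⟩
        intro R t ht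
        exact hF R _ (Or.inr ⟨τ, t, ht, rfl⟩)
      unfold C3 at h1
      beta_reduce at h1
      have e0 : psi Δ m tt g h b mC τ (mC 0) = anc (hi tt g h b τ) := by
        unfold psi
        rw [if_pos rfl]
      have e1 : psi Δ m tt g h b mC τ (mC 1) = lo Δ m τ := by
        unfold psi
        rw [if_neg m01, if_pos rfl]
      have e2 : psi Δ m tt g h b mC τ (mC 2) = hi tt g h b τ := by
        unfold psi
        rw [if_neg m02, if_neg m12, if_pos rfl]
      rw [e0, e1, e2] at h1
      exact h1
    refine ⟨fun v s => F (.main v s), fun v α β t => F (.site v α β t),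
      fun v α β t j => F (.fr v α β t (m j)), ?_, ?_, ?_, ?_, ?_, ?_⟩
    · intro v α β t
      rw [hS]
      refine ⟨fun d => F (.fr v α β t d), ?_, fun x => rfl⟩
      intro R d hd
      exact hF R _ (Or.inl ⟨v, α, β, t, d, hd, rfl⟩)
    · intro v α β t j
      have h1 := key (.f v α β t j)
      simp only [hi, lo] at h1
      rw [F_anc_site F] at h1
      exact h1
    · intro v α β s
      have h1 := key (.u v α β s)
      simp only [hi, lo] at h1
      rw [F_anc F] at h1
      exact h1
    · intro v α β s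
      have h1 := key (.x v α β s)
      simp only [hi, lo] at h1
      rw [F_anc F] at h1
      exact h1
    · intro v α β s
      have h1 := key (.y v α β s)
      simp only [hi, lo] at h1
      rw [F_anc F] at h1
      exact h1
    · intro v α β s
      have h1 := key (.z v α β s)
      simp only [hi, lo] at h1
      rw [F_anc F] at h1
      exact h1
  · rintro ⟨M, A, Fr, hSat⟩
    have hfr : ∀ v α β t, ∃ f : D → Word c, Hom 𝔇 𝔅 f ∧ ∀ x, Fr v α β t x = f (m x) :=
      fun v α β t => (hS _).1 (hSat.cop v α β t)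
    choose f hf1 hf2 using hfr
    obtain ⟨F0, hF0⟩ : ∃ F0 : EE G p I T n D DC → Word c, F0 = fun e => match e with
      | .main v s => M v s
      | .site v α β t => A v α β t
      | .fr v α β t d => f v α β t d
      | .tf _ _ => M 1 0 := ⟨_, rfl⟩
    have F0m : ∀ v s, F0 (.main v s) = M v s := fun v s => by rw [hF0]
    have F0s : ∀ v α β t, F0 (.site v α β t) = A v α β t := fun v α β t => by rw [hF0]
    have F0f : ∀ v α β t d, F0 (.fr v α β t d) = f v α β t d := fun v α β t d => by rw [hF0]
    have hMF : (fun v s => F0 (.main v s)) = M := by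
      funext v s
      exact F0m v s
    have key : ∀ τ : TI G p T n, Cc (F0 (anc (hi tt g h b τ))) (F0 (lo Δ m τ))
        (F0 (hi tt g h b τ)) := by
      intro τ
      cases τ with
      | f v α β t j =>
        simp only [hi, lo]
        rw [F_anc_site F0, F0m, F0f, F0s, ← hf2]
        exact hSat.f v α β t j
      | u v α β s =>
        simp only [hi, lo]
        rw [F_anc F0, hMF, F0m, F0s]
        exact hSat.u v α β s
      | x v α β s =>
        simp only [hi, lo]
        rw [F_anc F0, hMF, F0m, F0s]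
        exact hSat.x v α β s
      | y v α β s =>
        simp only [hi, lo]
        rw [F_anc F0, hMF, F0m, F0s]
        exact hSat.y v α β s
      | z v α β s =>
        simp only [hi, lo]
        rw [F_anc F0, hMF, F0m, F0s]
        exact hSat.z v α β s
    have hk : ∀ τ : TI G p T n, ∃ k : DC → Word c, Hom ℭ 𝔅 k ∧
        k (mC 0) = F0 (anc (hi tt g h b τ)) ∧ k (mC 1) = F0 (lo Δ m τ) ∧
        k (mC 2) = F0 (hi tt g h b τ) := by
      intro τ
      obtain ⟨k, hk1, hk2⟩ := (hC ![F0 (anc (hi tt g h b τ)), F0 (lo Δ m τ),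
        F0 (hi tt g h b τ)]).1 (key τ)
      exact ⟨k, hk1, (hk2 0).symm, (hk2 1).symm, (hk2 2).symm⟩
    choose k hk1 hk2 hk3 hk4 using hk
    obtain ⟨F, hF⟩ : ∃ F : EE G p I T n D DC → Word c, F = fun e => match e with
      | .main v s => M v s
      | .site v α β t => A v α β t
      | .fr v α β t d => f v α β t d
      | .tf τ d => k τ d := ⟨_, rfl⟩
    have Fm : ∀ v s, F (.main v s) = M v s := fun v s => by rw [hF]
    have Fs : ∀ v α β t, F (.site v α β t) = A v α β t := fun v α β t => by rw [hF]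
    have Ff : ∀ v α β t d, F (.fr v α β t d) = f v α β t d := fun v α β t d => by rw [hF]
    have Ft : ∀ τ d, F (.tf τ d) = k τ d := fun τ d => by rw [hF]
    have Flo : ∀ τ, F (lo Δ m τ) = F0 (lo Δ m τ) := by
      intro τ
      cases τ <;> simp only [lo] <;> first | rw [Ff, F0f] | rw [Fs, F0s]
    have Fhi : ∀ τ, F (hi tt g h b τ) = F0 (hi tt g h b τ) := by
      intro τ
      cases τ <;> simp only [hi] <;> first | rw [Fm, F0m] | rw [Fs, F0s]
    have Fan : ∀ w, F (anc w) = F0 (anc w) := by
      intro w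
      unfold anc
      by_cases hw : w = .main 1 0
      · rw [if_pos hw, Fm, F0m]
      · rw [if_neg hw, Fm, F0m]
    have Fpsi : ∀ τ d, F (psi Δ m tt g h b mC τ d) = k τ d := by
      intro τ d
      unfold psi
      by_cases h0 : d = mC 0
      · rw [if_pos h0, h0, hk2, Fan]
      · rw [if_neg h0]
        by_cases h1 : d = mC 1
        · rw [if_pos h1, h1, hk3, Flo]
        · rw [if_neg h1]
          by_cases h2 : d = mC 2
          · rw [if_pos h2, h2, hk4, Fhi]
          · rw [if_neg h2, Ft]
    refine ⟨F, ?_⟩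
    rintro R e (⟨v, α, β, t, d, hd, rfl⟩ | ⟨τ, d, hd, rfl⟩)
    · simp only [Ff]
      exact hf1 v α β t R d hd
    · simp only [Fpsi]
      exact hk1 τ R d hd

end Pool.Agent.Work.MP_8dbde4_lc.Phy
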