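import Pool.Agent.Work.MP_8dbde4_lc.Phy.Stmts

/-!
Item [8dbde4 PH SHP]: shapes with three blocks.
-/

set_option autoImplicit false
open Classical

namespace Pool.Agent.Work.MP_8dbde4_lc.Phy

open Pool.Agent.Work.MP_8dbde4_lc.TS Pool.Agent.Work.MP_8dbde4_lc.Tree

namespace XSHP

variable {c : ℚ → Bool}

/-- The case where all splits of `v'` on `Y''` are those of `u`. -/
theorem same_case {X : Type} {S T : (X → Word c) → Prop} {Y' Y'' : Set X} {u v' : X → Word c}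
    (hu : Loc S Y' u) (hss : Y'' ⊂ Y')
    (hT : ∀ Y'' ⊂ Y', ∀ h, (∃ w, S w ∧ Spl Y'' w h) → ∃ w, T w ∧ Spl Y'' w h)
    (hne : ∃ x ∈ Y'', ∃ y ∈ Y'', x ≠ y) (hs : SameOn Y'' u v') :
    ∃ w, T w ∧ ∃ h, Spl Y'' v' h ∧ Spl Y'' w h := by
  obtain ⟨w, hw, h, h1, h2⟩ := hu Y'' hss.subset hne
  obtain ⟨w', hw', h3⟩ := hT Y'' hss h ⟨w, hw, h2⟩
  exact ⟨w', hw', h, h1.transfer hs, h3⟩

end XSHP

theorem SHP_pf (hEXI : S_EXI) (hJOI : S_JOI) : S_SHP := by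
  intro c X _ S T Y' A₁ A₂ A₃ hY hd12 hd3 hn1 hn2 hn3 hS hsep hT hTw hSw
  obtain ⟨u, hu⟩ := hEXI c X S Y' hS hsep
  obtain ⟨v₁, hv1, hv1f, hv1t⟩ := hJOI c X u u (fun x => decide (x ∈ A₁))
  obtain ⟨v', hv', hv'f, hv't⟩ := hJOI c X v₁ u (fun x => decide (x ∈ A₃))
  obtain ⟨a1, ha1⟩ := hn1
  obtain ⟨a2, ha2⟩ := hn2
  obtain ⟨a3, ha3⟩ := hn3
  have d12 : ∀ x, x ∈ A₁ → x ∈ A₂ → False := fun x h1 h2 => Set.disjoint_left.1 hd12 h1 h2
  have d13 : ∀ x, x ∈ A₁ → x ∈ A₃ → False := fun x h1 h2 =>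
    Set.disjoint_left.1 hd3 (Or.inl h1) h2
  have d23 : ∀ x, x ∈ A₂ → x ∈ A₃ → False := fun x h1 h2 =>
    Set.disjoint_left.1 hd3 (Or.inr h1) h2
  have s1 : A₁ ⊆ Y' := by rw [hY]; exact fun x hx => Or.inl (Or.inl hx)
  have s2 : A₂ ⊆ Y' := by rw [hY]; exact fun x hx => Or.inl (Or.inr hx)
  have s3 : A₃ ⊆ Y' := by rw [hY]; exact fun x hx => Or.inr hx
  -- the first split on `Y'`
  have P3 : Spl Y' v' (fun x => decide (x ∈ A₃)) := by
    refine ⟨⟨a1, s1 ha1, a3, s3 ha3, ?_⟩, fun x _ y _ z _ h1 h2 => hv' x y z h1 h2⟩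
    have : a1 ∉ A₃ := fun h => d13 a1 ha1 h
    simp [this, ha3]
  have P1' : Spl (A₁ ∪ A₂) v₁ (fun x => decide (x ∈ A₁)) := by
    refine ⟨⟨a1, Or.inl ha1, a2, Or.inr ha2, ?_⟩, fun x _ y _ z _ h1 h2 => hv1 x y z h1 h2⟩
    have : a2 ∉ A₁ := fun h => d12 a2 h ha2
    simp [this, ha1]
  have sm : SameOn (A₁ ∪ A₂) v₁ v' := by
    refine hv'f.mono ?_
    intro x hx
    have : x ∉ A₃ := by
      rcases hx with hx | hx
      · exact fun h => d13 x hx h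
      · exact fun h => d23 x hx h
    simp [this]
  have P1 : Spl (A₁ ∪ A₂) v' (fun x => decide (x ∈ A₁)) := P1'.transfer sm
  refine ⟨v', ?_, P3, P1⟩
  intro Y'' hsub hne
  by_cases hm3 : ∃ x ∈ Y'', x ∈ A₃
  · by_cases hm12 : ∃ x ∈ Y'', x ∉ A₃
    · obtain ⟨x, hx, hx3⟩ := hm3
      obtain ⟨y, hy, hy3⟩ := hm12
      have hne' : ∃ x ∈ Y'', ∃ y ∈ Y'', (fun x => decide (x ∈ A₃)) x ≠ (fun x => decide (x ∈ A₃)) y :=
        ⟨x, hx, y, hy, by simp [hx3, hy3]⟩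
      obtain ⟨w, hw, hws⟩ := hTw
      exact ⟨w, hw, _, P3.mono hsub hne', hws.mono hsub hne'⟩
    · -- `Y'' ⊆ A₃`
      push Not at hm12
      have hss : Y'' ⊂ Y' := by
        refine ⟨hsub, fun h => ?_⟩
        exact d13 a1 ha1 (hm12 a1 (h (s1 ha1)))
      refine XSHP.same_case hu hss hT hne ?_
      refine hv't.mono ?_
      intro x hx
      simp [hm12 x hx]
  · push Not at hm3
    have hss : Y'' ⊂ Y' := ⟨hsub, fun h => hm3 a3 (h (s3 ha3)) ha3⟩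
    have hsub12 : Y'' ⊆ A₁ ∪ A₂ := by
      intro x hx
      have := hsub hx
      rw [hY] at this
      rcases this with h | h
      · exact h
      · exact absurd h (hm3 x hx)
    by_cases hm1 : ∃ x ∈ Y'', x ∈ A₁
    · by_cases hm2 : ∃ x ∈ Y'', x ∉ A₁
      · obtain ⟨x, hx, hx3⟩ := hm1
        obtain ⟨y, hy, hy3⟩ := hm2
        have hne' : ∃ x ∈ Y'', ∃ y ∈ Y'',
            (fun x => decide (x ∈ A₁)) x ≠ (fun x => decide (x ∈ A₁)) y :=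
          ⟨x, hx, y, hy, by simp [hx3, hy3]⟩
        obtain ⟨w, hw, hws⟩ := hSw
        obtain ⟨w', hw', h3⟩ := hT Y'' hss _ ⟨w, hw, hws.mono hsub hne'⟩
        exact ⟨w', hw', _, P1.mono hsub12 hne', h3⟩
      · push Not at hm2
        refine XSHP.same_case hu hss hT hne ?_
        refine SameOn.trans (hv1t.mono ?_) (sm.mono hsub12)
        intro x hx
        simp [hm2 x hx]
    · push Not at hm1
      refine XSHP.same_case hu hss hT hne ?_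
      refine SameOn.trans (hv1f.mono ?_) (sm.mono hsub12)
      intro x hx
      simp [hm1 x hx]

end Pool.Agent.Work.MP_8dbde4_lc.Phy
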