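import Pool.Agent.Work.MP_8dbde4_lc.Phy.Stmts

/-!
Item UNI of the block Phy: all the subsets of `I`, by strong induction on the size.
-/

set_option autoImplicit false
open Classical

namespace Pool.Agent.Work.MP_8dbde4_lc.Phy

open Pool.Agent.Work.MP_8dbde4_lc.TS Pool.Agent.Work.MP_8dbde4_lc.Tree

namespace XUNI

variable {c : ℚ → Bool}

lemma cc_of_ne {z x : Word c} (h : z ≠ x) : Cc z x x := by
  have hfin : {q | z.1 q ≠ x.1 q}.Finite := by
    refine (z.2.union x.2).subset ?_
    intro q hq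
    by_contra hc
    simp only [Set.mem_union, Set.mem_ofPred_eq, not_or, not_not] at hc
    exact hq (hc.1.trans hc.2.symm)
  have hne : {q | z.1 q ≠ x.1 q}.Nonempty := by
    by_contra hc
    rw [Set.not_nonempty_iff_eq_empty] at hc
    apply h
    apply Subtype.ext
    funext q
    by_contra hq
    have : q ∈ {q | z.1 q ≠ x.1 q} := hq
    rw [hc] at this
    exact this
  obtain ⟨q, hq, hmin⟩ := Set.exists_min_image _ id hfin hne
  have hA : Agr z x q := by
    intro q' hq'
    by_contra hc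
    exact absurd (hmin q' hc) (not_le.2 hq')
  exact ⟨q, hA, hA, rfl, hq⟩

lemma ne_of_cc {z x : Word c} (h : Cc z x x) : z ≠ x := by
  rintro rfl
  obtain ⟨q, _, _, _, h4⟩ := h
  exact h4 rfl

end XUNI

theorem UNI_pf (hPAI : S_PAI) (hTRI : S_TRI) : S_UNI := by
  intro c σ 𝔅 hL hK X _ S I Q q hS hMV hQ hsep hGG
  have key : ∀ n : ℕ, ∀ Y' : Set X, Y'.ncard = n → Y' ⊆ I → ∀ h : X → Bool,
      (∃ w, S w ∧ Spl Y' w h) → ∃ w, (S w ∧ Spl Q w q) ∧ Spl Y' w h := by
    intro n
    induction n using Nat.strong_induction_on with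
    | _ n ih =>
      intro Y' hn hY h hw
      by_cases h3 : ∃ x ∈ Y', ∃ y ∈ Y', ∃ z ∈ Y', x ≠ y ∧ x ≠ z ∧ y ≠ z
      · refine hTRI c σ 𝔅 hL hK X S I Q q hS hMV hQ Y' hY h3 ?_ ?_ ?_ h hw
        · intro x hx y hy hxy
          exact hsep x (hY hx) y (hY hy) hxy
        · exact hGG _ (Set.ncard_le_ncard hY (Set.toFinite I))
        · intro Y'' hY'' h' hw'
          exact ih Y''.ncard (hn ▸ Set.ncard_lt_ncard hY'' (Set.toFinite Y')) Y'' rfl
            (hY''.1.trans hY) h' hw'
      · obtain ⟨w, hw, ⟨⟨x, hx, y, hy, hxy⟩, h2⟩⟩ := hw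
        have hne : x ≠ y := fun e => hxy (by rw [e])
        have hall : ∀ z ∈ Y', z = x ∨ z = y := by
          intro z hz
          by_contra hc
          rw [not_or] at hc
          exact h3 ⟨x, hx, y, hy, z, hz, hne, fun e => hc.1 e.symm, fun e => hc.2 e.symm⟩
        have hwxy : w x ≠ w y :=
          fun e => XUNI.ne_of_cc (h2 x hx x hx y hy rfl (fun e => hxy e.symm)) e.symm
        obtain ⟨w', hw'S, hw'Q, hw'⟩ := hPAI c σ 𝔅 hL hK X S I Q q hS hMV hQ x (hY hx) y (hY hy)
          ⟨w, hw, hwxy⟩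
        refine ⟨w', ⟨hw'S, hw'Q⟩, ⟨x, hx, y, hy, hxy⟩, ?_⟩
        intro a ha b hb z hz hab hza
        rcases hall a ha with rfl | rfl <;> rcases hall b hb with rfl | rfl <;>
          rcases hall z hz with rfl | rfl <;>
          first
          | exact absurd rfl hza
          | exact absurd hab hxy
          | exact absurd hab.symm hxy
          | exact XUNI.cc_of_ne hw'
          | exact XUNI.cc_of_ne hw'.symm
  intro Y' hY h hw
  exact key _ Y' rfl hY h hw

end Pool.Agent.Work.MP_8dbde4_lc.Phy
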