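import Pool.Agent.Work.MP_8dbde4_lc.Tree.Main
import Pool.Agent.Work.MP_8dbde4_lc.Phy.Example
import Pool.Agent.Work.MP_8dbde4_lc.Phy.I_PLC
import Pool.Agent.Work.MP_8dbde4_lc.Phy.I_FSX
import Pool.Agent.Work.MP_8dbde4_lc.Phy.I_GLU
import Pool.Agent.Work.MP_8dbde4_lc.Phy.I_CPS
import Pool.Agent.Work.MP_8dbde4_lc.Phy.I_JOI
import Pool.Agent.Work.MP_8dbde4_lc.Phy.I_OPC
import Pool.Agent.Work.MP_8dbde4_lc.Phy.I_AMA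
import Pool.Agent.Work.MP_8dbde4_lc.Phy.I_PPB
import Pool.Agent.Work.MP_8dbde4_lc.Phy.I_PPQ
import Pool.Agent.Work.MP_8dbde4_lc.Phy.I_INV
import Pool.Agent.Work.MP_8dbde4_lc.Phy.I_BAL
import Pool.Agent.Work.MP_8dbde4_lc.Phy.I_EXI
import Pool.Agent.Work.MP_8dbde4_lc.Phy.I_SHP
import Pool.Agent.Work.MP_8dbde4_lc.Phy.I_PAI
import Pool.Agent.Work.MP_8dbde4_lc.Phy.I_GDG
import Pool.Agent.Work.MP_8dbde4_lc.Phy.I_TRI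
import Pool.Agent.Work.MP_8dbde4_lc.Phy.I_UNI
import Pool.Agent.Work.MP_8dbde4_lc.Phy.I_MVH
import Pool.Agent.Work.MP_8dbde4_lc.Phy.I_MVA
import Pool.Agent.Work.MP_8dbde4_lc.Phy.I_GIN
import Pool.Agent.Work.MP_8dbde4_lc.Phy.I_HRN
import Pool.Agent.Work.MP_8dbde4_lc.Phy.I_SAT
import Pool.Agent.Work.MP_8dbde4_lc.Phy.I_RLZ
import Pool.Agent.Work.MP_8dbde4_lc.Phy.I_SA0
import Pool.Agent.Work.MP_8dbde4_lc.Phy.I_UN1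
import Pool.Agent.Work.MP_8dbde4_lc.Phy.I_BFP
import Pool.Agent.Work.MP_8dbde4_lc.Phy.I_KPF
import Pool.Agent.Work.MP_8dbde4_lc.Phy.I_KPX
import Pool.Agent.Work.MP_8dbde4_lc.Phy.I_GLG
import Pool.Agent.Work.MP_8dbde4_lc.Phy.I_LEX
import Pool.Agent.Work.MP_8dbde4_lc.Phy.I_HDF
import Pool.Agent.Work.MP_8dbde4_lc.Phy.I_TRA
import Pool.Agent.Work.MP_8dbde4_lc.Phy.I_POP
import Pool.Agent.Work.MP_8dbde4_lc.Phy.I_F2C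
import Pool.Agent.Work.MP_8dbde4_lc.Phy.I_HMC
import Pool.Agent.Work.MP_8dbde4_lc.Phy.I_AUT
import Pool.Agent.Work.MP_8dbde4_lc.Phy.I_FBC

/-!
# The classification of phylogeny languages
-/

set_option autoImplicit false
open Classical

namespace Pool.Agent.Work.MP_8dbde4_lc.Phy

open Pool.Agent.Work.MP_8dbde4_lc.TS Pool.Agent.Work.MP_8dbde4_lc.Tree

variable {c : ℚ → Bool} {σ : Sig}

theorem AMA_ok : S_AMA := AMA_pf OPC_pf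
theorem INV_ok : S_INV := INV_pf AMA_ok
theorem PPQ_ok : S_PPQ := PPQ_pf PPB_pf
theorem FSX_ok : S_FSX := FSX_pf PLC_pf
theorem EXI_ok : S_EXI := EXI_pf FSX_ok JOI_pf
theorem SHP_ok : S_SHP := SHP_pf EXI_ok JOI_pf
theorem PAI_ok : S_PAI := PAI_pf INV_ok PPB_pf PPQ_ok
theorem GDG_ok : S_GDG := GDG_pf PPB_pf PPQ_ok INV_ok FSX_ok PLC_pf GLU_pf
theorem TRI_ok : S_TRI := TRI_pf FSX_ok BAL_pf SHP_ok GDG_ok PPQ_ok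
theorem UNI_ok : S_UNI := UNI_pf PAI_ok TRI_ok
theorem MVH_ok : S_MVH := MVH_pf PLC_pf GLU_pf AMA_ok
theorem MVA_ok : S_MVA := MVA_pf PLC_pf GLU_pf AMA_ok
theorem GIN_ok : S_GIN := GIN_pf PPB_pf PPQ_ok CPS_pf GLU_pf UNI_ok MVH_ok MVA_ok
theorem HRN_ok : S_HRN := HRN_pf FSX_ok PPB_pf BAL_pf INV_ok
theorem SA0_ok : S_SA0 := SA0_pf (RLZ_pf PLC_pf)
theorem HMC_ok : S_HMC := HMC_pf OPC_pf CTB_pf

/-- The engine: definability in FPC implies closure properties. -/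
theorem KP_ok (𝔅 : Str σ (Word c)) (hL : PLang 𝔅) (h : InFPC (CSP 𝔅)) : KP 𝔅 :=
  KPX_pf PPB_pf c σ 𝔅 (KPF_pf GAME_pf PGRP_ok DEN_ok GAD_ok TWIN_pf INV_ok SAT_pf SA0_ok
    (UN1_pf PLC_pf) (BFP_pf EXT_ok) c σ 𝔅 hL h)

theorem GG_ok (𝔅 : Str σ (Word c)) (hL : PLang 𝔅) (hK : KP 𝔅) : ∀ n, GG 𝔅 n := by
  intro n
  induction n using Nat.strong_induction_on with
  | _ n ih => exact GIN_ok c σ 𝔅 hL hK n ih

theorem hornC_of_inFPC (𝔅 : Str σ (Word c)) (hL : PLang 𝔅) (h : InFPC (CSP 𝔅)) :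
    ∀ R, HornC (𝔅.rel R) := fun R =>
  HRN_ok c σ 𝔅 hL (KP_ok 𝔅 hL h) (GG_ok 𝔅 hL (KP_ok 𝔅 hL h)) _ (𝔅.rel R)
    ((PPB_pf σ (Word c) 𝔅).1 R)

theorem inFP_of_hornC (𝔅 : Str σ (Word c)) (h : ∀ R, HornC (𝔅.rel R)) : InFP (CSP 𝔅) :=
  POP_pf POS_ok GLG_pf LEX_pf (HDF_pf PLC_pf) TR1_pf TR2_pf c σ 𝔅 h

theorem rfbh_ok (𝔅 : Str σ (Word c)) (h : ∀ R, Inv (𝔅.rel R)) : RFBH 𝔅 :=
  ⟨CTB_pf Bool c, ssum σ (sg 3), Bc 𝔅, HMC_ok c σ 𝔅 h, FBC_pf c σ 𝔅 h,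
    fun R => ⟨Sum.inl R, rfl, fun _ => Iff.rfl⟩⟩

/-- Invariance under the automorphisms of the split relation. -/
def AutInv {X : Type} (S : (X → Word c) → Prop) : Prop :=
  ∀ g : Word c ≃ Word c, (∀ x y z, Cc x y z ↔ Cc (g x) (g y) (g z)) →
    ∀ v, S v → S (fun x => g (v x))

theorem inv_of_autInv {n : ℕ} {S : (Fin n → Word c) → Prop} (h : AutInv S) : Inv S :=
  (AUT_pf HMC_ok c (Fin n) S).2 h

end Pool.Agent.Work.MP_8dbde4_lc.Phy
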