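import Pool.Agent.Work.MP_8dbde4_lc.Tree.StmtsH

/-!
# Phylogeny languages: definitions

The domain is `Word c` for a word `c : ℚ → Bool` (the binary branching tree); `Cc z x y` says that
`z` splits off from `x` and `y` first.
-/

set_option autoImplicit false
open Classical

namespace Pool.Agent.Work.MP_8dbde4_lc.Phy

open Pool.Agent.Work.MP_8dbde4_lc.TS Pool.Agent.Work.MP_8dbde4_lc.Tree

variable {c : ℚ → Bool} {σ : Sig}

/-- On `Y` the tuples `v` and `w` have the same equalities and the same splits. -/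
def SameOn {X : Type} (Y : Set X) (v w : X → Word c) : Prop :=
  (∀ x ∈ Y, ∀ y ∈ Y, v x = v y ↔ w x = w y) ∧
    ∀ x ∈ Y, ∀ y ∈ Y, ∀ z ∈ Y, Cc (v z) (v x) (v y) ↔ Cc (w z) (w x) (w y)

/-- The partition given by `h` is the first split of `v` on `Y`. -/
def Spl {X : Type} (Y : Set X) (v : X → Word c) (h : X → Bool) : Prop :=
  (∃ x ∈ Y, ∃ y ∈ Y, h x ≠ h y) ∧
    ∀ x ∈ Y, ∀ y ∈ Y, ∀ z ∈ Y, h x = h y → h z ≠ h x → Cc (v z) (v x) (v y)

/-- Invariant sets of tuples (unions of orbits). -/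
def Inv {X : Type} (S : (X → Word c) → Prop) : Prop :=
  ∀ v w : X → Word c, SameOn Set.univ v w → S v → S w

/-- Homomorphisms. -/
def Hom {A B : Type} (𝔄 : Str σ A) (𝔅 : Str σ B) (f : A → B) : Prop :=
  ∀ (R : σ.S) (t : Fin (σ.ar R) → A), 𝔄.rel R t → 𝔅.rel R (fun j => f (t j))

/-- `S` is primitive positive definable in `𝔅`: its members are the restrictions, along a map `m`,
of the homomorphisms from a finite structure `𝔇` to `𝔅`. -/
def PP {B : Type} (𝔅 : Str σ B) {X : Type} (S : (X → B) → Prop) : Prop :=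
  ∃ (D : Type) (_ : Finite D) (𝔇 : Str σ D) (m : X → D),
    ∀ v, S v ↔ ∃ f : D → B, Hom 𝔇 𝔅 f ∧ ∀ x, v x = f (m x)

/-- The split relation as a set of triples. -/
def C3 (v : Fin 3 → Word c) : Prop := Cc (v 0) (v 1) (v 2)

/-- The languages under consideration: all the relations are invariant and the split relation is
primitive positive definable. -/
structure PLang (𝔅 : Str σ (Word c)) : Prop where
  inv : ∀ R, Inv (𝔅.rel R)
  ppC : PP 𝔅 (C3 (c := c))

/-- The first splits of the tuples of a primitive positive definable set are closed under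
intersection. -/
def KP (𝔅 : Str σ (Word c)) : Prop :=
  ∀ (X : Type) [Finite X] (S : (X → Word c) → Prop), PP 𝔅 S → ∀ (Y : Set X) (h h' : X → Bool),
    (∃ v, S v ∧ Spl Y v h) → (∃ v, S v ∧ Spl Y v h') →
    (∃ x ∈ Y, ∃ y ∈ Y, (h x && h' x) ≠ (h y && h' y)) →
    ∃ v, S v ∧ Spl Y v (fun x => h x && h' x)

/-- The first split of `v` on every subset of `Y` with at least two elements is a first split of some
member of `S` (so `v` is injective on `Y`). -/
def Loc {X : Type} (S : (X → Word c) → Prop) (Y : Set X) (v : X → Word c) : Prop :=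
  ∀ Y' ⊆ Y, (∃ x ∈ Y', ∃ y ∈ Y', x ≠ y) → ∃ w, S w ∧ ∃ h, Spl Y' v h ∧ Spl Y' w h

/-- Tuples on sets of `n` coordinates whose first splits all occur in `S` occur in `S`. -/
def GG (𝔅 : Str σ (Word c)) (n : ℕ) : Prop :=
  ∀ (X : Type) [Finite X] (S : (X → Word c) → Prop), PP 𝔅 S → (∃ w, S w) →
    ∀ (Y : Set X) (v : X → Word c), Y.ncard = n → Loc S Y v → ∃ w, S w ∧ SameOn Y v w

/-- Constant patterns and first splits of the members of `S` on `Y`. -/
def Pat {X : Type} (S : (X → Word c) → Prop) (Y : Set X) (h : X → Bool) : Prop :=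
  (∀ x ∈ Y, ∀ y ∈ Y, h x = h y) ∨ ∃ v, S v ∧ Spl Y v h

/-- The moving property: a member `w₁` of `S` can be moved, without changing its splits, such that
it is glued to a member `w₀` of `S` with first split `q` on `Q` along at most three coordinates
from `I`, and such that on the two copies of `Q` together `q` on the first copy and `false` on the
second copy is the first split. -/
def MV {X : Type} (S : (X → Word c) → Prop) (I Q : Set X) (q : X → Bool) : Prop :=
  ∀ w₀ w₁ : X → Word c, S w₀ → Spl Q w₀ q → S w₁ → ∀ a b : Fin 3 → X, (∀ k, a k ∈ I) →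
    (∀ k, b k ∈ I) → SameOn Set.univ (fun k => w₀ (a k)) (fun k => w₁ (b k)) →
    ∃ g : X → Word c, SameOn Set.univ w₁ g ∧ (∀ k, g (b k) = w₀ (a k)) ∧
      Spl {z : Bool × X | z.2 ∈ Q} (fun z => if z.1 then g z.2 else w₀ z.2)
        (fun z => if z.1 then false else q z.2)

/-- A Horn clause over first splits: if the premise holds, then the first split on the set `Y` does
not separate `i` and `j` (for `Y = {i, j}`: `i` and `j` are equal); `none`: false. -/
structure Cl (n : ℕ) where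
  prem : Set (Fin n × Fin n)
  concl : Option (Fin n × Fin n × Set (Fin n))

/-- Truth of a conclusion. -/
def CHolds {n : ℕ} (v : Fin n → Word c) : Option (Fin n × Fin n × Set (Fin n)) → Prop
  | none => False
  | some (i, j, Y) => ∀ h : Fin n → Bool, Spl (insert i (insert j Y)) v h → h i = h j

/-- Truth of a clause. -/
def Cl.Holds {n : ℕ} (C : Cl n) (v : Fin n → Word c) : Prop :=
  (∀ e ∈ C.prem, v e.1 = v e.2) → CHolds v C.concl

/-- The relation is defined by a conjunction of Horn clauses over first splits. -/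
def HornC {n : ℕ} (R : (Fin n → Word c) → Prop) : Prop :=
  ∃ cs : Set (Cl n), ∀ v, R v ↔ ∀ C ∈ cs, C.Holds v

/-! ### Easy facts -/

theorem Spl.mono {X : Type} {Y Y' : Set X} {v : X → Word c} {h : X → Bool} (H : Spl Y v h)
    (hY : Y' ⊆ Y) (hn : ∃ x ∈ Y', ∃ y ∈ Y', h x ≠ h y) : Spl Y' v h :=
  ⟨hn, fun x hx y hy z hz => H.2 x (hY hx) y (hY hy) z (hY hz)⟩

theorem Spl.congr {X : Type} {Y : Set X} {v : X → Word c} {h h' : X → Bool} (H : Spl Y v h)
    (he : ∀ x ∈ Y, ∀ y ∈ Y, h x = h y ↔ h' x = h' y) : Spl Y v h' := by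
  obtain ⟨⟨x, hx, y, hy, hxy⟩, H2⟩ := H
  refine ⟨⟨x, hx, y, hy, fun h1 => hxy ((he x hx y hy).2 h1)⟩, ?_⟩
  intro x hx y hy z hz h1 h2
  exact H2 x hx y hy z hz ((he x hx y hy).2 h1) (fun h3 => h2 ((he z hz x hx).1 h3))

theorem Spl.not {X : Type} {Y : Set X} {v : X → Word c} {h : X → Bool} (H : Spl Y v h) :
    Spl Y v (fun x => !h x) :=
  H.congr (fun x _ y _ => by simp)

theorem SameOn.symm {X : Type} {Y : Set X} {v w : X → Word c} (H : SameOn Y v w) :
    SameOn Y w v :=
  ⟨fun x hx y hy => (H.1 x hx y hy).symm, fun x hx y hy z hz => (H.2 x hx y hy z hz).symm⟩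

theorem SameOn.trans {X : Type} {Y : Set X} {u v w : X → Word c} (H : SameOn Y u v)
    (H' : SameOn Y v w) : SameOn Y u w :=
  ⟨fun x hx y hy => (H.1 x hx y hy).trans (H'.1 x hx y hy),
    fun x hx y hy z hz => (H.2 x hx y hy z hz).trans (H'.2 x hx y hy z hz)⟩

theorem SameOn.mono {X : Type} {Y Y' : Set X} {v w : X → Word c} (H : SameOn Y v w)
    (hY : Y' ⊆ Y) : SameOn Y' v w :=
  ⟨fun x hx y hy => H.1 x (hY hx) y (hY hy),
    fun x hx y hy z hz => H.2 x (hY hx) y (hY hy) z (hY hz)⟩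

theorem Spl.transfer {X : Type} {Y : Set X} {v w : X → Word c} {h : X → Bool} (H : Spl Y v h)
    (hs : SameOn Y v w) : Spl Y w h :=
  ⟨H.1, fun x hx y hy z hz h1 h2 => (hs.2 x hx y hy z hz).1 (H.2 x hx y hy z hz h1 h2)⟩

theorem Loc.ne {X : Type} {S : (X → Word c) → Prop} {Y : Set X} {v : X → Word c}
    (H : Loc S Y v) {x y : X} (hx : x ∈ Y) (hy : y ∈ Y) (hxy : x ≠ y) :
    v x ≠ v y ∧ ∃ w, S w ∧ w x ≠ w y := by
  have key : ∀ (u : X → Word c) (h : X → Bool), Spl {x, y} u h → u x ≠ u y := by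
    intro u h hs he
    have h2 : h x ≠ h y := by
      obtain ⟨⟨a, ha, b, hb, hab⟩, _⟩ := hs
      intro h3
      apply hab
      have : ∀ c ∈ ({x, y} : Set X), h c = h x := by
        rintro c (rfl | rfl)
        · rfl
        · exact h3.symm
      rw [this a ha, this b hb]
    have h3 := hs.2 x (by simp) x (by simp) y (by simp) rfl (fun h4 => h2 h4.symm)
    obtain ⟨q, _, _, _, h5⟩ := h3
    rw [he] at h5
    exact h5 rfl
  obtain ⟨w, hw, h, h1, h2⟩ := H {x, y} (by
    rintro c (rfl | rfl)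
    · exact hx
    · exact hy) ⟨x, by simp, y, by simp, hxy⟩
  exact ⟨key v h h1, w, hw, key w h h2⟩

theorem Loc.mono {X : Type} {S : (X → Word c) → Prop} {Y Y' : Set X} {v : X → Word c}
    (H : Loc S Y v) (hY : Y' ⊆ Y) : Loc S Y' v := fun Y'' h => H Y'' (h.trans hY)

theorem Loc.weak {X : Type} {S S' : (X → Word c) → Prop} {Y : Set X} {v : X → Word c}
    (H : Loc S Y v) (hS : ∀ w, S w → S' w) : Loc S' Y v := by
  intro Y' h1 h2
  obtain ⟨w, hw, h⟩ := H Y' h1 h2
  exact ⟨w, hS w hw, h⟩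

end Pool.Agent.Work.MP_8dbde4_lc.Phy
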