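import Pool.Agent.Work.MP_8dbde4_lc.Phy.Stmts

set_option autoImplicit false
open Classical

namespace Pool.Agent.Work.MP_8dbde4_lc.Phy

open Pool.Agent.Work.MP_8dbde4_lc.TS Pool.Agent.Work.MP_8dbde4_lc.Tree

namespace XAMA

/-- The set of the coordinates treated so far. -/
def YS {X : Type} (W : Type) (s : Set X) : Set (W ⊕ X) := {z | ∀ x, z = Sum.inr x → x ∈ s}

theorem step (opc : S_OPC) {c : ℚ → Bool} {X W : Type} [Finite X] [Finite W] (w : X → Word c)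
    (a : W → Word c) (b : W → X) (s : Set X) (x₀ : X) (hx₀ : x₀ ∉ s) (g : X → Word c)
    (hg : SameOn (YS W s) (Sum.elim (fun k => w (b k)) w) (Sum.elim a g)) :
    ∃ g' : X → Word c, SameOn (YS W (insert x₀ s)) (Sum.elim (fun k => w (b k)) w)
      (Sum.elim a g') := by
  obtain ⟨y, hy⟩ := opc c {z : W ⊕ X // z ∈ YS W s}
    (fun z => Sum.elim (fun k => w (b k)) w z.1) (fun z => Sum.elim a g z.1)
    ⟨fun x _ y _ => hg.1 x.1 x.2 y.1 y.2, fun x _ y _ z _ => hg.2 x.1 x.2 y.1 y.2 z.1 z.2⟩ (w x₀)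
  refine ⟨Function.update g x₀ y, ?_⟩
  have key : ∀ z ∈ YS W (insert x₀ s), ∃ o : Option {z : W ⊕ X // z ∈ YS W s},
      Sum.elim (fun k => w (b k)) w z =
        o.elim (w x₀) (fun z => Sum.elim (fun k => w (b k)) w z.1) ∧
      Sum.elim a (Function.update g x₀ y) z = o.elim y (fun z => Sum.elim a g z.1) := by
    intro z hz
    rcases z with k | x
    · exact ⟨some ⟨Sum.inl k, fun x hx => by cases hx⟩, rfl, rfl⟩
    · by_cases hx : x = x₀
      · subst hx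
        refine ⟨none, rfl, ?_⟩
        simp
      · have hxs : x ∈ s := by
          rcases hz x rfl with h | h
          · exact absurd h hx
          · exact h
        refine ⟨some ⟨Sum.inr x, fun x' hx' => by cases hx'; exact hxs⟩, rfl, ?_⟩
        simp [Function.update_of_ne hx]
  refine ⟨?_, ?_⟩
  · intro z₁ h₁ z₂ h₂
    obtain ⟨o₁, e₁, e₁'⟩ := key z₁ h₁
    obtain ⟨o₂, e₂, e₂'⟩ := key z₂ h₂
    rw [e₁, e₂, e₁', e₂']
    exact hy.1 o₁ (Set.mem_univ _) o₂ (Set.mem_univ _)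
  · intro z₁ h₁ z₂ h₂ z₃ h₃
    obtain ⟨o₁, e₁, e₁'⟩ := key z₁ h₁
    obtain ⟨o₂, e₂, e₂'⟩ := key z₂ h₂
    obtain ⟨o₃, e₃, e₃'⟩ := key z₃ h₃
    rw [e₁, e₂, e₃, e₁', e₂', e₃']
    exact hy.2 o₁ (Set.mem_univ _) o₂ (Set.mem_univ _) o₃ (Set.mem_univ _)

end XAMA

theorem AMA_pf (opc : S_OPC) : S_AMA := by
  intro c X W _ _ w a b hab
  have key : ∀ s : Set X, s.Finite → ∃ g : X → Word c,
      SameOn (XAMA.YS W s) (Sum.elim (fun k => w (b k)) w) (Sum.elim a g) := by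
    intro s hs
    induction s, hs using Set.Finite.induction_on with
    | empty =>
      refine ⟨w, ?_⟩
      have h1 : ∀ z ∈ XAMA.YS W (∅ : Set X), ∃ k, z = Sum.inl k := by
        intro z hz
        rcases z with k | x
        · exact ⟨k, rfl⟩
        · exact absurd (hz x rfl) (Set.notMem_empty x)
      refine ⟨?_, ?_⟩
      · intro z₁ h₁ z₂ h₂
        obtain ⟨k₁, rfl⟩ := h1 z₁ h₁
        obtain ⟨k₂, rfl⟩ := h1 z₂ h₂
        exact (hab.1 k₁ (Set.mem_univ _) k₂ (Set.mem_univ _)).symm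
      · intro z₁ h₁ z₂ h₂ z₃ h₃
        obtain ⟨k₁, rfl⟩ := h1 z₁ h₁
        obtain ⟨k₂, rfl⟩ := h1 z₂ h₂
        obtain ⟨k₃, rfl⟩ := h1 z₃ h₃
        exact (hab.2 k₁ (Set.mem_univ _) k₂ (Set.mem_univ _) k₃ (Set.mem_univ _)).symm
    | @insert x₀ s hx₀ _ ih =>
      obtain ⟨g, hg⟩ := ih
      exact XAMA.step opc w a b s x₀ hx₀ g hg
  obtain ⟨g, hg⟩ := key Set.univ Set.finite_univ
  have hin : ∀ z : W ⊕ X, z ∈ XAMA.YS W (Set.univ : Set X) := fun z x _ => Set.mem_univ x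
  refine ⟨g, ⟨?_, ?_⟩, ?_⟩
  · intro x _ y _
    exact hg.1 (Sum.inr x) (hin _) (Sum.inr y) (hin _)
  · intro x _ y _ z _
    exact hg.2 (Sum.inr x) (hin _) (Sum.inr y) (hin _) (Sum.inr z) (hin _)
  · intro k
    exact ((hg.1 (Sum.inl k) (hin _) (Sum.inr (b k)) (hin _)).1 rfl).symm

end Pool.Agent.Work.MP_8dbde4_lc.Phy
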