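import Pool.Agent.Work.MP_8dbde4_lc.Phy.Stmts2

set_option autoImplicit false
open Classical

namespace Pool.Agent.Work.MP_8dbde4_lc.Phy
open Pool.Agent.Work.MP_8dbde4_lc.TS Pool.Agent.Work.MP_8dbde4_lc.Tree

namespace XF2C

/-- The translation of an FP formula; the arity environment `a` records the arity of the innermost
fixed-point operator that binds a relation variable. -/
noncomputable def tr {σ : Sig} : FP σ → (ℕ → Option ℕ) → FPC σ
  | .rel R xs, _ => .rel R xs
  | .eq x y, _ => .eq x y
  | .app X xs, a => if a X = some xs.length then .app X (xs.map Sum.inl) else .neg (.eq 0 0)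
  | .neg φ, a => .neg (tr φ a)
  | .and φ ψ, a => .and (tr φ a) (tr ψ a)
  | .ex x φ, a => .exE x (tr φ a)
  | .ifp X ys φ xs, a =>
      .ifp X (ys.map Sum.inl) (tr φ (Function.update a X (some ys.length))) (xs.map Sum.inl)

lemma sorts_inl {C D : Type} (l : List C) :
    sorts (l.map (Sum.inl : C → C ⊕ D)) = List.replicate l.length false := by
  induction l with
  | nil => rfl
  | cons c l ih =>
    simp only [sorts, List.map_cons, List.length_cons, List.replicate_succ] at ih ⊢
    rw [ih]
    rfl

lemma updE_inl {A : Type} (ys : List ℕ) : ∀ (v : ℕ → A) (l : List A),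
    updE v (ys.map Sum.inl) (l.map Sum.inl) = upd v ys l := by
  induction ys with
  | nil => intro v l; cases l <;> simp [updE, upd]
  | cons y ys ih =>
    intro v l
    cases l with
    | nil => simp [updE, upd]
    | cons c l => simp only [List.map_cons, updE, upd]; exact ih _ _

lemma fits_inl {A : Type} (N : ℕ) (ys : List ℕ) (l : List A) :
    Fits N (ys.map Sum.inl) (l.map Sum.inl) ↔ ys.Nodup ∧ l.length = ys.length := by
  unfold Fits
  rw [sorts_inl, sorts_inl, List.nodup_map_iff Sum.inl_injective]
  constructor
  · rintro ⟨h1, h2, -⟩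
    refine ⟨h1, ?_⟩
    have := congrArg List.length h2
    simpa using this
  · rintro ⟨h1, h2⟩
    refine ⟨h1, by rw [h2], ?_⟩
    intro k hk
    simp at hk

/-- The invariant of the translation. -/
def Inv {A : Type} (a : ℕ → Option ℕ) (β : ℕ → List A → Prop)
    (β' : ℕ → List Bool → List (A ⊕ ℕ) → Prop) : Prop :=
  ∀ (X : ℕ) (l : List A),
    (a X = some l.length → (β' X (List.replicate l.length false) (l.map Sum.inl) ↔ β X l)) ∧
    (a X ≠ some l.length → ¬ β X l)

lemma stage_len {A : Type} {ys : List ℕ} {G : (List A → Prop) → List A → Prop} (n : ℕ)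
    (l : List A)
    (h : stage (fun P l => ys.Nodup ∧ l.length = ys.length ∧ G P l) n l) :
    l.length = ys.length := by
  induction n with
  | zero => exact absurd h (by simp [stage])
  | succ n ih =>
    rcases h with h | h
    · exact ih h
    · exact h.2.1

lemma main {σ : Sig} {A : Type} (𝔄 : Str σ A) (φ : FP σ) :
    ∀ (a : ℕ → Option ℕ) (v : ℕ → A) (ν : ℕ → ℕ) (β : ℕ → List A → Prop)
      (β' : ℕ → List Bool → List (A ⊕ ℕ) → Prop), Inv a β β' →
      ((tr φ a).eval 𝔄 v ν β' ↔ φ.eval 𝔄 v β) := by
  induction φ with
  | rel R xs => intro a v ν β β' h; simp [tr, FPC.eval, FP.eval]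
  | eq x y => intro a v ν β β' h; simp [tr, FPC.eval, FP.eval]
  | app X xs =>
    intro a v ν β β' h
    by_cases hX : a X = some xs.length
    · have h1 := (h X (xs.map v)).1 (by simpa using hX)
      simp only [tr, hX, if_true, FPC.eval, FP.eval]
      rw [sorts_inl]
      rw [← h1]
      simp [Function.comp_def]
    · have h1 := (h X (xs.map v)).2 (by simpa using hX)
      simp only [tr, hX, if_false, FPC.eval, FP.eval]
      simp [h1]
  | neg φ ih => intro a v ν β β' h; simp only [tr, FPC.eval, FP.eval]; rw [ih a v ν β β' h]
  | and φ ψ ih1 ih2 =>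
    intro a v ν β β' h; simp only [tr, FPC.eval, FP.eval]
    rw [ih1 a v ν β β' h, ih2 a v ν β β' h]
  | ex x φ ih =>
    intro a v ν β β' h; simp only [tr, FPC.eval, FP.eval]
    exact exists_congr fun c => ih a _ ν β β' h
  | ifp X ys φ xs ih =>
    intro a v ν β β' h; simp only [tr, FPC.eval, FP.eval]
    refine exists_congr fun n => ?_
    have key : ∀ (n : ℕ) (l : List A),
        stage (fun P l => Fits (Nat.card A) (ys.map Sum.inl) l ∧
          (tr φ (Function.update a X (some ys.length))).eval 𝔄
            (updE v (ys.map Sum.inl) l) (updN ν (ys.map Sum.inl) l)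
            (Function.update β' X (Function.update (β' X) (sorts (ys.map (Sum.inl : ℕ → ℕ ⊕ ℕ))) P)))
          n (l.map Sum.inl) ↔
        stage (fun P l => ys.Nodup ∧ l.length = ys.length ∧
          φ.eval 𝔄 (upd v ys l) (Function.update β X P)) n l := by
      intro n
      induction n with
      | zero => intro l; simp [stage]
      | succ n ihn =>
        intro l
        simp only [stage]
        refine or_congr (ihn l) ?_
        rw [fits_inl, and_assoc]
        refine and_congr_right fun _ => and_congr_right fun hl => ?_
        rw [updE_inl]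
        apply ih
        intro Y k
        by_cases hY : Y = X
        · subst hY
          simp only [Function.update_self]
          refine ⟨?_, ?_⟩
          · intro h1
            have h2 : ys.length = k.length := by simpa using h1
            rw [sorts_inl, h2, Function.update_self]
            have := ihn k
            rw [sorts_inl, h2] at this
            exact this
          · intro h1 h2
            apply h1
            have := stage_len (G := fun P l => φ.eval 𝔄 (upd v ys l) (Function.update β Y P)) n k h2
            simp [this]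
        · simp only [Function.update_of_ne hY]
          exact h Y k
    have e : (xs.map Sum.inl).map (Sum.map v ν) = (xs.map v).map Sum.inl := by
      simp [Function.comp_def]
    rw [e]
    exact key n (xs.map v)

end XF2C

theorem F2C_pf : S_F2C := by
  intro σ 𝒦 ⟨φ, hφ⟩
  refine ⟨XF2C.tr φ (fun _ => none), ?_⟩
  intro A _ _ 𝔄 v ν
  rw [← hφ A 𝔄 v]
  apply XF2C.main
  intro X l
  exact ⟨by simp, by simp⟩

end Pool.Agent.Work.MP_8dbde4_lc.Phy
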