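import Pool.Agent.Work.MP_8dbde4_lc.Phy.Stmts

set_option autoImplicit false
open Classical

namespace Pool.Agent.Work.MP_8dbde4_lc.Phy

open Pool.Agent.Work.MP_8dbde4_lc.TS Pool.Agent.Work.MP_8dbde4_lc.Tree

namespace XTRI

variable {c : ℚ → Bool}

lemma spl_ne {X : Type} {Y : Set X} {v : X → Word c} {h : X → Bool} (H : Spl Y v h) {x y : X}
    (hx : x ∈ Y) (hy : y ∈ Y) (hxy : h x ≠ h y) : v x ≠ v y := by
  intro he
  have h3 := H.2 x hx x hx y hy rfl (fun h4 => hxy h4.symm)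
  obtain ⟨q, _, _, _, h5⟩ := h3
  rw [he] at h5
  exact h5 rfl

lemma pat_congr {X : Type} {S : (X → Word c) → Prop} {Y : Set X} {h h' : X → Bool}
    (H : Pat S Y h) (he : ∀ x ∈ Y, ∀ y ∈ Y, h x = h y ↔ h' x = h' y) : Pat S Y h' := by
  rcases H with H | ⟨v, hv, hs⟩
  · exact Or.inl (fun x hx y hy => (he x hx y hy).1 (H x hx y hy))
  · exact Or.inr ⟨v, hv, hs.congr he⟩

lemma pat_eq {X : Type} {S : (X → Word c) → Prop} {Y : Set X} {h h' : X → Bool}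
    (H : Pat S Y h) (he : ∀ x ∈ Y, h x = h' x) : Pat S Y h' :=
  pat_congr H (fun x hx y hy => by rw [he x hx, he y hy])

lemma pat_weak {X : Type} {S T : (X → Word c) → Prop} {Y : Set X} {h : X → Bool}
    (H : Pat T Y h) (hST : ∀ w, T w → S w) : Pat S Y h := by
  rcases H with H | ⟨v, hv, hs⟩
  · exact Or.inl H
  · exact Or.inr ⟨v, hST v hv, hs⟩

lemma pat_spl {X : Type} {S : (X → Word c) → Prop} {Y : Set X} {h : X → Bool}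
    (H : Pat S Y h) {x y : X} (hx : x ∈ Y) (hy : y ∈ Y) (hxy : h x ≠ h y) :
    ∃ w, S w ∧ Spl Y w h := by
  rcases H with H | H
  · exact absurd (H x hx y hy) hxy
  · exact H

lemma bool_aux (a b d : Bool) : (decide (a = d) = decide (b = d)) ↔ a = b := by
  cases a <;> cases b <;> cases d <;> decide

end XTRI

open XTRI

theorem TRI_pf (hFSX : S_FSX) (hBAL : S_BAL) (hSHP : S_SHP) (hGDG : S_GDG) (hPPQ : S_PPQ) :
    S_TRI := by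
  intro c σ 𝔅 hP hKP X _ S I Q q hS hMV hT0 Y' hY'I h3 hsep hGG hsub h hh
  by_contra hno
  obtain ⟨wh, hwhS, hwh⟩ := hh
  obtain ⟨w00, hw00S, hw00⟩ := hT0
  -- the set T
  set T : (X → Word c) → Prop := fun w => S w ∧ Spl Q w q with hTdef
  have hTS : ∀ w, T w → S w := fun w hw => hw.1
  have hPPT : PP 𝔅 T := (hPPQ c σ 𝔅 hP.ppC X).2 S Q q hS hw00.1
  obtain ⟨hT1, hT2, hT3⟩ := hBAL c σ 𝔅 hKP X T Y' hPPT
  obtain ⟨hS1, hS2, hS3⟩ := hBAL c σ 𝔅 hKP X S Y' hS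
  have hnc : ∃ x ∈ Y', ∃ y ∈ Y', h x ≠ h y := hwh.1
  have hnP : ¬ Pat T Y' h := by
    rintro (H | ⟨v, hv, hs⟩)
    · obtain ⟨x, hx, y, hy, hxy⟩ := hnc
      exact hxy (H x hx y hy)
    · exact hno ⟨v, hv, hs⟩
  obtain ⟨i, hi, j, hj, hij, hg⟩ := hT3 h hnP
  set F : Set X := {y | y ∈ Y' ∧ ∀ g, Pat T Y' g → g y = g i} with hF
  obtain ⟨A₁, hA1⟩ : ∃ A : Set X, ∀ y, y ∈ A ↔ (y ∈ F ∧ h y = h i) :=
    ⟨{y | y ∈ F ∧ h y = h i}, fun y => Iff.rfl⟩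
  obtain ⟨A₂, hA2⟩ : ∃ A : Set X, ∀ y, y ∈ A ↔ (y ∈ F ∧ h y ≠ h i) :=
    ⟨{y | y ∈ F ∧ h y ≠ h i}, fun y => Iff.rfl⟩
  obtain ⟨A₃, hA3⟩ : ∃ A : Set X, ∀ y, y ∈ A ↔ (y ∈ Y' ∧ y ∉ F) :=
    ⟨{y | y ∈ Y' ∧ y ∉ F}, fun y => Iff.rfl⟩
  have hiF : i ∈ F := ⟨hi, fun g _ => rfl⟩
  have hjF : j ∈ F := ⟨hj, fun g hgP => (hg g hgP).symm⟩
  have hiA1 : i ∈ A₁ := (hA1 i).2 ⟨hiF, rfl⟩
  have hjA2 : j ∈ A₂ := (hA2 j).2 ⟨hjF, fun h1 => hij h1.symm⟩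
  have hFY : F ⊆ Y' := fun y hy => hy.1
  have hij' : i ≠ j := fun h1 => hij (by rw [h1])
  -- A₃ is not empty
  have hA3ne : A₃.Nonempty := by
    obtain ⟨x, hx, y, hy, z, hz, hxy, hxz, hyz⟩ := h3
    obtain ⟨k, hk, hki, hkj⟩ : ∃ k ∈ Y', k ≠ i ∧ k ≠ j := by
      by_cases h1 : x ≠ i ∧ x ≠ j
      · exact ⟨x, hx, h1⟩
      · by_cases h2 : y ≠ i ∧ y ≠ j
        · exact ⟨y, hy, h2⟩
        · refine ⟨z, hz, ?_, ?_⟩
          · rintro rfl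
            have hx' : x = j := by
              by_contra h4
              exact h1 ⟨hxz, h4⟩
            have hy' : y = j := by
              by_contra h4
              exact h2 ⟨hyz, h4⟩
            exact hxy (hx'.trans hy'.symm)
          · rintro rfl
            have hx' : x = i := by
              by_contra h4
              exact h1 ⟨h4, hxz⟩
            have hy' : y = i := by
              by_contra h4
              exact h2 ⟨h4, hyz⟩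
            exact hxy (hx'.trans hy'.symm)
    obtain ⟨w, hwS, hwne⟩ := hsep i hi k hk (fun h1 => hki h1.symm)
    obtain ⟨h0, hh0⟩ := (hFSX c X {i, k} w).1 ⟨i, by simp, k, by simp, hwne⟩
    have hss : ({i, k} : Set X) ⊂ Y' := by
      refine ⟨?_, fun h1 => ?_⟩
      · rintro y (rfl | rfl)
        · exact hi
        · exact hk
      · rcases h1 hj with h2 | h2
        · exact hij' h2.symm
        · exact hkj h2.symm
    obtain ⟨w', hw'T, hw'⟩ := hsub {i, k} hss h0 ⟨w, hwS, hh0⟩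
    obtain ⟨x', hx', y', hy', hxy'⟩ := hw'.1
    have hne' : w' x' ≠ w' y' := spl_ne hw' hx' hy' hxy'
    obtain ⟨g, hgs⟩ := (hFSX c X Y' w').1 ⟨x', hss.1 hx', y', hss.1 hy', hne'⟩
    have hgP : Pat T Y' g := Or.inr ⟨w', hw'T, hgs⟩
    obtain ⟨a, ha, b, hb, hab⟩ := hgs.1
    by_cases h5 : g a = g i
    · refine ⟨b, (hA3 b).2 ⟨hb, fun h6 => ?_⟩⟩
      exact hab (h5.trans (h6.2 g hgP).symm)
    · exact ⟨a, (hA3 a).2 ⟨ha, fun h6 => h5 (h6.2 g hgP)⟩⟩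
  -- patterns
  have hPF : Pat T Y' (fun x => decide (x ∈ F)) := by
    by_contra hn
    obtain ⟨x, hx, y, hy, hxy, hgg⟩ := hT3 _ hn
    by_cases h1 : x ∈ F
    · by_cases h2 : y ∈ F
      · simp [h1, h2] at hxy
      · exact h2 ⟨hy, fun g hgP => (hgg g hgP).symm.trans (h1.2 g hgP)⟩
    · by_cases h2 : y ∈ F
      · exact h1 ⟨hx, fun g hgP => (hgg g hgP).trans (h2.2 g hgP)⟩
      · simp [h1, h2] at hxy
  have hPA3 : Pat T Y' (fun x => decide (x ∈ A₃)) := by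
    refine pat_eq (hT1 _ hPF) (fun x hx => ?_)
    by_cases h1 : x ∈ F
    · have h2 : x ∉ A₃ := fun h3 => ((hA3 x).1 h3).2 h1
      simp [h1, h2]
    · have h2 : x ∈ A₃ := (hA3 x).2 ⟨hx, h1⟩
      simp [h1, h2]
  have hPh : Pat S Y' (fun x => decide (h x = h i)) :=
    pat_congr (Or.inr ⟨wh, hwhS, hwh⟩ : Pat S Y' h) (fun x _ y _ => (bool_aux _ _ _).symm)
  have hPA1 : Pat S Y' (fun x => decide (x ∈ A₁)) := by
    refine pat_eq (hS2 _ _ (pat_weak hPF hTS) hPh) (fun x _ => ?_)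
    by_cases h1 : x ∈ F
    · by_cases h2 : h x = h i
      · have h4 : x ∈ A₁ := (hA1 x).2 ⟨h1, h2⟩
        simp [h1, h2, h4]
      · have h4 : x ∉ A₁ := fun h5 => h2 ((hA1 x).1 h5).2
        simp [h2, h4]
    · have h4 : x ∉ A₁ := fun h5 => h1 ((hA1 x).1 h5).1
      simp [h1, h4]
  have hPA2 : Pat S Y' (fun x => decide (x ∈ A₂)) := by
    refine pat_eq (hS2 _ _ (pat_weak hPF hTS) (hS1 _ hPh)) (fun x _ => ?_)
    by_cases h1 : x ∈ F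
    · by_cases h2 : h x = h i
      · have h4 : x ∉ A₂ := fun h5 => ((hA2 x).1 h5).2 h2
        simp [h2, h4]
      · have h4 : x ∈ A₂ := (hA2 x).2 ⟨h1, h2⟩
        simp [h1, h2, h4]
    · have h4 : x ∉ A₂ := fun h5 => h1 ((hA2 x).1 h5).1
      simp [h1, h4]
  obtain ⟨k3, hk3⟩ := hA3ne
  have hiA3 : i ∉ A₃ := fun h1 => ((hA3 i).1 h1).2 hiF
  have hiA2 : i ∉ A₂ := fun h1 => ((hA2 i).1 h1).2 rfl
  have hjA1 : j ∉ A₁ := fun h1 => hij ((hA1 j).1 h1).2.symm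
  have hT3' : ∃ w, T w ∧ Spl Y' w (fun x => decide (x ∈ A₃)) :=
    pat_spl hPA3 hi ((hA3 k3).1 hk3).1 (by simp [hiA3, hk3])
  have hS1' : ∃ w, S w ∧ Spl Y' w (fun x => decide (x ∈ A₁)) :=
    pat_spl hPA1 hi hj (by simp [hiA1, hjA1])
  have hS2' : ∃ w, S w ∧ Spl Y' w (fun x => decide (x ∈ A₂)) :=
    pat_spl hPA2 hi hj (by simp [hiA2, hjA2])
  -- the sets
  have hU : Y' = A₁ ∪ A₂ ∪ A₃ := by
    ext x
    constructor
    · intro hx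
      by_cases h1 : x ∈ F
      · by_cases h2 : h x = h i
        · exact Or.inl (Or.inl ((hA1 x).2 ⟨h1, h2⟩))
        · exact Or.inl (Or.inr ((hA2 x).2 ⟨h1, h2⟩))
      · exact Or.inr ((hA3 x).2 ⟨hx, h1⟩)
    · rintro ((h1 | h1) | h1)
      · exact hFY ((hA1 x).1 h1).1
      · exact hFY ((hA2 x).1 h1).1
      · exact ((hA3 x).1 h1).1
  have hD12 : Disjoint A₁ A₂ := Set.disjoint_left.2 (fun x h1 h2 => ((hA2 x).1 h2).2 ((hA1 x).1 h1).2)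
  have hD13 : Disjoint A₁ A₃ :=
    Set.disjoint_left.2 (fun x h1 h2 => ((hA3 x).1 h2).2 ((hA1 x).1 h1).1)
  have hD23 : Disjoint A₂ A₃ :=
    Set.disjoint_left.2 (fun x h1 h2 => ((hA3 x).1 h2).2 ((hA2 x).1 h1).1)
  have hD123 : Disjoint (A₁ ∪ A₂) A₃ := Set.disjoint_union_left.2 ⟨hD13, hD23⟩
  have hD132 : Disjoint (A₁ ∪ A₃) A₂ := Set.disjoint_union_left.2 ⟨hD12, hD23.symm⟩
  have hSne : ∃ w, S w := ⟨w00, hw00S⟩
  obtain ⟨v', hv'L, hv'3, hv'1⟩ := hSHP c X S T Y' A₁ A₂ A₃ hU hD12 hD123 ⟨i, hiA1⟩ ⟨j, hjA2⟩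
    ⟨k3, hk3⟩ hSne hsep hsub hT3' hS1'
  obtain ⟨w₀, hw₀T, hw₀⟩ := hGG X T hPPT ⟨w00, hw00S, hw00⟩ Y' v' rfl hv'L
  have hU' : Y' = A₁ ∪ A₃ ∪ A₂ := by
    rw [hU, Set.union_assoc, Set.union_assoc, Set.union_comm A₂ A₃]
  obtain ⟨v'', hv''L, hv''3, hv''1⟩ := hSHP c X S S Y' A₁ A₃ A₂ hU' hD13 hD132 ⟨i, hiA1⟩
    ⟨k3, hk3⟩ ⟨j, hjA2⟩ hSne hsep (fun Y'' _ g hg => hg) hS2' hS1'
  obtain ⟨w₁, hw₁S, hw₁⟩ := hGG X S hS hSne Y' v'' rfl hv''L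
  have hsub12 : A₁ ∪ A₂ ⊆ Y' := by
    rw [hU]
    exact Set.subset_union_left
  have hsub13 : A₁ ∪ A₃ ⊆ Y' := by
    rw [hU']
    exact Set.subset_union_left
  have hE1 : Spl (A₁ ∪ A₂ ∪ A₃) w₀ (fun x => decide (x ∈ A₃)) := by
    rw [← hU]
    exact hv'3.transfer hw₀
  have hE2 : Spl (A₁ ∪ A₂ ∪ A₃) w₁ (fun x => decide (x ∈ A₂)) := by
    rw [← hU]
    exact hv''3.transfer hw₁
  obtain ⟨w, hwS, hwQ, g, hgs, x, hx, y, hy, hxy⟩ := hGDG c σ 𝔅 hP hKP X S I Q q hS hMV A₁ A₂ A₃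
    (hU ▸ hY'I) hD12 hD123 ⟨i, hiA1⟩ ⟨j, hjA2⟩ ⟨k3, hk3⟩
    ⟨w₀, hw₀T.1, hw₀T.2, hE1, hv'1.transfer (hw₀.mono hsub12)⟩
    ⟨w₁, hw₁S, hE2, hv''1.transfer (hw₁.mono hsub13)⟩
  have hgP : Pat T Y' g := by
    refine Or.inr ⟨w, ⟨hwS, hwQ⟩, ?_⟩
    rw [hU]
    exact hgs
  exact hxy ((((hA1 x).1 hx).1.2 g hgP).trans (((hA2 y).1 hy).1.2 g hgP).symm)

end Pool.Agent.Work.MP_8dbde4_lc.Phy
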