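import Pool.Agent.Work.MP_8dbde4_lc.Phy.Stmts

/-!
Item UN1 of the block Phy of MP_8dbde4_lc: the instance `J_1` is not solvable (S_UN1).
-/

set_option autoImplicit false
open Classical

namespace Pool.Agent.Work.MP_8dbde4_lc.Phy

open Pool.Agent.Work.MP_8dbde4_lc.TS Pool.Agent.Work.MP_8dbde4_lc.Tree

namespace XUN1

variable {c : ℚ → Bool}

/-- A finite set of words which are not all equal has a first place where they are not all equal. -/
theorem first_place (W : Set (Word c)) (hW : W.Finite) (hne : ∃ x ∈ W, ∃ y ∈ W, x ≠ y) :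
    ∃ q : ℚ, (∀ x ∈ W, ∀ y ∈ W, Agr x y q) ∧ ∃ x ∈ W, ∃ y ∈ W, x.1 q ≠ y.1 q := by
  set E : Set ℚ := {q | ∃ x ∈ W, ∃ y ∈ W, x.1 q ≠ y.1 q} with hE
  have hEf : E.Finite := by
    refine Set.Finite.subset (hW.biUnion (t := fun x : Word c => {q | x.1 q ≠ c q})
      (fun x _ => x.2)) ?_
    rintro q ⟨x, hx, y, hy, hxy⟩
    by_cases h : x.1 q = c q
    · refine Set.mem_biUnion hy ?_
      intro h2
      exact hxy (h.trans h2.symm)
    · exact Set.mem_biUnion hx h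
  have hEn : E.Nonempty := by
    obtain ⟨x, hx, y, hy, hxy⟩ := hne
    by_contra h
    apply hxy
    apply Subtype.ext
    funext q
    by_contra h2
    exact h ⟨q, x, hx, y, hy, h2⟩
  obtain ⟨q, hq, hmin⟩ := Set.exists_min_image E id hEf hEn
  refine ⟨q, ?_, hq⟩
  intro x hx y hy q' hq'
  by_contra h
  exact absurd (hmin q' ⟨x, hx, y, hy, h⟩) (not_le.2 hq')

end XUN1

open XUN1

theorem UN1_pf (hP : S_PLC) : S_UN1 := by
  intro c n S G _ _ g h p I _ Δ hp hG hΔ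
  rintro ⟨M, A, Fr, hS⟩
  haveI : NeZero p := ⟨hp.ne_zero⟩
  haveI : Finite (CT S I) := by
    unfold CT
    infer_instance
  set W : Set (Word c) := Set.range (fun e : G × ZMod p => M e.1 e.2) ∪
    (Set.range (fun e : G × ZMod p × ZMod p × (I → Bool) => A e.1 e.2.1 e.2.2.1 e.2.2.2) ∪
    Set.range (fun e : G × ZMod p × ZMod p × CT S I × Fin n =>
      Fr e.1 e.2.1 e.2.2.1 e.2.2.2.1 e.2.2.2.2)) with hW
  have hMW : ∀ v s, M v s ∈ W := fun v s => Or.inl ⟨(v, s), rfl⟩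
  have hAW : ∀ v α β t, A v α β t ∈ W := fun v α β t => Or.inr (Or.inl ⟨(v, α, β, t), rfl⟩)
  have hFW : ∀ v α β t j, Fr v α β t j ∈ W :=
    fun v α β t j => Or.inr (Or.inr ⟨(v, α, β, t, j), rfl⟩)
  have hWf : W.Finite :=
    (Set.finite_range _).union ((Set.finite_range _).union (Set.finite_range _))
  have hne : ∃ x ∈ W, ∃ y ∈ W, x ≠ y := by
    refine ⟨M 1 1, hMW _ _, M 1 0, hMW _ _, ?_⟩
    intro e
    have h1 := hS.u 1 0 0 0
    have h2 : av M (1 : G) (0 : ZMod p) = M 1 1 := by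
      unfold av
      rw [if_pos ⟨rfl, rfl⟩]
    rw [h2] at h1
    obtain ⟨q, _, _, h3, h4⟩ := h1
    exact h4 (by rw [h3, e])
  obtain ⟨q, hagr, x₀, hx₀, y₀, hy₀, hxy₀⟩ := first_place W hWf hne
  -- ties
  have tie : ∀ z ∈ W, ∀ x ∈ W, ∀ y ∈ W, Cc z x y → x.1 q = y.1 q := by
    rintro z hz x hx y hy ⟨q₀, h1, h2, h3, h4⟩
    rcases lt_trichotomy q q₀ with hlt | heq | hgt
    · rw [← h1 q hlt, ← h2 q hlt]
    · rw [heq]
      exact h3
    · exact absurd (hagr z hz x hx q₀ hgt) h4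
  have hav : ∀ v s, av M v s ∈ W := by
    intro v s
    unfold av
    split_ifs
    · exact hMW _ _
    · exact hMW _ _
  have hf : ∀ v α β t j, (Fr v α β t j).1 q = (A v α β (t.1 j)).1 q := fun v α β t j =>
    tie _ (hMW 1 0) _ (hFW v α β t j) _ (hAW v α β _) (hS.f v α β t j)
  have hpol : ∀ v α β, (pf S).Pol (fun t : I → Bool => (A v α β t).1 q) := by
    intro v α β R t ht
    have key : (pf S).P () (fun j => (Fr v α β ⟨t, ht⟩ j).1 q) := by
      by_cases hc : ∀ i j, (Fr v α β ⟨t, ht⟩ i).1 q = (Fr v α β ⟨t, ht⟩ j).1 q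
      · exact Or.inl hc
      · push Not at hc
        obtain ⟨i, j, hij⟩ := hc
        refine Or.inr ⟨Fr v α β ⟨t, ht⟩, hS.cop v α β _, ?_⟩
        refine (hP c (Fin n) Set.univ _ _).2 ⟨⟨i, Set.mem_univ _, j, Set.mem_univ _, hij⟩, q, ?_, ?_⟩
        · intro x _ y _
          exact hagr _ (hFW _ _ _ _ _) _ (hFW _ _ _ _ _)
        · intro x _ y _
          exact Iff.rfl
    have e : (fun j => (Fr v α β ⟨t, ht⟩ j).1 q) = fun j => (A v α β (t j)).1 q := by
      funext j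
      exact hf v α β ⟨t, ht⟩ j
    exact Eq.mp (congrArg (fun r : Fin n → Bool => (pf S).P () r) e) key
  obtain ⟨a, ha1, ha2⟩ := hΔ.uns G g h hG (fun v s => (M v s).1 q)
    (fun v α β t => (A v α β t).1 q) hpol (by
      intro v α β s
      refine ⟨?_, ?_, ?_, ?_⟩
      · exact tie _ (hav _ _) _ (hAW _ _ _ _) _ (hMW _ _) (hS.u v α β s)
      · exact tie _ (hav _ _) _ (hAW _ _ _ _) _ (hMW _ _) (hS.x v α β s)
      · exact tie _ (hav _ _) _ (hAW _ _ _ _) _ (hMW _ _) (hS.y v α β s)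
      · exact tie _ (hav _ _) _ (hAW _ _ _ _) _ (hMW _ _) (hS.z v α β s))
  have hall : ∀ x ∈ W, x.1 q = a := by
    rintro x (⟨e, rfl⟩ | ⟨e, rfl⟩ | ⟨e, rfl⟩)
    · exact ha1 _ _
    · exact ha2 _ _ _ _
    · show (Fr _ _ _ _ _).1 q = a
      rw [hf]
      exact ha2 _ _ _ _
  exact hxy₀ ((hall x₀ hx₀).trans (hall y₀ hy₀).symm)

end Pool.Agent.Work.MP_8dbde4_lc.Phy
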