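import Pool.Agent.Work.MP_8dbde4_lc.Phy.Defs

/-!
Statements of the block Phy of MP_8dbde4_lc. Every docstring contains the proof.

Theorem PH: if all the relations of `𝔅` on `Word c` are invariant and the split relation is primitive
positive definable in `𝔅`, then: CSP(𝔅) in FPC, CSP(𝔅) in FP, and 'all relations are `HornC`' are
equivalent.
-/

set_option autoImplicit false
open Classical

namespace Pool.Agent.Work.MP_8dbde4_lc.Phy

open Pool.Agent.Work.MP_8dbde4_lc.TS Pool.Agent.Work.MP_8dbde4_lc.Tree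

/-! ### Part W: words and splits -/

/-- The place of a first split. (←) is clear. (→) Take `x₀, y₀ ∈ Y` with `h x₀ ≠ h y₀`;
`Cc (v y₀) (v x₀) (v x₀)` gives the first place `q` where `v x₀, v y₀` differ. For `z ∈ Y` with
`h z = h x₀` use `Cc (v y₀) (v x₀) (v z)`, otherwise `Cc (v x₀) (v y₀) (v z)`: its place is the first
place where `v x₀` and `v y₀` differ, so it is `q`. (Letters are in `Bool`.) -/
def S_PLC : Prop := ∀ (c : ℚ → Bool) (X : Type) (Y : Set X) (v : X → Word c) (h : X → Bool),
  Spl Y v h ↔ (∃ x ∈ Y, ∃ y ∈ Y, h x ≠ h y) ∧ ∃ q, (∀ x ∈ Y, ∀ y ∈ Y, Agr (v x) (v y) q) ∧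
    ∀ x ∈ Y, ∀ y ∈ Y, ((v x).1 q = (v y).1 q ↔ h x = h y)

/-- First splits exist and are unique up to complement. Existence: the set of the places where two
of the words `v x`, `x ∈ Y`, differ is finite and not empty, take its least element `q` and
`h x = (v x).1 q`, S_PLC. Uniqueness: the places are equal, S_PLC. -/
def S_FSX : Prop := ∀ (c : ℚ → Bool) (X : Type) [Finite X] (Y : Set X) (v : X → Word c),
  ((∃ x ∈ Y, ∃ y ∈ Y, v x ≠ v y) → ∃ h, Spl Y v h) ∧
  ∀ h h', Spl Y v h → Spl Y v h' → ∀ x ∈ Y, ∀ y ∈ Y, h x = h y ↔ h' x = h' y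

/-- Gluing: the splits on `Y` are determined by the first split and the splits on its two sides.
If `h x ≠ h y` then `v x ≠ v y` and `w x ≠ w y`. For `Cc (v z) (v x) (v y)`: if all three are on one
side use the hypothesis; if `h x = h y ≠ h z` it is true for both; if `h x ≠ h y` then `z` is on the
side of `x`, say, `Cc (v y) (v x) (v z)` is true, so `Cc (v z) (v x) (v y)` is false; same for `w`. -/
def S_GLU : Prop := ∀ (c : ℚ → Bool) (X : Type) (Y : Set X) (v w : X → Word c) (h : X → Bool),
  Spl Y v h → Spl Y w h → SameOn {x | x ∈ Y ∧ h x = false} v w →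
  SameOn {x | x ∈ Y ∧ h x = true} v w → SameOn Y v w

/-- For injective `v` the positive splits determine everything: two different words are split
(`Cc x y y`), and for three different words exactly one of them splits off first (two of the three
letters at the first place where they are not all equal are the same). -/
def S_CPS : Prop := ∀ (c : ℚ → Bool) (X : Type) (Y : Set X) (v w : X → Word c), Set.InjOn v Y →
  (∀ x ∈ Y, ∀ y ∈ Y, ∀ z ∈ Y, Cc (v z) (v x) (v y) → Cc (w z) (w x) (w y)) → SameOn Y v w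

/-- Joining two tuples below a new split. Let `q` be a place below all the places where one of the
words `u₀ x`, `u₁ x` differs from `c`; `u x` is `u₀ x` or `u₁ x` (according to `h x`) with the letter
`h x` at the place `q` (`Function.update`). -/
def S_JOI : Prop := ∀ (c : ℚ → Bool) (X : Type) [Finite X] (u₀ u₁ : X → Word c) (h : X → Bool),
  ∃ u : X → Word c, (∀ x y z, h x = h y → h z ≠ h x → Cc (u z) (u x) (u y)) ∧
    SameOn {x | h x = false} u₀ u ∧ SameOn {x | h x = true} u₁ u

/-- One-point extension. If `x = w s` take `y = f s`; if `X` is empty take `y = x`. Otherwise let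
`δ` be the first place where two different words differ, `q` the largest `δ(x, w s)`, `S'` the set of
the `s` with `δ(x, w s) = q`; the words `w s`, `s ∈ S'`, agree with `x` below `q` and have the same
letter (not that of `x`) at `q`. Let `s₀ ∈ S'`, `lo` the largest `δ(f s, f s₀)` for `s ∉ S'` (if any),
`hi` the smallest `δ(f s, f s')` for `s, s' ∈ S'`, `f s ≠ f s'` (if any). `lo < hi`: for `s ∉ S'` and
`s₁, s₂ ∈ S'` we have `Cc (w s) (w s₁) (w s₂)`, so `Cc (f s) (f s₁) (f s₂)`. Take `q'` with
`lo < q' < hi` and `y = f s₀` below `q'`, `y q' = ! f s₀ q'`, `y = c` above `q'`. (No density of the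
letters is needed, because there are only two letters and `Cc` does not see the letters.) -/
def S_OPC : Prop := ∀ (c : ℚ → Bool) (X : Type) [Finite X] (w f : X → Word c),
  SameOn Set.univ w f → ∀ x : Word c, ∃ y : Word c,
    SameOn Set.univ (fun o : Option X => o.elim x w) (fun o : Option X => o.elim y f)

/-- Amalgamation: `w` can be moved, without changing its splits, such that `g (b k) = a k`. Start
with the finite partial isomorphism `w (b k) ↦ a k` and add the points `w x` one by one (S_OPC;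
induction on a finite subset of `X`). -/
def S_AMA : Prop := ∀ (c : ℚ → Bool) (X W : Type) [Finite X] [Finite W] (w : X → Word c)
  (a : W → Word c) (b : W → X), SameOn Set.univ a (fun k => w (b k)) →
  ∃ g : X → Word c, SameOn Set.univ w g ∧ ∀ k, g (b k) = a k

/-! ### Part D: primitive positive definable sets -/

/-- Closure properties. (1) `𝔇` on `Fin (ar R)` with the single tuple `id`. (2) The quotient (`Quot`)
of `D ⊕ D'` by `m x ~ m' x`; homomorphisms from the quotient are pairs of homomorphisms which agree on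
the `m x ~ m' x` (`Quot.lift`); the relation on the quotient is the image of the relations of
`𝔇` and `𝔇'`. (3) The quotient of `D ⊕ X'` by `m x ~ e x`. (4) `m ∘ e`. (5) `D = X`, `m b = a`,
`m x = x` otherwise, no relations. (6) `D = X`. (7) Induction with (2) and (6). -/
def S_PPB : Prop := ∀ (σ : Sig) (B : Type) (𝔅 : Str σ B),
  (∀ R : σ.S, PP 𝔅 (𝔅.rel R)) ∧
  (∀ (X : Type) (S S' : (X → B) → Prop), PP 𝔅 S → PP 𝔅 S' → PP 𝔅 (fun v => S v ∧ S' v)) ∧
  (∀ (X X' : Type) [Finite X'] (S : (X → B) → Prop) (e : X → X'), PP 𝔅 S →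
    PP 𝔅 (fun v : X' → B => S (fun x => v (e x)))) ∧
  (∀ (X Y : Type) (S : (X → B) → Prop) (e : Y → X), PP 𝔅 S →
    PP 𝔅 (fun u : Y → B => ∃ v, S v ∧ ∀ y, u y = v (e y))) ∧
  (∀ (X : Type) [Finite X] (a b : X), PP 𝔅 (fun v : X → B => v a = v b)) ∧
  (∀ (X : Type) [Finite X], PP 𝔅 (fun _ : X → B => True)) ∧
  (∀ (X ι : Type) [Finite X] [Finite ι] (S : ι → (X → B) → Prop), (∀ i, PP 𝔅 (S i)) →
    PP 𝔅 (fun v => ∀ i, S i v))

/-- Sets of tuples defined by splits, and intersections with them. From S_PPB and the definability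
of `C3`: `Cc (v z) (v x) (v y)` is the pullback of `C3` along `![z, x, y]`; the first part is a finite
intersection. For the second part: `Spl Y v h` is such a condition if `h` is not constant on `Y`, and
false otherwise (`PP` of the empty set: not needed, so non-constancy is assumed). -/
def S_PPQ : Prop := ∀ (c : ℚ → Bool) (σ : Sig) (𝔅 : Str σ (Word c)), PP 𝔅 (C3 (c := c)) →
  ∀ (X : Type) [Finite X],
  (∀ Q : X → X → X → Prop, PP 𝔅 (fun v : X → Word c => ∀ x y z, Q x y z → Cc (v z) (v x) (v y))) ∧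
  (∀ (S : (X → Word c) → Prop) (Y : Set X) (h : X → Bool), PP 𝔅 S →
    (∃ x ∈ Y, ∃ y ∈ Y, h x ≠ h y) → PP 𝔅 (fun v => S v ∧ Spl Y v h))

/-- Primitive positive definable sets are invariant. Let `v = f ∘ m`, `w` with the same splits. By
S_AMA (for `w := f`, `a := w`, `b := m`) there is `g : D → Word c` with the splits of `f` and
`g ∘ m = w`; it is a homomorphism because the relations of `𝔅` are invariant. -/
def S_INV : Prop := ∀ (c : ℚ → Bool) (σ : Sig) (𝔅 : Str σ (Word c)), PLang 𝔅 →
  ∀ (X : Type) [Finite X] (S : (X → Word c) → Prop), PP 𝔅 S → Inv S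

/-- The patterns form a Boolean algebra, which is determined by the pairs it does not separate.
Complements: `Spl.not`. Intersections: if one of them is constant this is clear (complement,
`Spl.congr`), otherwise KP. Separation: suppose that all pairs `x, y ∈ Y` with `h x = true`,
`h y = false` are separated by some `g` in the algebra; by complement `g x = true`, `g y = false`; the
finite union over `x` of the finite intersections over `y` of these `g` is `h` on `Y`. -/
def S_BAL : Prop := ∀ (c : ℚ → Bool) (σ : Sig) (𝔅 : Str σ (Word c)), KP 𝔅 →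
  ∀ (X : Type) [Finite X] (S : (X → Word c) → Prop) (Y : Set X), PP 𝔅 S →
  (∀ h, Pat S Y h → Pat S Y (fun x => !h x)) ∧
  (∀ h h', Pat S Y h → Pat S Y h' → Pat S Y (fun x => h x && h' x)) ∧
  ∀ h, ¬ Pat S Y h → ∃ x ∈ Y, ∃ y ∈ Y, h x ≠ h y ∧ ∀ g, Pat S Y g → g x = g y

/-! ### Part G: from KP to locality -/

/-- Existence of tuples whose first splits on all the subsets of `A` occur in `S`. Induction on the
size of `A`. If `A` has two elements take `w ∈ S` not constant on `A` and its first split `h` on `A`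
(S_FSX); by induction there are `u₀`, `u₁` for the two sides; `u` is their join (S_JOI) along `h`. For
`Y' ⊆ A`: if `h` is not constant on `Y'` then `w` and `h` do it; otherwise `Y'` is contained in one
side, use `u₀` or `u₁`. -/
def S_EXI : Prop := ∀ (c : ℚ → Bool) (X : Type) [Finite X] (S : (X → Word c) → Prop) (A : Set X),
  (∃ w, S w) → (∀ x ∈ A, ∀ y ∈ A, x ≠ y → ∃ w, S w ∧ w x ≠ w y) → ∃ u, Loc S A u

/-- Shapes. `T ⊆ S`, `Y' = A₁ ⊔ A₂ ⊔ A₃`. Take `u` from S_EXI for `S` and `Y'`, let `v₁` be the join of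
`u` and `u` along `A₁` and `v'` the join of `v₁` (outside `A₃`) and `u` (on `A₃`). For `Y'' ⊆ Y'`: if `Y''`
meets `A₃` and `A₁ ∪ A₂` the first split of `v'` on `Y''` is `A₃`, which is a first split of a member of
`T` on `Y'`, so on `Y''`; if `Y'' ⊆ A₁ ∪ A₂` meets both of them it is `A₁`, a first split of a member
of `S` on `Y'`, so on `Y''`, and `Y'' ≠ Y'`, so of a member of `T`; if `Y'' ⊆ A_k` use `u` and
`Y'' ≠ Y'`. -/
def S_SHP : Prop := ∀ (c : ℚ → Bool) (X : Type) [Finite X] (S T : (X → Word c) → Prop)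
  (Y' A₁ A₂ A₃ : Set X), Y' = A₁ ∪ A₂ ∪ A₃ → Disjoint A₁ A₂ → Disjoint (A₁ ∪ A₂) A₃ →
  A₁.Nonempty → A₂.Nonempty → A₃.Nonempty → (∃ w, S w) →
  (∀ x ∈ Y', ∀ y ∈ Y', x ≠ y → ∃ w, S w ∧ w x ≠ w y) →
  (∀ Y'' ⊂ Y', ∀ h, (∃ w, S w ∧ Spl Y'' w h) → ∃ w, T w ∧ Spl Y'' w h) →
  (∃ w, T w ∧ Spl Y' w (fun x => decide (x ∈ A₃))) →
  (∃ w, S w ∧ Spl Y' w (fun x => decide (x ∈ A₁))) →
  ∃ v', Loc T Y' v' ∧ Spl Y' v' (fun x => decide (x ∈ A₃)) ∧
    Spl (A₁ ∪ A₂) v' (fun x => decide (x ∈ A₁))

/-- Pairs. Suppose that `w i = w j` for all `w ∈ S` with `Spl Q w q`. Let `Z` be the set of the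
`V : Bool × X → Word c` with both copies in `S`, `V (false, j) = V (true, i)` and
`V (false, i) ≠ V (true, j)` (`Cc`); it is primitive positive definable. Take `w₀ ∈ S` with
`Spl Q w₀ q` and `w₁ ∈ S` with `w₁ i ≠ w₁ j`. By MV with the constant maps `a = j`, `b = i` there is
`g` with `g i = w₀ j`: the pair `(w₀, g)` is in `Z` and has the first split `q` on the first copy of
`Q` and `false` on the second one. By MV with `a = i`, `b = j` there is `g` with `g j = w₀ i`: the pair
`(g, w₀)` is in `Z` and has the first split `(false, q)`. So by KP (applied to the complements) there is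
`V ∈ Z` with first split `(q, q)` on the copies of `Q`: so `V (false, i) = V (false, j)` and
`V (true, i) = V (true, j)`, contradiction. -/
def S_PAI : Prop := ∀ (c : ℚ → Bool) (σ : Sig) (𝔅 : Str σ (Word c)), PLang 𝔅 → KP 𝔅 →
  ∀ (X : Type) [Finite X] (S : (X → Word c) → Prop) (I Q : Set X) (q : X → Bool), PP 𝔅 S →
  MV S I Q q → (∃ w, S w ∧ Spl Q w q) → ∀ i ∈ I, ∀ j ∈ I, (∃ w, S w ∧ w i ≠ w j) →
  ∃ w, S w ∧ Spl Q w q ∧ w i ≠ w j

/-- The gadget with three blocks. `w₀` has the shape `A₃ | (A₁ | A₂)`, `w₁` the shape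
`A₂ | (A₁ | A₃)`. Choose `y_k ∈ A_k`. Let `Z` be the set of the `V : Fin 3 ⊕ (Bool × X) → Word c` (the
points `z₁, z₂, z₃` and two copies of `X`) with both copies in `S`, the `z_k` different, and for all
`k ≠ l` and `y ∈ A_k`: `Cc z_l (V (false, y)) z_k` and `Cc z_(ι l) (V (true, y)) z_(ι k)`, where `ι`
exchanges 2 and 3. It is primitive positive definable. With `z_k = w₀ y_k`, first copy `w₀`, second
copy `g` from MV with `a = ![y₁, y₃, y₂]`, `b = ![y₁, y₂, y₃]` (both triples have the shape
`2nd | (1st, 3rd)`) we get a member of `Z` with the first split `(q, false)` on the copies of `Q`; with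
`z_(ι k) = w₀ y_k`, second copy `w₀`, first copy `g` one with the first split `(false, q)`. By KP
there is `V ∈ Z` with first split `(q, q)`; so both copies are members of `S` with `Spl Q · q`. Let
`z_a` be the point which splits off first from the other two. If `a = 1` or `a = 2` the first split
of the first copy on `A₁ ∪ A₂ ∪ A₃` is `A_a` (the conditions say that all the points of block `k` go
with `z_k`); if `a = 3` the first split of the second copy is `A₂`. In all the cases it separates `A₁`
from `A₂`. -/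
def S_GDG : Prop := ∀ (c : ℚ → Bool) (σ : Sig) (𝔅 : Str σ (Word c)), PLang 𝔅 → KP 𝔅 →
  ∀ (X : Type) [Finite X] (S : (X → Word c) → Prop) (I Q : Set X) (q : X → Bool), PP 𝔅 S →
  MV S I Q q → ∀ A₁ A₂ A₃ : Set X, A₁ ∪ A₂ ∪ A₃ ⊆ I → Disjoint A₁ A₂ → Disjoint (A₁ ∪ A₂) A₃ →
  A₁.Nonempty → A₂.Nonempty → A₃.Nonempty →
  (∃ w₀, S w₀ ∧ Spl Q w₀ q ∧ Spl (A₁ ∪ A₂ ∪ A₃) w₀ (fun x => decide (x ∈ A₃)) ∧
    Spl (A₁ ∪ A₂) w₀ (fun x => decide (x ∈ A₁))) →
  (∃ w₁, S w₁ ∧ Spl (A₁ ∪ A₂ ∪ A₃) w₁ (fun x => decide (x ∈ A₂)) ∧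
    Spl (A₁ ∪ A₃) w₁ (fun x => decide (x ∈ A₁))) →
  ∃ w, S w ∧ Spl Q w q ∧ ∃ h, Spl (A₁ ∪ A₂ ∪ A₃) w h ∧ ∃ x ∈ A₁, ∃ y ∈ A₂, h x ≠ h y

/-- Three or more coordinates. Let `T` be the set of the `w ∈ S` with `Spl Q w q`. Suppose that the
pattern `h` on `Y'` occurs in `S` but not in `T`. S_BAL for `T`: `i, j ∈ Y'` with `h i ≠ h j` and
`g i = g j` for all the patterns `g` of `T` on `Y'`. Let `F` be the set of the `y ∈ Y'` with `g y = g i`
for all the patterns `g` of `T`, `A₁ = {y ∈ F : h y = h i}`, `A₂ = F \ A₁` (contains `j`), `A₃ = Y' \ F`.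
`A₃` is not empty: take `k ∈ Y'` different from `i`, `j`, the pair `{i, k} ⊂ Y'` is separated by some
`w ∈ S` so (hypothesis for the proper subset `{i, k}`) by some `w ∈ T`; its first split on `Y'`
(S_FSX) is not constant, so some `y` has `g y ≠ g i`. The pattern `F` belongs to the patterns of `T`
(S_BAL: otherwise it separates two points `x ∈ F`, `y ∉ F` which `T` does not separate), so its
complement `A₃` too; `A₁ = F ∩ {h = h i}`, `A₂ = F ∩ {h = h j}` are patterns of `S` (S_BAL for `S`).
S_SHP for `(S, T)` and GG give `w₀ ∈ T` of shape `A₃ | (A₁ | A₂)`, S_SHP for `(S, S)` with `A₂`, `A₃`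
exchanged and GG give `w₁ ∈ S` of shape `A₂ | (A₁ | A₃)`. S_GDG: a member of `T` whose first split on
`Y'` separates a point of `A₁` from a point of `A₂`, contradiction to the definition of `F`. -/
def S_TRI : Prop := ∀ (c : ℚ → Bool) (σ : Sig) (𝔅 : Str σ (Word c)), PLang 𝔅 → KP 𝔅 →
  ∀ (X : Type) [Finite X] (S : (X → Word c) → Prop) (I Q : Set X) (q : X → Bool), PP 𝔅 S →
  MV S I Q q → (∃ w, S w ∧ Spl Q w q) → ∀ Y' ⊆ I,
  (∃ x ∈ Y', ∃ y ∈ Y', ∃ z ∈ Y', x ≠ y ∧ x ≠ z ∧ y ≠ z) →
  (∀ x ∈ Y', ∀ y ∈ Y', x ≠ y → ∃ w, S w ∧ w x ≠ w y) → GG 𝔅 Y'.ncard →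
  (∀ Y'' ⊂ Y', ∀ h, (∃ w, S w ∧ Spl Y'' w h) → ∃ w, (S w ∧ Spl Q w q) ∧ Spl Y'' w h) →
  ∀ h, (∃ w, S w ∧ Spl Y' w h) → ∃ w, (S w ∧ Spl Q w q) ∧ Spl Y' w h

/-- All subsets: strong induction on the size of `Y'` with S_PAI (two elements: `Spl {i, j} w h` with
`h i ≠ h j` says `w i ≠ w j`) and S_TRI. -/
def S_UNI : Prop := ∀ (c : ℚ → Bool) (σ : Sig) (𝔅 : Str σ (Word c)), PLang 𝔅 → KP 𝔅 →
  ∀ (X : Type) [Finite X] (S : (X → Word c) → Prop) (I Q : Set X) (q : X → Bool), PP 𝔅 S →
  MV S I Q q → (∃ w, S w ∧ Spl Q w q) →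
  (∀ x ∈ I, ∀ y ∈ I, x ≠ y → ∃ w, S w ∧ w x ≠ w y) → (∀ m ≤ I.ncard, GG 𝔅 m) →
  ∀ Y' ⊆ I, ∀ h, (∃ w, S w ∧ Spl Y' w h) → ∃ w, (S w ∧ Spl Q w q) ∧ Spl Y' w h

/-- The moving property for a first split `p` of `Y`, for coordinates on the side `p = false`. Let
`w₀`, `w₁`, `a`, `b` be given, `j₀ ∈ Y` with `p j₀ = true`. Let `e` be a word with
`Cc e (w₁ y) (w₁ y')` for all `y, y' ∈ Y` (the word `w₁ y₀` changed at a place below all the places
where some `w₁ y` and `w₁ y'` differ). The triple `w₁ (b k)` together with `e` has the same splits as the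
triple `w₀ (a k)` together with `w₀ j₀`. By S_AMA (on `Option X`) there are `g` and `e ↦ w₀ j₀` with the
splits of `w₁`, `e` and `g (b k) = w₀ (a k)`. Let `q₀` be the place of the first split of `w₀` on `Y`
(S_PLC): `Cc (w₀ j₀) (g y) (g (b 0))` and `g (b 0) = w₀ (a 0)` say that `g y` agrees with `w₀ (a 0)` up
to and including `q₀`. So `q₀` is the place of the first split of both copies together. -/
def S_MVH : Prop := ∀ (c : ℚ → Bool) (X : Type) [Finite X] (S : (X → Word c) → Prop) (Y : Set X)
  (p : X → Bool), MV S {x | x ∈ Y ∧ p x = false} Y p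

/-- The moving property for a split `q'` of the side `J = {p = true}`, for coordinates on the side
`I = {p = false}`, if all the members of `S` have the first split `p` on `Y`. Let `j₁, j₀ ∈ J` with
`q' j₁ = true`, `q' j₀ = false`. Let `e` be a word with `Cc (w₁ i) e (w₁ j)` for `i ∈ I`, `j ∈ J` and
`Cc e (w₁ j) (w₁ j')` for `j, j' ∈ J` (the word `w₁ j₀` changed at a place above the place of the first
split of `Y` and below all the places where two `w₁ j` differ). The words `w₁ (b k)`, `e`, `w₁ j₀` have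
the same splits as `w₀ (a k)`, `w₀ j₁`, `w₀ j₀`: both have the form `triple | (two different points)`
(S_GLU). By S_AMA (on `Option X`) there are `g` and `e ↦ w₀ j₁` with the splits of `w₁`, `e`,
`g (b k) = w₀ (a k)`, `g j₀ = w₀ j₀`. Let `q₁` be the place of the first split of `w₀` on `J`:
`Cc (w₀ j₁) (g j) (g j₀)` says that `g j` agrees with `w₀ j₀` up to and including `q₁`. -/
def S_MVA : Prop := ∀ (c : ℚ → Bool) (X : Type) [Finite X] (S : (X → Word c) → Prop) (Y : Set X)
  (p q' : X → Bool), (∀ w, S w → Spl Y w p) →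
  MV S {x | x ∈ Y ∧ p x = false} {x | x ∈ Y ∧ p x = true} q'

/-- The induction step. Let `Y.ncard = n`, `Loc S Y v`. If `Y` has at most one element any `w ∈ S`
does it. Otherwise `v` is injective on `Y` (`Loc.ne`); let `p` be its first split on `Y`, `I`, `J` the
sides `p = false`, `p = true`. `Sp w := S w ∧ Spl Y w p` is PP (S_PPQ) and not empty (`Loc` for `Y`,
S_FSX). (H) S_UNI with S_MVH: all first splits of members of `S` on subsets of `I` are first splits of
members of `Sp`; the same for `J` (replace `p` by its complement). So `Loc Sp I v`, `Loc Sp J v`, and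
by GG there are `w_I, w_J ∈ Sp` with the splits of `v` on `I`, on `J`. If `J` (or `I`) has one element
this is enough (S_GLU). Otherwise let `q'` be the first split of `v` on `J`, `D' = {q' = false}`,
`D'' = {q' = true}` (in `J`), `T w := Sp w ∧ Spl J w q'` (not empty by (H)). (A) S_UNI with S_MVA: the
first splits of `Sp` on subsets of `I` are first splits of `T`. (H) for `Sp`, `J`, `q'`: the first
splits of `Sp` on subsets of `D'` or of `D''` are first splits of `T`. So `Loc T (I ∪ D'') v`,
`Loc T J v` (on sets which meet both parts the first split is `p`, `q'` resp.), and by GG there are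
`w₁, w₂ ∈ T` with the splits of `v` on `I ∪ D''`, `J`. Let `T' w := T w` and `w` has the splits of `v` on
`D''` (PP by S_PPQ and S_CPS: `Cc (w z) (w x) (w y)` whenever `Cc (v z) (v x) (v y)`). `w₁ ∈ T'`
witnesses the first splits of `v` on subsets of `I`, `w₂ ∈ T'` those on subsets of `D'`; on sets which
meet both, the first split is `p`. So `Loc T' (I ∪ D') v` and by GG there is `w ∈ T'` with the
splits of `v` on `I ∪ D'`. By S_GLU (for `q'` on `J`, then for `p` on `Y`) it has the splits of `v` on
`Y`. (All the sets `I`, `J`, `I ∪ D'`, `I ∪ D''` have less than `n` elements.) -/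
def S_GIN : Prop := ∀ (c : ℚ → Bool) (σ : Sig) (𝔅 : Str σ (Word c)), PLang 𝔅 → KP 𝔅 →
  ∀ n : ℕ, (∀ m < n, GG 𝔅 m) → GG 𝔅 n

/-- The Horn form. Take all the clauses which hold in `R`. Let `t` satisfy all of them,
`θ = {(i, j) : t i = t j}`. Some `w ∈ R` has `w i = w j` for all `(i, j) ∈ θ` (clause `θ → false`).
Let `S w := R w ∧ ∀ (i, j) ∈ θ, w i = w j` (PP), `Y` a set of representatives of `θ`. `Loc S Y t`: for
`Y' ⊆ Y` with two elements let `h` be the first split of `t` on `Y'`. If it is not the first split on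
`Y'` of a member of `S` then by S_BAL there are `i, j ∈ Y'` with `h i ≠ h j` which are not separated by
the first splits on `Y'` of the members of `S`: the clause `θ → (i, j, Y')` holds in `R`, so it holds
for `t`, contradiction. So by GG there is `w ∈ S` with the splits of `t` on `Y`, so everywhere, as `t`
and `w` satisfy the equalities in `θ`. `R` is invariant (S_INV). -/
def S_HRN : Prop := ∀ (c : ℚ → Bool) (σ : Sig) (𝔅 : Str σ (Word c)), PLang 𝔅 → KP 𝔅 →
  (∀ n, GG 𝔅 n) → ∀ (n : ℕ) (R : (Fin n → Word c) → Prop), PP 𝔅 R → HornC R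

/-! ### Part E: the engine -/

/-- The signature with one symbol of arity `n`. -/
def sg (n : ℕ) : Sig where
  S := Unit
  fin := inferInstance
  ar _ := n

/-- The constant patterns and the first splits of the members of `S`. -/
def pf {c : ℚ → Bool} {n : ℕ} (S : (Fin n → Word c) → Prop) : Fam (sg n) Bool where
  P _ p := (∀ i j, p i = p j) ∨ ∃ v, S v ∧ Spl Set.univ v p
  const _ _ := Or.inl (fun _ _ => rfl)

/-- The constraints of the powers. -/
def CT {c : ℚ → Bool} {n : ℕ} (S : (Fin n → Word c) → Prop) (I : Type) : Type :=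
  {t : Fin n → I → Bool // ∀ i, (pf S).P () (fun j => t j i)}

/-- The indices of the ties. -/
inductive TI (G : Type) (p : ℕ) (T : Type) (n : ℕ) : Type
  | f (v : G) (α β : ZMod p) (t : T) (j : Fin n)
  | u (v : G) (α β s : ZMod p)
  | x (v : G) (α β s : ZMod p)
  | y (v : G) (α β s : ZMod p)
  | z (v : G) (α β s : ZMod p)

/-- The elements of the instances: main elements; copies of the power; for each constraint of a copy
a copy of `D`; for each tie a copy of `DC`. -/
inductive EE (G : Type) (p : ℕ) (I T : Type) (n : ℕ) (D DC : Type) : Type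
  | main (v : G) (s : ZMod p)
  | site (v : G) (α β : ZMod p) (t : I → Bool)
  | fr (v : G) (α β : ZMod p) (t : T) (d : D)
  | tf (τ : TI G p T n) (d : DC)

section
variable {G : Type} [Group G] {p : ℕ} {I T : Type} {n : ℕ} {D DC : Type} {σ : Sig}

/-- The first element of a tie. -/
def lo (Δ : Gad Bool p I) (m : Fin n → D) : TI G p T n → EE G p I T n D DC
  | .f v α β t j => .fr v α β t (m j)
  | .u v α β s => .site v α β (Δ.u s)
  | .x v α β s => .site v α β (Δ.x s)
  | .y v α β s => .site v α β (Δ.y s)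
  | .z v α β s => .site v α β (Δ.z s)

/-- The second element of a tie. -/
def hi (tt : T → Fin n → I → Bool) (g h : G) (b : ZMod p) : TI G p T n → EE G p I T n D DC
  | .f v α β t j => .site v α β (tt t j)
  | .u _ _ _ s => .main 1 s
  | .x v α _ s => .main v (s + α)
  | .y v _ β s => .main (v * g) (s + β)
  | .z v α β s => .main (v * h) (s + α + β - b)

/-- The anchor. -/
noncomputable def anc (w : EE G p I T n D DC) : EE G p I T n D DC :=
  if w = .main 1 0 then .main 1 1 else .main 1 0

/-- The copy of `DC` for a tie: the marked elements are the anchor and the two elements. -/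
noncomputable def psi (Δ : Gad Bool p I) (m : Fin n → D) (tt : T → Fin n → I → Bool) (g h : G)
    (b : ZMod p) (mC : Fin 3 → DC) (τ : TI G p T n) (d : DC) : EE G p I T n D DC :=
  if d = mC 0 then anc (hi tt g h b τ) else if d = mC 1 then lo Δ m τ
  else if d = mC 2 then hi tt g h b τ else .tf τ d

/-- The instances. -/
noncomputable def JP (𝔇 : Str σ D) (m : Fin n → D) (ℭ : Str σ DC) (mC : Fin 3 → DC)
    (Δ : Gad Bool p I) (tt : T → Fin n → I → Bool) (g h : G) (b : ZMod p) :
    Str σ (EE G p I T n D DC) where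
  rel R e := (∃ (v : G) (α β : ZMod p) (t : T) (d : Fin (σ.ar R) → D), 𝔇.rel R d ∧
      e = fun j => EE.fr v α β t (d j)) ∨
    ∃ (τ : TI G p T n) (d : Fin (σ.ar R) → DC), ℭ.rel R d ∧
      e = fun j => psi Δ m tt g h b mC τ (d j)

/-- The value of the anchor of a main element. -/
noncomputable def av {c : ℚ → Bool} (M : G → ZMod p → Word c) (v : G) (s : ZMod p) : Word c :=
  if v = 1 ∧ s = 0 then M 1 1 else M 1 0

/-- The conditions which the instance expresses. -/
structure Sat {c : ℚ → Bool} (S : (Fin n → Word c) → Prop) (Δ : Gad Bool p I)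
    (tt : T → Fin n → I → Bool) (g h : G) (b : ZMod p) (M : G → ZMod p → Word c)
    (A : G → ZMod p → ZMod p → (I → Bool) → Word c)
    (Fr : G → ZMod p → ZMod p → T → Fin n → Word c) : Prop where
  cop : ∀ v α β t, S (Fr v α β t)
  f : ∀ v α β t j, Cc (M 1 0) (Fr v α β t j) (A v α β (tt t j))
  u : ∀ v α β s, Cc (av M 1 s) (A v α β (Δ.u s)) (M 1 s)
  x : ∀ v α β s, Cc (av M v (s + α)) (A v α β (Δ.x s)) (M v (s + α))
  y : ∀ v α β s, Cc (av M (v * g) (s + β)) (A v α β (Δ.y s)) (M (v * g) (s + β))
  z : ∀ v α β s, Cc (av M (v * h) (s + α + β - b)) (A v α β (Δ.z s))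
    (M (v * h) (s + α + β - b))

end

/-- The instances express these conditions. The marked points `mC 0, mC 1, mC 2` are different
(because there are triples of different words in `C3`). (→) Restrict the homomorphism: `M`, `A` are
its values on the main elements and sites, `Fr v α β t j` the value at `fr v α β t (m j)`; each copy of
`DC` gives `C3` for the anchor, `lo`, `hi`. (←) Choose a homomorphism from `𝔇` for each `(v, α, β, t)` and
one from `ℭ` for each tie. -/
def S_SAT : Prop := ∀ (c : ℚ → Bool) (σ : Sig) (𝔅 : Str σ (Word c)) (n : ℕ)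
  (S : (Fin n → Word c) → Prop) (D : Type) (𝔇 : Str σ D) (m : Fin n → D),
  (∀ v, S v ↔ ∃ f : D → Word c, Hom 𝔇 𝔅 f ∧ ∀ x, v x = f (m x)) →
  ∀ (DC : Type) (ℭ : Str σ DC) (mC : Fin 3 → DC),
  (∀ v : Fin 3 → Word c, C3 v ↔ ∃ f : DC → Word c, Hom ℭ 𝔅 f ∧ ∀ x, v x = f (mC x)) →
  ∀ (G : Type) [Group G] (g h : G) (p : ℕ) (I T : Type) (Δ : Gad Bool p I)
  (tt : T → Fin n → I → Bool) (b : ZMod p),
  CSP 𝔅 _ (JP 𝔇 m ℭ mC Δ tt g h b) ↔ ∃ M A Fr, Sat S Δ tt g h b M A Fr

/-- Realization of patterns: a pattern `p` of `S` is realized by a member of `S` which agrees with `c`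
below `q₁`, except for the letters `p` at the place `q₀ < q₁`, and which has the letter `false` at `q₁`.
If `p` is a first split of `v ∈ S` let `q` be its place (S_PLC): the letters of `v` at `q` are `p` or its
complement. Let `Δ` be the finite set of the places above `q` where some `v x` differs from `c`, and
`π` an increasing map from `Δ` to the places above `q₁`; `V x` is `c` below `q₁` except `p x` at `q₀`,
`false` at `q₁`, and `V x (π q') = v x q'` for `q' ∈ Δ`, and `c` elsewhere above `q₁`. If `p` is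
constant take any `v ∈ S`, and for `Δ` the set of all places where some `v x` differs from `c`. `V` has
the same splits as `v` (at corresponding places the letters of `V x`, `V y` are equal iff those of `v x`,
`v y` are). -/
def S_RLZ : Prop := ∀ (c : ℚ → Bool) (n : ℕ) (S : (Fin n → Word c) → Prop), Inv S → (∃ v, S v) →
  ∀ p : Fin n → Bool, (pf S).P () p → ∀ q₀ q₁ : ℚ, q₀ < q₁ → ∃ V, S V ∧
    ∀ x, (∀ q' < q₁, q' ≠ q₀ → (V x).1 q' = c q') ∧ (V x).1 q₀ = p x ∧ (V x).1 q₁ = false

/-- `J_0` is solvable. Take `f_(α,β)` from `Gad.OK.sol`, `Φ (main v s) = io s`,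
`Φ (site v α β t) = f_(α,β) t`. `M v s` is `c` except for the letter `io s` at the place `0` and
the letter `true` or `false` at the place `1`: `true` iff `(v, s) = (1, 0)`. `A v α β t` is `c` except for
`f_(α,β) t` at `0` and `false` at `1`. `Fr v α β t` is S_RLZ (places `0 < 1`) for the pattern
`j ↦ f_(α,β) (t j)` (a pattern because `f_(α,β)` is a polymorphism). Ties: if the letter of the anchor at
`0` differs from that of the two tied elements (which is the same) the split is at `0`; otherwise the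
anchor is `M 1 0` (as `io 0 ≠ io 1`), it has the letter `true` at `1` and the tied elements have the
letter `false` there, and everything agrees with `c` in between. -/
def S_SA0 : Prop := ∀ (c : ℚ → Bool) (n : ℕ) (S : (Fin n → Word c) → Prop), Inv S → (∃ v, S v) →
  ∀ (G : Type) [Group G] (g h : G) (p : ℕ) (I : Type) (Δ : Gad Bool p I), Δ.OK (pf S) →
  ∃ M A Fr, Sat S Δ (fun t : CT S I => t.1) g h 0 M A Fr

/-- `J_1` is not solvable. All the words together are finitely many and not all equal
(`Cc (M 1 1) (A ..) (M 1 0)`); let `q` be the first place where they are not all equal and `φ` the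
letters there. For every tie `φ` has the same value at the two elements. For a constraint `t` of the
copy `(v, α, β)` the letters of `Fr v α β t` are a pattern of `S`: if they are not constant, `q` is the
place of the first split of `Fr v α β t` (S_PLC). So `t ↦ φ (A v α β t)` is a polymorphism of `pf S`,
and `Gad.OK.uns` with `H v s = φ (M v s)` says that `φ` is constant, contradiction. -/
def S_UN1 : Prop := ∀ (c : ℚ → Bool) (n : ℕ) (S : (Fin n → Word c) → Prop) (G : Type) [Group G]
  [Finite G] (g h : G) (p : ℕ) (I : Type) [Finite I] (Δ : Gad Bool p I), p.Prime → IsPGroup p G →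
  Δ.OK (pf S) → ¬ ∃ M A Fr, Sat S Δ (fun t : CT S I => t.1) g h 1 M A Fr

/-- The two instances are equivalent for `k` pebbles: the proof of `S_JZ` (file Tree/I_JZ.lean, proved)
for the present instances. `y · main v s = main v (s + y v)`,
`y · site v α β t = site v (α + y v) (β + y (v * g)) t`, the same for `fr` and for `tf` (all five kinds
of ties `(v, α, β, ...)`). `lo` and `hi` commute with the action (`y 1 = 0`, `RowEq` at `v` for the
ties of kind `z`), and so does `anc`, and so `psi 0 τ` is mapped to `psi 1 (y · τ)`. The base of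
`main v s` is the point `v`, the base of the other elements the row of `v`. -/
def S_BFP : Prop := ∀ (σ : Sig) (G : Type) [Group G] [Finite G] (g h : G) (p n : ℕ)
  (I T D DC : Type) (𝔇 : Str σ D) (m : Fin n → D) (ℭ : Str σ DC) (mC : Fin 3 → DC)
  (Δ : Gad Bool p I) (tt : T → Fin n → I → Bool) (k : ℕ), p.Prime →
  (∀ v : G, (row g h v).card = 3) → Den (row g h) (3 * k + 5) →
  ∃ Z : (Fin k → EE G p I T n D DC) → (Fin k → EE G p I T n D DC) → Prop,
    BFSys (JP 𝔇 m ℭ mC Δ tt g h 0) (JP 𝔇 m ℭ mC Δ tt g h 1) k Z ∧ ∃ v w, Z v w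

/-- KP for sets of the form `Fin n` and `Y = univ`. -/
def KPn {c : ℚ → Bool} {σ : Sig} (𝔅 : Str σ (Word c)) : Prop :=
  ∀ (n : ℕ) (S : (Fin n → Word c) → Prop), PP 𝔅 S → ∀ h h' : Fin n → Bool,
    (∃ v, S v ∧ Spl Set.univ v h) → (∃ v, S v ∧ Spl Set.univ v h') →
    (∃ x y, (h x && h' x) ≠ (h y && h' y)) → ∃ v, S v ∧ Spl Set.univ v (fun x => h x && h' x)

/-- The engine. Suppose that KPn fails for `S`, `h`, `h'`; let `F = pf S`. It is minimal (two
elements). It has the twin property: otherwise S_TWIN gives `meet false true`, which is `&&`, or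
`meet true false`, which is `||`; as the patterns are closed under complement, in both cases they are
closed under `&&`, contradiction. S_GAD gives a gadget, S_PGRP and S_DEN (for `3 k + 5`, words of length
`≤ 2 (3 k + 5)`) a `p`-group; as in the proof of S_NEG1 (file Tree/I_NEG1.lean, proved) S_GAME with the
instances `JP` (`T = CT S I`), S_SAT, S_SA0, S_UN1, S_BFP shows that `CSP 𝔅` is not in FPC. -/
def S_KPF : Prop := S_GAME → S_PGRP → S_DEN → S_GAD → S_TWIN → S_INV → S_SAT → S_SA0 → S_UN1 →
  S_BFP → ∀ (c : ℚ → Bool) (σ : Sig) (𝔅 : Str σ (Word c)), PLang 𝔅 → InFPC (CSP 𝔅) → KPn 𝔅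

/-- General index sets. Let `e : Fin n ≃ Y` (`Y` has `n` elements); the set of the `v ∘ e`, `v ∈ S`, is
PP (S_PPB (4)) and `Spl Y v h` iff `Spl univ (v ∘ e) (h ∘ e)`; extend the result to `X`
(`Spl.congr`). -/
def S_KPX : Prop := ∀ (c : ℚ → Bool) (σ : Sig) (𝔅 : Str σ (Word c)), KPn 𝔅 → KP 𝔅

end Pool.Agent.Work.MP_8dbde4_lc.Phy
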